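import Pool.Agent.Lib.MP_172a45_an.F.Facts

set_option autoImplicit false

/-!
# The Y identity and the XX identity, and the two criteria
-/

namespace Pool.Agent.Lib.MP_172a45_an.F

open Finset Filter Topology

section ident

variable {N : ℕ} (v : Fin N → ℂ)

/-- `∏ (1 - s v k)` -/
noncomputable def qq (s : ℂ) : ℂ := ∏ k, (1 - s * v k)

/-- `∏_{l ≠ k} (1 - s v l)` -/
noncomputable def q1 (k : Fin N) (s : ℂ) : ℂ := ∏ l ∈ univ.erase k, (1 - s * v l)

/-- `∏_{l ≠ k, j} (1 - s v l)` -/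
noncomputable def q2 (k j : Fin N) (s : ℂ) : ℂ := ∏ l ∈ (univ.erase k).erase j, (1 - s * v l)

theorem qq_eq (k : Fin N) (s : ℂ) : qq v s = (1 - s * v k) * q1 v k s := by
  unfold qq q1
  rw [Finset.mul_prod_erase univ (fun l => 1 - s * v l) (Finset.mem_univ k)]

theorem q1_eq {k j : Fin N} (hkj : k ≠ j) (s : ℂ) :
    q1 v k s = (1 - s * v j) * q2 v k j s := by
  unfold q1 q2
  rw [Finset.mul_prod_erase (univ.erase k) (fun l => 1 - s * v l)
    (Finset.mem_erase.2 ⟨hkj.symm, Finset.mem_univ j⟩)]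

theorem q2_comm (k j : Fin N) (s : ℂ) : q2 v k j s = q2 v j k s := by
  unfold q2
  rw [Finset.erase_right_comm]

theorem qq_deriv (s : ℝ) : HasDerivAt (fun s : ℝ => qq v s) (-∑ k, v k * q1 v k s) s := by
  have h0 : HasDerivAt (fun s : ℝ => (s : ℂ)) 1 s := Complex.ofRealCLM.hasDerivAt
  have h1 : ∀ k ∈ (univ : Finset (Fin N)),
      HasDerivAt (fun s : ℝ => 1 - (s : ℂ) * v k) (-(1 * v k)) s := fun k _ =>
    (h0.mul_const (v k)).const_sub 1
  have h2 := HasDerivAt.fun_finsetProd h1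
  refine (h2.congr_deriv ?_)
  rw [← Finset.sum_neg_distrib]
  refine Finset.sum_congr rfl fun k _ => ?_
  unfold q1
  simp only [smul_eq_mul]
  ring

theorem qq_cont : Continuous fun s : ℝ => qq v s := by
  unfold qq; fun_prop

theorem q1_cont (k : Fin N) : Continuous fun s : ℝ => q1 v k s := by
  unfold q1; fun_prop

theorem q2_cont (k j : Fin N) : Continuous fun s : ℝ => q2 v k j s := by
  unfold q2; fun_prop

theorem qq_zero : qq v 0 = 1 := by simp [qq]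

theorem int_q' : ∫ s in (0:ℝ)..1, -∑ k, v k * q1 v k s = qq v 1 - 1 := by
  rw [intervalIntegral.integral_eq_sub_of_hasDerivAt (fun s _ => qq_deriv v s)]
  · simp [qq_zero]
  · refine Continuous.intervalIntegrable ?_ _ _
    exact (continuous_finsetSum _ fun k _ => continuous_const.mul (q1_cont v k)).neg

/-- integration by parts -/
theorem int_q : ∫ s in (0:ℝ)..1, qq v s =
    qq v 1 + ∫ s in (0:ℝ)..1, (s : ℂ) * ∑ k, v k * q1 v k s := by
  have hd : ∀ s ∈ Set.uIcc (0:ℝ) 1, HasDerivAt (fun s : ℝ => (s : ℂ) * qq v s)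
      (1 * qq v s + s * (-∑ k, v k * q1 v k s)) s := fun s _ => by
    have h0 : HasDerivAt (fun s : ℝ => (s : ℂ)) 1 s := Complex.ofRealCLM.hasDerivAt
    exact h0.mul (qq_deriv v s)
  have c1 : Continuous fun s : ℝ => ∑ k, v k * q1 v k s :=
    continuous_finsetSum _ fun k _ => continuous_const.mul (q1_cont v k)
  have c2 : Continuous fun s : ℝ => (s : ℂ) * ∑ k, v k * q1 v k s :=
    Complex.continuous_ofReal.mul c1
  have h1 := intervalIntegral.integral_eq_sub_of_hasDerivAt hd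
    (Continuous.intervalIntegrable (by
      exact ((continuous_const.mul (qq_cont v)).add (Complex.continuous_ofReal.mul c1.neg))) _ _)
  have h2 : ∫ s in (0:ℝ)..1, (1 * qq v s + (s : ℂ) * (-∑ k, v k * q1 v k s)) =
      (∫ s in (0:ℝ)..1, qq v s) - ∫ s in (0:ℝ)..1, (s : ℂ) * ∑ k, v k * q1 v k s := by
    rw [← intervalIntegral.integral_sub ((qq_cont v).intervalIntegrable _ _)
      (c2.intervalIntegrable _ _)]
    refine intervalIntegral.integral_congr fun s _ => ?_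
    ring
  rw [h2] at h1
  simp only [Complex.ofReal_one, one_mul, Complex.ofReal_zero, zero_mul, sub_zero] at h1
  rw [← h1]
  ring

/-- the Y identity -/
theorem Y_ident : (1 : ℂ) = qq v 1 + (∑ k, v k) * (∫ s in (0:ℝ)..1, qq v s) +
    ∫ s in (0:ℝ)..1, (s : ℂ) * ∑ k, v k ^ 2 * q1 v k s := by
  have c1 : Continuous fun s : ℝ => -∑ k, v k * q1 v k s :=
    (continuous_finsetSum _ fun k _ => continuous_const.mul (q1_cont v k)).neg
  have e : ∀ s : ℝ, (s : ℂ) * ∑ k, v k ^ 2 * q1 v k s =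
      -(-∑ k, v k * q1 v k s) - (∑ k, v k) * qq v s := fun s => by
    rw [neg_neg, Finset.mul_sum, Finset.sum_mul, ← Finset.sum_sub_distrib]
    refine Finset.sum_congr rfl fun k _ => ?_
    rw [qq_eq v k]
    ring
  have h : ∫ s in (0:ℝ)..1, (s : ℂ) * ∑ k, v k ^ 2 * q1 v k s =
      -(∫ s in (0:ℝ)..1, -∑ k, v k * q1 v k s) - (∑ k, v k) * ∫ s in (0:ℝ)..1, qq v s := by
    rw [← intervalIntegral.integral_neg, ← intervalIntegral.integral_const_mul,
      ← intervalIntegral.integral_sub]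
    · exact intervalIntegral.integral_congr fun s _ => e s
    · exact c1.neg.intervalIntegrable _ _
    · exact (continuous_const.mul (qq_cont v)).intervalIntegrable _ _
  rw [h, int_q']
  ring

theorem sum_sq_aux (m : ℂ) (hm : (N : ℂ) * m = ∑ k, v k) (s : ℂ) :
    (N : ℂ) * ∑ k, v k * (v k - m) * q1 v k s =
      (1 / 2) * ∑ k, ∑ j, (v k - v j) ^ 2 * q2 v k j s := by
  have e1 : (N : ℂ) * ∑ k, v k * (v k - m) * q1 v k s =
      ∑ k, ∑ j, v k * (v k - v j) * q1 v k s := by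
    rw [Finset.mul_sum]
    refine Finset.sum_congr rfl fun k _ => ?_
    rw [← Finset.sum_mul, ← Finset.mul_sum, Finset.sum_sub_distrib, ← hm]
    simp only [Finset.sum_const, Finset.card_univ, Fintype.card_fin, nsmul_eq_mul]
    ring
  have e2 : ∑ k, ∑ j, v k * (v k - v j) * q1 v k s =
      ∑ k, ∑ j, v j * (v j - v k) * q1 v j s := Finset.sum_comm
  have e3 : ∑ k, ∑ j, (v k - v j) ^ 2 * q2 v k j s =
      ∑ k, ∑ j, (v k * (v k - v j) * q1 v k s + v j * (v j - v k) * q1 v j s) := by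
    refine Finset.sum_congr rfl fun k _ => Finset.sum_congr rfl fun j _ => ?_
    by_cases hkj : k = j
    · subst hkj; ring
    · rw [q1_eq v hkj, q1_eq v (Ne.symm hkj), q2_comm v j k]
      ring
  rw [e1, e3]
  simp only [Finset.sum_add_distrib]
  rw [← e2]
  ring

/-- the XX identity -/
theorem XX_ident (hN : 0 < N) (m : ℂ) (hm : (N : ℂ) * m = ∑ k, v k) :
    (1 : ℂ) = (N + 1) * m * (∫ s in (0:ℝ)..1, qq v s) + (1 - m) * qq v 1 +
      (1 / (2 * N)) * ∫ s in (0:ℝ)..1, (s : ℂ) * ∑ k, ∑ j, (v k - v j) ^ 2 * q2 v k j s := by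
  have hN0 : (N : ℂ) ≠ 0 := by exact_mod_cast hN.ne'
  have h1 := Y_ident v
  have h2 := int_q v
  have c1 : Continuous fun s : ℝ => (s : ℂ) * ∑ k, v k ^ 2 * q1 v k s :=
    Complex.continuous_ofReal.mul
      (continuous_finsetSum _ fun k _ => continuous_const.mul (q1_cont v k))
  have c2 : Continuous fun s : ℝ => (s : ℂ) * ∑ k, v k * q1 v k s :=
    Complex.continuous_ofReal.mul
      (continuous_finsetSum _ fun k _ => continuous_const.mul (q1_cont v k))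
  have e : ∀ s : ℝ, (s : ℂ) * ∑ k, ∑ j, (v k - v j) ^ 2 * q2 v k j s =
      (2 * N) * ((s : ℂ) * ∑ k, v k ^ 2 * q1 v k s - m * ((s : ℂ) * ∑ k, v k * q1 v k s)) :=
    fun s => by
    have h3 := sum_sq_aux v m hm s
    have h4 : ∑ k, v k * (v k - m) * q1 v k s =
        ∑ k, v k ^ 2 * q1 v k s - m * ∑ k, v k * q1 v k s := by
      rw [Finset.mul_sum, ← Finset.sum_sub_distrib]
      exact Finset.sum_congr rfl fun k _ => by ring
    rw [h4] at h3
    linear_combination (-2 * (s : ℂ)) * h3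
  have h5 : ∫ s in (0:ℝ)..1, (s : ℂ) * ∑ k, ∑ j, (v k - v j) ^ 2 * q2 v k j s =
      (2 * N) * ((∫ s in (0:ℝ)..1, (s : ℂ) * ∑ k, v k ^ 2 * q1 v k s) -
        m * ∫ s in (0:ℝ)..1, (s : ℂ) * ∑ k, v k * q1 v k s) := by
    rw [← intervalIntegral.integral_const_mul, ← intervalIntegral.integral_sub,
      ← intervalIntegral.integral_const_mul]
    · exact intervalIntegral.integral_congr fun s _ => e s
    · exact c1.intervalIntegrable _ _
    · exact (continuous_const.mul c2).intervalIntegrable _ _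
  rw [h5]
  rw [← hm] at h1
  have h6 : 1 / (2 * (N : ℂ)) * ((2 * N) * ((∫ s in (0:ℝ)..1, (s : ℂ) * ∑ k, v k ^ 2 * q1 v k s) -
      m * ∫ s in (0:ℝ)..1, (s : ℂ) * ∑ k, v k * q1 v k s)) =
      (∫ s in (0:ℝ)..1, (s : ℂ) * ∑ k, v k ^ 2 * q1 v k s) -
      m * ∫ s in (0:ℝ)..1, (s : ℂ) * ∑ k, v k * q1 v k s := by
    field_simp
  rw [h6]
  linear_combination h1 - m * h2

end ident

/-! ### criteria -/

/-- the real integral of the Y criterion -/
noncomputable def YY {N : ℕ} (a : ℝ) (u : Fin N → ℂ) : ℝ :=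
  ∫ s in (0:ℝ)..1, s * ∑ k, (a * ‖u k‖) ^ 2 * ∏ l ∈ univ.erase k, ‖1 - (s : ℂ) * a * u l‖

/-- the real integral of the XX criterion -/
noncomputable def XI {N : ℕ} (a : ℝ) (u : Fin N → ℂ) : ℝ :=
  ∫ s in (0:ℝ)..1, s * ∑ k, ∑ j, ‖u k - u j‖ ^ 2 *
    ∏ l ∈ (univ.erase k).erase j, ‖1 - (s : ℂ) * a * u l‖

theorem norm_qq {N : ℕ} (a : ℝ) (u : Fin N → ℂ) :
    ‖qq (fun k => (a : ℂ) * u k) 1‖ = ∏ k, ‖1 - (a : ℂ) * u k‖ := by
  unfold qq
  rw [norm_prod]
  exact Finset.prod_congr rfl fun k _ => by rw [one_mul]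

theorem norm_int_le {f : ℝ → ℂ} {g : ℝ → ℝ} (hg : Continuous g)
    (h : ∀ s ∈ Set.Icc (0:ℝ) 1, ‖f s‖ ≤ g s) :
    ‖∫ s in (0:ℝ)..1, f s‖ ≤ ∫ s in (0:ℝ)..1, g s := by
  refine intervalIntegral.norm_integral_le_of_norm_le zero_le_one ?_ (hg.intervalIntegrable _ _)
  refine Eventually.of_forall fun s hs => h s ⟨hs.1.le, hs.2⟩

namespace Fr

variable {N : ℕ} {a : ℝ} {ζ z : Fin N → ℂ}

theorem norm_A (h : Fr N a ζ z) :
    ((N : ℝ) + 1) * ‖∫ s in (0:ℝ)..1, qq (fun k => (a : ℂ) * u a ζ k) s‖ ≤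
      ∏ k, ‖u a ζ k‖ := by
  have e : ∀ s : ℝ, qq (fun k => (a : ℂ) * u a ζ k) s = ∏ k, (1 - s * a * u a ζ k) := fun s => by
    unfold qq
    exact Finset.prod_congr rfl fun k _ => by ring
  simp only [e]
  exact h.T0

/-- criterion (Y) -/
theorem critY (h : Fr N a ζ z) :
    1 ≤ YY a (u a ζ) + ∏ k, ‖1 - (a : ℂ) * u a ζ k‖ +
      a * (‖∑ k, u a ζ k‖ / (N + 1)) * ∏ k, ‖u a ζ k‖ := by
  have ha := h.a0
  have h1 := Y_ident (fun k => (a : ℂ) * u a ζ k)
  have h2 : ‖(∑ k, (a : ℂ) * u a ζ k) * (∫ s in (0:ℝ)..1, qq (fun k => (a : ℂ) * u a ζ k) s)‖ ≤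
      a * (‖∑ k, u a ζ k‖ / (N + 1)) * ∏ k, ‖u a ζ k‖ := by
    rw [← Finset.mul_sum, norm_mul, norm_mul, Complex.norm_real, Real.norm_of_nonneg ha.le]
    have h3 := h.norm_A
    have hN : (0 : ℝ) < (N : ℝ) + 1 := by positivity
    calc a * ‖∑ k, u a ζ k‖ * ‖∫ s in (0:ℝ)..1, qq (fun k => (a : ℂ) * u a ζ k) s‖ =
        a * (‖∑ k, u a ζ k‖ / (N + 1)) * (((N : ℝ) + 1) *
          ‖∫ s in (0:ℝ)..1, qq (fun k => (a : ℂ) * u a ζ k) s‖) := by
          field_simp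
      _ ≤ _ := mul_le_mul_of_nonneg_left h3 (by positivity)
  have h3 : ‖∫ s in (0:ℝ)..1, (s : ℂ) * ∑ k, ((a : ℂ) * u a ζ k) ^ 2 *
      q1 (fun k => (a : ℂ) * u a ζ k) k s‖ ≤ YY a (u a ζ) := by
    unfold YY
    refine norm_int_le (by fun_prop) fun s hs => ?_
    rw [norm_mul, Complex.norm_real, Real.norm_of_nonneg hs.1]
    refine mul_le_mul_of_nonneg_left ?_ hs.1
    refine (norm_sum_le _ _).trans (le_of_eq ?_)
    refine Finset.sum_congr rfl fun k _ => ?_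
    rw [norm_mul, norm_pow, norm_mul, Complex.norm_real, Real.norm_of_nonneg ha.le]
    unfold q1
    rw [norm_prod]
    congr 1
    exact Finset.prod_congr rfl fun l _ => by rw [mul_assoc]
  have h4 := congrArg norm h1
  rw [norm_one] at h4
  refine h4.le.trans ((norm_add_le _ _).trans ?_)
  have h5 := norm_add_le (qq (fun k => (a : ℂ) * u a ζ k) 1)
    ((∑ k, (a : ℂ) * u a ζ k) * (∫ s in (0:ℝ)..1, qq (fun k => (a : ℂ) * u a ζ k) s))
  rw [norm_qq] at h5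
  linarith

/-- criterion (XX) -/
theorem critX (h : Fr N a ζ z) (hN : 0 < N) :
    1 ≤ ‖1 - (a : ℂ) * ((∑ k, u a ζ k) / N)‖ * ∏ k, ‖1 - (a : ℂ) * u a ζ k‖ +
      a ^ 2 / (2 * N) * XI a (u a ζ) + a * (‖∑ k, u a ζ k‖ / N) * ∏ k, ‖u a ζ k‖ := by
  have ha := h.a0
  have hN0 : (0 : ℝ) < N := by exact_mod_cast hN
  have hNc : (N : ℂ) ≠ 0 := by exact_mod_cast hN.ne'
  have h1 := XX_ident (fun k => (a : ℂ) * u a ζ k) hN ((a : ℂ) * ((∑ k, u a ζ k) / N)) (by
    rw [← Finset.mul_sum]; field_simp)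
  have h2 : ‖((N : ℂ) + 1) * ((a : ℂ) * ((∑ k, u a ζ k) / N)) *
      (∫ s in (0:ℝ)..1, qq (fun k => (a : ℂ) * u a ζ k) s)‖ ≤
      a * (‖∑ k, u a ζ k‖ / N) * ∏ k, ‖u a ζ k‖ := by
    have h3 := h.norm_A
    have h4 : ‖(N : ℂ) + 1‖ = (N : ℝ) + 1 := by
      have : (N : ℂ) + 1 = ((N + 1 : ℕ) : ℂ) := by push_cast; ring
      rw [this, Complex.norm_natCast]
      push_cast; ring
    rw [norm_mul, norm_mul, norm_mul, norm_div, Complex.norm_real, Real.norm_of_nonneg ha.le, h4,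
      Complex.norm_natCast]
    calc ((N : ℝ) + 1) * (a * (‖∑ k, u a ζ k‖ / N)) *
          ‖∫ s in (0:ℝ)..1, qq (fun k => (a : ℂ) * u a ζ k) s‖ =
        a * (‖∑ k, u a ζ k‖ / N) * (((N : ℝ) + 1) *
          ‖∫ s in (0:ℝ)..1, qq (fun k => (a : ℂ) * u a ζ k) s‖) := by ring
      _ ≤ _ := mul_le_mul_of_nonneg_left h3 (by positivity)
  have h3 : ‖(1 / (2 * (N : ℂ))) * ∫ s in (0:ℝ)..1, (s : ℂ) * ∑ k, ∑ j,
      ((a : ℂ) * u a ζ k - (a : ℂ) * u a ζ j) ^ 2 * q2 (fun k => (a : ℂ) * u a ζ k) k j s‖ ≤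
      a ^ 2 / (2 * N) * XI a (u a ζ) := by
    have h4 : ‖∫ s in (0:ℝ)..1, (s : ℂ) * ∑ k, ∑ j,
        ((a : ℂ) * u a ζ k - (a : ℂ) * u a ζ j) ^ 2 * q2 (fun k => (a : ℂ) * u a ζ k) k j s‖ ≤
        ∫ s in (0:ℝ)..1, a ^ 2 * (s * ∑ k, ∑ j, ‖u a ζ k - u a ζ j‖ ^ 2 *
          ∏ l ∈ (univ.erase k).erase j, ‖1 - (s : ℂ) * a * u a ζ l‖) := by
      refine norm_int_le (by fun_prop) fun s hs => ?_
      rw [norm_mul, Complex.norm_real, Real.norm_of_nonneg hs.1]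
      have e : a ^ 2 * (s * ∑ k, ∑ j, ‖u a ζ k - u a ζ j‖ ^ 2 *
          ∏ l ∈ (univ.erase k).erase j, ‖1 - (s : ℂ) * a * u a ζ l‖) =
          s * ∑ k, ∑ j, (a ^ 2 * ‖u a ζ k - u a ζ j‖ ^ 2) *
          ∏ l ∈ (univ.erase k).erase j, ‖1 - (s : ℂ) * a * u a ζ l‖ := by
        have e' : ∀ k j, (a ^ 2 * ‖u a ζ k - u a ζ j‖ ^ 2) *
            ∏ l ∈ (univ.erase k).erase j, ‖1 - (s : ℂ) * a * u a ζ l‖ =
            a ^ 2 * (‖u a ζ k - u a ζ j‖ ^ 2 *
            ∏ l ∈ (univ.erase k).erase j, ‖1 - (s : ℂ) * a * u a ζ l‖) := fun k j => by ring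
        simp only [e', ← Finset.mul_sum]
        ring
      rw [e]
      refine mul_le_mul_of_nonneg_left ?_ hs.1
      refine (norm_sum_le _ _).trans (Finset.sum_le_sum fun k _ => ?_)
      refine (norm_sum_le _ _).trans (le_of_eq ?_)
      refine Finset.sum_congr rfl fun j _ => ?_
      rw [norm_mul, norm_pow, ← mul_sub, norm_mul, Complex.norm_real, Real.norm_of_nonneg ha.le,
        mul_pow]
      unfold q2
      rw [norm_prod]
      congr 1
      exact Finset.prod_congr rfl fun l _ => by rw [mul_assoc]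
    rw [intervalIntegral.integral_const_mul] at h4
    rw [norm_mul, norm_div, norm_one, norm_mul, Complex.norm_natCast]
    have h5 : ‖(2 : ℂ)‖ = 2 := by simp
    rw [h5]
    have h6 : (0 : ℝ) ≤ 1 / (2 * N) := by positivity
    have h7 := mul_le_mul_of_nonneg_left h4 h6
    refine h7.trans (le_of_eq ?_)
    unfold XI
    ring
  have h4 := congrArg norm h1
  rw [norm_one] at h4
  refine h4.le.trans ((norm_add_le _ _).trans ?_)
  have h5 := norm_add_le (((N : ℂ) + 1) * ((a : ℂ) * ((∑ k, u a ζ k) / N)) *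
      (∫ s in (0:ℝ)..1, qq (fun k => (a : ℂ) * u a ζ k) s))
    ((1 - (a : ℂ) * ((∑ k, u a ζ k) / N)) * qq (fun k => (a : ℂ) * u a ζ k) 1)
  rw [norm_mul (1 - (a : ℂ) * ((∑ k, u a ζ k) / N)), norm_qq] at h5
  linarith

end Fr

end Pool.Agent.Lib.MP_172a45_an.F
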