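import Pool.Agent.Lib.MP_172a45_an.F.Small
import Pool.Agent.Lib.MP_172a45_an.F.Ident

set_option autoImplicit false

/-!
# Algebraic facts: `v = 1 - a u`, `c = ‖v‖`, `t = ‖u‖`, `η = t² - c²`, `e = c - Re v`
-/

namespace Pool.Agent.Lib.MP_172a45_an.F

open Finset Real

/-- `‖1 - s + s v‖² = (1 - s + s ‖v‖)² - 2 s (1 - s) (‖v‖ - Re v)` -/
theorem norm_seg_sq (v : ℂ) (s : ℝ) :
    ‖(1 : ℂ) - s + s * v‖ ^ 2 = (1 - s + s * ‖v‖) ^ 2 - 2 * s * (1 - s) * (‖v‖ - v.re) := by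
  have h1 : ‖v‖ ^ 2 = v.re ^ 2 + v.im ^ 2 := by
    rw [← Complex.normSq_eq_norm_sq, Complex.normSq_apply]; ring
  rw [← Complex.normSq_eq_norm_sq, Complex.normSq_apply]
  simp only [Complex.add_re, Complex.sub_re, Complex.one_re, Complex.ofReal_re, Complex.mul_re,
    Complex.ofReal_im, Complex.add_im, Complex.sub_im, Complex.one_im, Complex.mul_im]
  linear_combination (-s ^ 2) * h1

/-- `a² t² - (1 - c)² = 2 (c - Re v)` -/
theorem alg_e (a : ℝ) (u : ℂ) :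
    a ^ 2 * ‖u‖ ^ 2 - (1 - ‖1 - a * u‖) ^ 2 = 2 * (‖1 - a * u‖ - (1 - a * u).re) := by
  have h1 : ‖1 - a * u‖ ^ 2 = (1 - a * u).re ^ 2 + (1 - a * u).im ^ 2 := by
    rw [← Complex.normSq_eq_norm_sq, Complex.normSq_apply]; ring
  have h2 : ‖u‖ ^ 2 = u.re ^ 2 + u.im ^ 2 := by
    rw [← Complex.normSq_eq_norm_sq, Complex.normSq_apply]; ring
  simp only [Complex.sub_re, Complex.one_re, Complex.mul_re, Complex.ofReal_re,
    Complex.ofReal_im, Complex.sub_im, Complex.one_im, Complex.mul_im] at h1 ⊢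
  rw [h2]
  nlinarith [h1]

/-- `‖a + (1 - a²) u‖² = 1 + (1 - a²) (t² - c²)` -/
theorem alg_eta (a : ℝ) (u : ℂ) :
    ‖(a : ℂ) + (1 - (a : ℂ) ^ 2) * u‖ ^ 2 = 1 + (1 - a ^ 2) * (‖u‖ ^ 2 - ‖1 - a * u‖ ^ 2) := by
  have e : (1 : ℂ) - (a : ℂ) ^ 2 = ((1 - a ^ 2 : ℝ) : ℂ) := by push_cast; ring
  rw [e]
  simp only [← Complex.normSq_eq_norm_sq, Complex.normSq_apply]
  simp only [Complex.add_re, Complex.sub_re, Complex.one_re, Complex.ofReal_re, Complex.mul_re,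
    Complex.ofReal_im, Complex.add_im, Complex.sub_im, Complex.one_im, Complex.mul_im]
  ring

/-- `2 a Re u = 1 - (1 - a²) t² + (t² - c²)` -/
theorem alg_re (a : ℝ) (u : ℂ) :
    2 * a * u.re = 1 - (1 - a ^ 2) * ‖u‖ ^ 2 + (‖u‖ ^ 2 - ‖1 - a * u‖ ^ 2) := by
  simp only [← Complex.normSq_eq_norm_sq, Complex.normSq_apply]
  simp only [Complex.sub_re, Complex.one_re, Complex.ofReal_re, Complex.mul_re,
    Complex.ofReal_im, Complex.sub_im, Complex.one_im, Complex.mul_im]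
  ring

namespace Fr

variable {N : ℕ} {a : ℝ} {ζ z : Fin N → ℂ}

theorem m_pos (h : Fr N a ζ z) : 0 < 1 - a ^ 2 := by
  have := h.a0; have := h.a1; nlinarith

/-- `η k = t k ^ 2 - c k ^ 2 ≥ 0` -/
theorem eta_nonneg (h : Fr N a ζ z) (k : Fin N) :
    0 ≤ ‖u a ζ k‖ ^ 2 - ‖1 - a * u a ζ k‖ ^ 2 := by
  have := h.gl k
  have := norm_nonneg (1 - a * u a ζ k)
  nlinarith

/-- (Rw') in terms of `t` and `η` -/
theorem Rw_eta (h : Fr N a ζ z) :
    1 + (1 - a ^ 2) / 4 * (3 * N + (1 - a ^ 2) * ∑ k, ‖u a ζ k‖ ^ 2 -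
      ∑ k, (‖u a ζ k‖ ^ 2 - ‖1 - a * u a ζ k‖ ^ 2)) ≤
      ∏ k, √(1 + (1 - a ^ 2) * (‖u a ζ k‖ ^ 2 - ‖1 - a * u a ζ k‖ ^ 2)) := by
  have h1 := h.Rw'
  have e1 : ∀ k, ‖(a : ℂ) + (1 - (a : ℂ) ^ 2) * u a ζ k‖ =
      √(1 + (1 - a ^ 2) * (‖u a ζ k‖ ^ 2 - ‖1 - a * u a ζ k‖ ^ 2)) := fun k => by
    rw [← alg_eta, Real.sqrt_sq (norm_nonneg _)]
  simp only [e1] at h1
  refine le_trans (le_of_eq ?_) h1
  have e2 : 2 * a * (∑ k, u a ζ k).re = ∑ k, (1 - (1 - a ^ 2) * ‖u a ζ k‖ ^ 2 +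
      (‖u a ζ k‖ ^ 2 - ‖1 - a * u a ζ k‖ ^ 2)) := by
    rw [Complex.re_sum, Finset.mul_sum]
    exact Finset.sum_congr rfl fun k _ => alg_re a _
  rw [Finset.sum_add_distrib, Finset.sum_sub_distrib, ← Finset.mul_sum] at e2
  simp only [Finset.sum_const, Finset.card_univ, Fintype.card_fin, nsmul_eq_mul, mul_one] at e2
  have e3 : a / 2 * (∑ k, u a ζ k).re = (2 * a * (∑ k, u a ζ k).re) / 4 := by ring
  rw [e3, e2]
  ring

/-- (Rw'), logarithmic form -/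
theorem Rw_log (h : Fr N a ζ z) :
    Real.log (1 + (1 - a ^ 2) / 4 * (3 * N + (1 - a ^ 2) * ∑ k, ‖u a ζ k‖ ^ 2 -
      ∑ k, (‖u a ζ k‖ ^ 2 - ‖1 - a * u a ζ k‖ ^ 2))) ≤
      ∑ k, 1 / 2 * Real.log (1 + (1 - a ^ 2) * (‖u a ζ k‖ ^ 2 - ‖1 - a * u a ζ k‖ ^ 2)) := by
  have hm := h.m_pos
  have hp : ∀ k, 0 < 1 + (1 - a ^ 2) * (‖u a ζ k‖ ^ 2 - ‖1 - a * u a ζ k‖ ^ 2) := fun k => by
    have := mul_nonneg hm.le (h.eta_nonneg k)
    linarith
  have h1 := h.Rw_eta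
  have hpos : 0 < 1 + (1 - a ^ 2) / 4 * (3 * N + (1 - a ^ 2) * ∑ k, ‖u a ζ k‖ ^ 2 -
      ∑ k, (‖u a ζ k‖ ^ 2 - ‖1 - a * u a ζ k‖ ^ 2)) := by
    have h2 : (1 - a ^ 2) / 4 * (3 * N + (1 - a ^ 2) * ∑ k, ‖u a ζ k‖ ^ 2 -
      ∑ k, (‖u a ζ k‖ ^ 2 - ‖1 - a * u a ζ k‖ ^ 2)) =
      (1 - a ^ 2) * (N - a / 2 * (∑ k, u a ζ k).re) := by
      have e2 : 2 * a * (∑ k, u a ζ k).re = ∑ k, (1 - (1 - a ^ 2) * ‖u a ζ k‖ ^ 2 +
          (‖u a ζ k‖ ^ 2 - ‖1 - a * u a ζ k‖ ^ 2)) := by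
        rw [Complex.re_sum, Finset.mul_sum]
        exact Finset.sum_congr rfl fun k _ => alg_re a _
      rw [Finset.sum_add_distrib, Finset.sum_sub_distrib, ← Finset.mul_sum] at e2
      simp only [Finset.sum_const, Finset.card_univ, Fintype.card_fin, nsmul_eq_mul, mul_one] at e2
      have e3 : a / 2 * (∑ k, u a ζ k).re = (2 * a * (∑ k, u a ζ k).re) / 4 := by ring
      rw [e3, e2]
      ring
    rw [h2]
    have h3 : (∑ k, u a ζ k).re ≤ N := by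
      refine (Complex.re_le_norm _).trans ?_
      refine (norm_sum_le _ _).trans (le_of_eq ?_)
      exact h.mean
    have h4 : 0 ≤ (N : ℝ) - a / 2 * (∑ k, u a ζ k).re := by
      have := h.a0; have := h.a1
      have h5 : (0 : ℝ) ≤ N := Nat.cast_nonneg N
      by_cases h6 : 0 ≤ (∑ k, u a ζ k).re
      · nlinarith
      · nlinarith
    have := mul_nonneg hm.le h4
    linarith
  refine (Real.log_le_log hpos h1).trans (le_of_eq ?_)
  rw [Real.log_prod fun k _ => (Real.sqrt_pos.2 (hp k)).ne']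
  refine Finset.sum_congr rfl fun k _ => ?_
  rw [Real.log_sqrt (hp k).le]
  ring

end Fr

/-! ### Lower bounds of `∏ (1 - s + s c)` -/

/-- `1 + ∑ x ≤ ∏ (1 + x)` -/
theorem one_add_sum_le {ι : Type} (s : Finset ι) (x : ι → ℝ) (hx : ∀ k ∈ s, 0 ≤ x k) :
    1 + ∑ k ∈ s, x k ≤ ∏ k ∈ s, (1 + x k) := by
  classical
  induction s using Finset.induction_on with
  | empty => simp
  | insert i s hi ih =>
    rw [Finset.sum_insert hi, Finset.prod_insert hi]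
    have h1 := ih fun k hk => hx k (Finset.mem_insert_of_mem hk)
    have h2 := hx i (Finset.mem_insert_self i s)
    have h3 : 0 ≤ ∑ k ∈ s, x k := Finset.sum_nonneg fun k hk => hx k (Finset.mem_insert_of_mem hk)
    nlinarith

/-- `(1 - s)^x ≤ 1 - s x` for `0 ≤ x ≤ 1`, `0 ≤ s ≤ 1` -/
theorem rpow_le_lin {s x : ℝ} (hs0 : 0 ≤ s) (hs1 : s ≤ 1) (hx0 : 0 ≤ x) (hx1 : x ≤ 1) :
    (1 - s) ^ x ≤ 1 - s * x := by
  have := rpow_one_add_le_one_add_mul_self (s := -s) (by linarith) hx0 hx1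
  calc (1 - s) ^ x = (1 + -s) ^ x := by ring_nf
    _ ≤ 1 + x * -s := this
    _ = 1 - s * x := by ring

/-- helper5's product bound: with `C = ∑ (c - 1)⁺`, `D = ∑ (1 - c)⁺`,
`(1 + s C) (1 - s)^D ≤ ∏ (1 - s + s c)` -/
theorem prod_seg_ge {ι : Type} (I : Finset ι) (c : ι → ℝ) (hc : ∀ k ∈ I, 0 ≤ c k) {s : ℝ}
    (hs0 : 0 ≤ s) (hs1 : s < 1) :
    (1 + s * ∑ k ∈ I, max (c k - 1) 0) * (1 - s) ^ (∑ k ∈ I, max (1 - c k) 0) ≤
      ∏ k ∈ I, (1 - s + s * c k) := by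
  have e1 : ∀ k ∈ I, (1 + s * max (c k - 1) 0) * (1 - s) ^ (max (1 - c k) 0) ≤
      1 - s + s * c k := by
    intro k hk
    rcases le_total (c k) 1 with h | h
    · rw [max_eq_right (by linarith), max_eq_left (by linarith)]
      have := rpow_le_lin hs0 hs1.le (by linarith : 0 ≤ 1 - c k) (by linarith [hc k hk])
      linarith
    · rw [max_eq_left (by linarith), max_eq_right (by linarith), Real.rpow_zero]
      linarith
  have e2 : (1 - s) ^ (∑ k ∈ I, max (1 - c k) 0) = ∏ k ∈ I, (1 - s) ^ (max (1 - c k) 0) :=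
    Real.rpow_sum_of_pos (by linarith) _ _
  have e3 : 1 + s * ∑ k ∈ I, max (c k - 1) 0 ≤ ∏ k ∈ I, (1 + s * max (c k - 1) 0) := by
    rw [Finset.mul_sum]
    exact one_add_sum_le I _ fun k _ => mul_nonneg hs0 (le_max_right _ _)
  have hpos : 0 ≤ (1 - s) ^ (∑ k ∈ I, max (1 - c k) 0) := Real.rpow_nonneg (by linarith) _
  refine (mul_le_mul_of_nonneg_right e3 hpos).trans ?_
  rw [e2, ← Finset.prod_mul_distrib]
  refine Finset.prod_le_prod (fun k _ => ?_) e1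
  exact mul_nonneg (by nlinarith [mul_nonneg hs0 (le_max_right (c k - 1) 0)])
    (Real.rpow_nonneg (by linarith) _)

/-- `∫ (1 - s)^D = 1/(D + 1)` -/
theorem int_rpow {D : ℝ} (hD : 0 ≤ D) : ∫ s in (0:ℝ)..1, (1 - s) ^ D = 1 / (D + 1) := by
  have h := intervalIntegral.integral_comp_sub_left (fun x : ℝ => x ^ D) (a := 0) (b := 1) 1
  simp only [sub_self, sub_zero] at h
  rw [h, integral_rpow (Or.inl (by linarith))]
  rw [Real.one_rpow, Real.zero_rpow (by linarith)]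
  ring

theorem int_s_rpow {D : ℝ} (hD : 0 ≤ D) :
    ∫ s in (0:ℝ)..1, s * (1 - s) ^ D = 1 / ((D + 1) * (D + 2)) := by
  have e1 : ∀ s ∈ Set.uIcc (0:ℝ) 1, s * (1 - s) ^ D = (1 - s) ^ D - (1 - s) ^ (D + 1) := by
    intro s hs
    rw [Set.uIcc_of_le zero_le_one] at hs
    rcases eq_or_lt_of_le hs.2 with h | h
    · subst h
      rw [sub_self]
      rcases eq_or_lt_of_le hD with h0 | h0
      · rw [← h0]
        norm_num
      · rw [Real.zero_rpow h0.ne', Real.zero_rpow (by linarith)]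
        ring
    · rw [Real.rpow_add (by linarith), Real.rpow_one]
      ring
  rw [intervalIntegral.integral_congr e1, intervalIntegral.integral_sub, int_rpow hD,
    int_rpow (by linarith)]
  · field_simp
    ring
  · exact (Continuous.rpow_const (by fun_prop) fun _ => Or.inr hD).intervalIntegrable _ _
  · exact (Continuous.rpow_const (by fun_prop) fun _ => Or.inr (by linarith)).intervalIntegrable _ _

/-- `∫ ∏ (1 - s + s c) ≥ (C + D + 2)/((D + 1)(D + 2))` with `C = ∑ (c - 1)⁺`, `D = ∑ (1 - c)⁺` -/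
theorem int_prod_ge {ι : Type} (I : Finset ι) (c : ι → ℝ) (hc : ∀ k ∈ I, 0 ≤ c k) :
    ((∑ k ∈ I, max (c k - 1) 0) + (∑ k ∈ I, max (1 - c k) 0) + 2) /
      (((∑ k ∈ I, max (1 - c k) 0) + 1) * ((∑ k ∈ I, max (1 - c k) 0) + 2)) ≤
      ∫ s in (0:ℝ)..1, ∏ k ∈ I, (1 - s + s * c k) := by
  set C := ∑ k ∈ I, max (c k - 1) 0 with hC
  set D := ∑ k ∈ I, max (1 - c k) 0 with hD
  have hD0 : 0 ≤ D := Finset.sum_nonneg fun k _ => le_max_right _ _
  have i1 : IntervalIntegrable (fun s : ℝ => (1 - s) ^ D) MeasureTheory.volume 0 1 :=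
    (Continuous.rpow_const (by fun_prop) fun _ => Or.inr hD0).intervalIntegrable _ _
  have i2 : IntervalIntegrable (fun s : ℝ => C * (s * (1 - s) ^ D)) MeasureTheory.volume 0 1 :=
    (Continuous.mul continuous_const (continuous_id.mul
      (Continuous.rpow_const (by fun_prop) fun _ => Or.inr hD0))).intervalIntegrable _ _
  have e : ∫ s in (0:ℝ)..1, ((1 - s) ^ D + C * (s * (1 - s) ^ D)) =
      (C + D + 2) / ((D + 1) * (D + 2)) := by
    rw [intervalIntegral.integral_add i1 i2, intervalIntegral.integral_const_mul, int_rpow hD0,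
      int_s_rpow hD0]
    field_simp
    ring
  rw [← e]
  refine intervalIntegral.integral_mono_on_of_le_Ioo zero_le_one (i1.add i2) ?_ ?_
  · exact (Continuous.intervalIntegrable (by fun_prop) _ _)
  · intro s hs
    have := prod_seg_ge I c hc hs.1.le hs.2
    refine le_trans (le_of_eq ?_) this
    ring

end Pool.Agent.Lib.MP_172a45_an.F
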