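import Pool.Agent.Lib.MP_172a45_an.F.Facts

set_option autoImplicit false

/-!
# The degrees `n ≤ 5`: (Rw') and the arithmetic-geometric mean inequality
-/

namespace Pool.Agent.Lib.MP_172a45_an.F

open Finset

/-- AM-GM -/
theorem prod_le_pow_mean {N : ℕ} (hN : 1 ≤ N) (f : Fin N → ℝ) (hf : ∀ k, 0 ≤ f k) :
    ∏ k, f k ≤ ((∑ k, f k) / N) ^ N := by
  have hN0 : (0 : ℝ) < N := by exact_mod_cast hN
  have h := Real.geom_mean_le_arith_mean_weighted (univ : Finset (Fin N))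
    (fun _ => (N : ℝ)⁻¹) f (fun _ _ => by positivity) (by simp; field_simp) (fun k _ => hf k)
  have h2 : ∏ k, f k ^ (N : ℝ)⁻¹ = (∏ k, f k) ^ (N : ℝ)⁻¹ :=
    Real.finsetProd_rpow _ _ (fun k _ => hf k) _
  rw [h2, ← Finset.mul_sum] at h
  have h3 : 0 ≤ ∏ k, f k := Finset.prod_nonneg fun k _ => hf k
  have h4 := pow_le_pow_left₀ (Real.rpow_nonneg h3 _) h N
  rw [Real.rpow_inv_natCast_pow h3 (by omega)] at h4
  refine h4.trans (le_of_eq ?_)
  congr 1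
  field_simp

theorem Fr.no_small {N : ℕ} {a : ℝ} {ζ z : Fin N → ℂ} (h : Fr N a ζ z) (hN : 1 ≤ N) :
    1 + (1 - a ^ 2) * (N * (1 - a / 2)) ≤ (1 + a * (1 - a)) ^ N := by
  have ha0 := h.a0
  have ha1 := h.a1
  have hN0 : (0 : ℝ) < N := by exact_mod_cast hN
  have hm : 0 < 1 - a ^ 2 := by nlinarith
  have h1 := h.Rw'
  have h2 : ∀ k, ‖(a : ℂ) + (1 - (a : ℂ) ^ 2) * Fr.u a ζ k‖ ≤ a + (1 - a ^ 2) * ‖Fr.u a ζ k‖ := by
    intro k
    refine (norm_add_le _ _).trans ?_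
    rw [norm_mul, Complex.norm_real, Real.norm_of_nonneg ha0.le]
    have : (1 : ℂ) - (a : ℂ) ^ 2 = ((1 - a ^ 2 : ℝ) : ℂ) := by push_cast; ring
    rw [this, Complex.norm_real, Real.norm_of_nonneg hm.le]
  have h3 : (∑ k, Fr.u a ζ k).re ≤ N := by
    refine (Complex.re_le_norm _).trans ?_
    refine (norm_sum_le _ _).trans (le_of_eq ?_)
    exact h.mean
  have h4 : ∏ k, ‖(a : ℂ) + (1 - (a : ℂ) ^ 2) * Fr.u a ζ k‖ ≤ (1 + a * (1 - a)) ^ N := by
    refine (Finset.prod_le_prod (fun _ _ => norm_nonneg _) fun k _ => h2 k).trans ?_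
    refine (prod_le_pow_mean hN _ fun k => by positivity).trans (le_of_eq ?_)
    rw [Finset.sum_add_distrib, ← Finset.mul_sum, h.mean]
    simp only [Finset.sum_const, Finset.card_univ, Fintype.card_fin, nsmul_eq_mul]
    congr 1
    field_simp
    ring
  refine le_trans ?_ (h1.trans h4)
  have : (N : ℝ) * (1 - a / 2) ≤ N - a / 2 * (∑ k, Fr.u a ζ k).re := by nlinarith
  nlinarith

theorem Fr.five_le {N : ℕ} {a : ℝ} {ζ z : Fin N → ℂ} (h : Fr N a ζ z) (hN : 1 ≤ N) : 5 ≤ N := by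
  have ha0 := h.a0
  have ha1 := h.a1
  have h1 := h.no_small hN
  by_contra hcon
  push Not at hcon
  have hb : 0 < 1 - a := by linarith
  interval_cases N
  · have e : 1 + (1 - a ^ 2) * (((1 : ℕ) : ℝ) * (1 - a / 2)) - (1 + a * (1 - a)) ^ 1 =
      (1 - a) ^ 2 * (1 + a / 2) := by
      push_cast; ring
    have : 0 < (1 - a) ^ 2 * (1 + a / 2) := by positivity
    linarith
  · norm_num at h1
    nlinarith [mul_pos ha0 hb, mul_pos (mul_pos ha0 hb) hb]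
  · have e : 1 + (1 - a ^ 2) * (((3 : ℕ) : ℝ) * (1 - a / 2)) - (1 + a * (1 - a)) ^ 3 =
      (1 - a) ^ 2 * (3 * (1 - a ^ 2) + (a / 2 + a * (1 - a ^ 2)) + a ^ 4) := by
      push_cast; ring
    have h2 : 0 < 1 - a ^ 2 := by nlinarith
    have : 0 < (1 - a) ^ 2 * (3 * (1 - a ^ 2) + (a / 2 + a * (1 - a ^ 2)) + a ^ 4) := by positivity
    linarith
  · have e : 1 + (1 - a ^ 2) * (((4 : ℕ) : ℝ) * (1 - a / 2)) - (1 + a * (1 - a)) ^ 4 =
      (1 - a) ^ 3 * (4 + a + 4 * a * (1 - a ^ 2) + a * (1 - a ^ 3) + a ^ 5) := by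
      push_cast; ring
    have h2 : 0 < 1 - a ^ 2 := by nlinarith
    have h3 : 0 < 1 - a ^ 3 := by nlinarith [mul_pos ha0 h2]
    have : 0 < (1 - a) ^ 3 * (4 + a + 4 * a * (1 - a ^ 2) + a * (1 - a ^ 3) + a ^ 5) := by
      positivity
    linarith

end Pool.Agent.Lib.MP_172a45_an.F
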