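import Pool.Agent.Lib.MP_172a45_an.F.LPP

set_option autoImplicit false

/-!
# The `t`-comparison with phase cost (helper48's criterion TC)
-/

namespace Pool.Agent.Lib.MP_172a45_an.F

open Finset Real

variable {N : ℕ}

/-- the comparison identity in pair form: if `∑ t = N` then
`1 = ∏ t + 1/(2N) ∫ s ∑∑ (t k - t j)² ∏_{l ≠ k, j} (1 - s + s t l)` -/
theorem comp_pair (hN : 0 < N) (t : Fin N → ℝ) (ht : ∑ k, t k = N) :
    (1 : ℝ) = ∏ k, t k + 1 / (2 * N) *
      ∫ s in (0:ℝ)..1, s * ∑ k, ∑ j, (t k - t j) ^ 2 *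
        ∏ l ∈ (univ.erase k).erase j, (1 - s + s * t l) := by
  have h := XX_ident (fun k => (((1 - t k : ℝ)) : ℂ)) hN 0 (by
    rw [mul_zero, ← Complex.ofReal_sum, Finset.sum_sub_distrib, ht]
    simp)
  have e2 : ∀ s : ℝ, (s : ℂ) * ∑ k, ∑ j, (((1 - t k : ℝ) : ℂ) - ((1 - t j : ℝ) : ℂ)) ^ 2 *
      q2 (fun k => (((1 - t k : ℝ)) : ℂ)) k j s =
      ((s * ∑ k, ∑ j, (t k - t j) ^ 2 *
        ∏ l ∈ (univ.erase k).erase j, (1 - s + s * t l) : ℝ) : ℂ) := fun s => by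
    unfold q2
    push_cast
    congr 1
    refine Finset.sum_congr rfl fun k _ => Finset.sum_congr rfl fun j _ => ?_
    congr 1
    · ring
    · refine Finset.prod_congr rfl fun l _ => by ring
  simp only [e2] at h
  rw [intervalIntegral.integral_ofReal] at h
  have e3 : qq (fun k => (((1 - t k : ℝ)) : ℂ)) 1 = ((∏ k, t k : ℝ) : ℂ) := by
    unfold qq; push_cast
    exact Finset.prod_congr rfl fun k _ => by ring
  rw [e3] at h
  have h' : (1 : ℂ) = (((∏ k, t k) + 1 / (2 * N) *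
      ∫ s in (0:ℝ)..1, s * ∑ k, ∑ j, (t k - t j) ^ 2 *
        ∏ l ∈ (univ.erase k).erase j, (1 - s + s * t l) : ℝ) : ℂ) := by
    rw [h]
    push_cast
    ring
  exact_mod_cast h'

/-- the phase weight of a pair -/
noncomputable def WW (u v : ℂ) : ℝ := 2 * (‖u‖ * ‖v‖ - (u.re * v.re + u.im * v.im))

theorem WW_nonneg (u v : ℂ) : 0 ≤ WW u v := by
  unfold WW
  have h1 : (u.re * v.re + u.im * v.im) ^ 2 ≤ (‖u‖ * ‖v‖) ^ 2 := by
    have h2 : ‖u‖ ^ 2 = u.re * u.re + u.im * u.im := by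
      rw [← Complex.normSq_eq_norm_sq, Complex.normSq_apply]
    have h3 : ‖v‖ ^ 2 = v.re * v.re + v.im * v.im := by
      rw [← Complex.normSq_eq_norm_sq, Complex.normSq_apply]
    rw [mul_pow, h2, h3]
    nlinarith [sq_nonneg (u.re * v.im - u.im * v.re)]
  have h4 := le_trans (le_abs_self _)
    (abs_le_of_sq_le_sq h1 (mul_nonneg (norm_nonneg u) (norm_nonneg v)))
  linarith

theorem WW_self (u : ℂ) : WW u u = 0 := by
  unfold WW
  have h2 : ‖u‖ * ‖u‖ = u.re * u.re + u.im * u.im := by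
    rw [← sq, ← Complex.normSq_eq_norm_sq, Complex.normSq_apply]
  rw [h2]; ring

theorem norm_sub_sq_eq (u v : ℂ) : ‖u - v‖ ^ 2 = (‖u‖ - ‖v‖) ^ 2 + WW u v := by
  unfold WW
  have h1 : ‖u - v‖ ^ 2 = (u.re - v.re) * (u.re - v.re) + (u.im - v.im) * (u.im - v.im) := by
    rw [← Complex.normSq_eq_norm_sq, Complex.normSq_apply, Complex.sub_re, Complex.sub_im]
  have h2 : ‖u‖ ^ 2 = u.re * u.re + u.im * u.im := by
    rw [← Complex.normSq_eq_norm_sq, Complex.normSq_apply]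
  have h3 : ‖v‖ ^ 2 = v.re * v.re + v.im * v.im := by
    rw [← Complex.normSq_eq_norm_sq, Complex.normSq_apply]
  rw [h1]
  nlinarith

/-- the one-body bound of the pair sum: for positive `M` -/
theorem sum_WW_le (u : Fin N → ℂ) (M : Fin N → ℝ) (_hM : ∀ k, 0 < M k) :
    ∑ k, ∑ j, WW (u k) (u j) / (M k * M j) ≤
      2 * ((∑ k, (‖u k‖ - (u k).re) / M k) * ∑ k, (‖u k‖ + (u k).re) / M k) := by
  have e : ∑ k, ∑ j, WW (u k) (u j) / (M k * M j) =
      2 * ((∑ k, ‖u k‖ / M k) ^ 2 - (∑ k, (u k).re / M k) ^ 2 - (∑ k, (u k).im / M k) ^ 2) := by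
    rw [sq, sq, sq, Finset.sum_mul_sum, Finset.sum_mul_sum, Finset.sum_mul_sum,
      ← Finset.sum_sub_distrib, ← Finset.sum_sub_distrib, Finset.mul_sum]
    refine Finset.sum_congr rfl fun k _ => ?_
    rw [← Finset.sum_sub_distrib, ← Finset.sum_sub_distrib, Finset.mul_sum]
    refine Finset.sum_congr rfl fun j _ => ?_
    unfold WW
    rw [div_mul_div_comm, div_mul_div_comm, div_mul_div_comm]
    ring
  rw [e]
  have e1 : ∑ k, (‖u k‖ - (u k).re) / M k = ∑ k, ‖u k‖ / M k - ∑ k, (u k).re / M k := by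
    rw [← Finset.sum_sub_distrib]
    exact Finset.sum_congr rfl fun k _ => by ring
  have e2 : ∑ k, (‖u k‖ + (u k).re) / M k = ∑ k, ‖u k‖ / M k + ∑ k, (u k).re / M k := by
    rw [← Finset.sum_add_distrib]
    exact Finset.sum_congr rfl fun k _ => by ring
  rw [e1, e2]
  nlinarith [sq_nonneg (∑ k, (u k).im / M k)]

/-- the imaginary part of a product -/
theorem abs_im_prod_le (v : Fin N → ℂ) (S : Finset (Fin N)) :
    |(∏ k ∈ S, v k).im| ≤ ∑ k ∈ S, |(v k).im| * ∏ l ∈ S.erase k, ‖v l‖ := by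
  classical
  induction S using Finset.induction_on with
  | empty => simp
  | insert i S hi ih =>
    rw [Finset.prod_insert hi, Finset.sum_insert hi, Finset.erase_insert hi, Complex.mul_im]
    have h1 : ∑ k ∈ S, |(v k).im| * ∏ l ∈ (insert i S).erase k, ‖v l‖ =
        ‖v i‖ * ∑ k ∈ S, |(v k).im| * ∏ l ∈ S.erase k, ‖v l‖ := by
      rw [Finset.mul_sum]
      refine Finset.sum_congr rfl fun k hk => ?_
      have hik : k ≠ i := fun h => hi (h ▸ hk)
      rw [Finset.erase_insert_of_ne hik.symm, Finset.prod_insert (by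
        intro h; exact hi (Finset.mem_of_mem_erase h))]
      ring
    rw [h1]
    have h2 : |(v i).re * (∏ k ∈ S, v k).im + (v i).im * (∏ k ∈ S, v k).re| ≤
        |(v i).re| * |(∏ k ∈ S, v k).im| + |(v i).im| * |(∏ k ∈ S, v k).re| := by
      refine (abs_add_le _ _).trans (le_of_eq ?_)
      rw [abs_mul, abs_mul]
    have h3 : |(v i).re| * |(∏ k ∈ S, v k).im| ≤
        ‖v i‖ * ∑ k ∈ S, |(v k).im| * ∏ l ∈ S.erase k, ‖v l‖ :=
      mul_le_mul (Complex.abs_re_le_norm _) ih (abs_nonneg _) (norm_nonneg _)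
    have h4 : |(v i).im| * |(∏ k ∈ S, v k).re| ≤ |(v i).im| * ∏ l ∈ S, ‖v l‖ := by
      refine mul_le_mul_of_nonneg_left ?_ (abs_nonneg _)
      refine (Complex.abs_re_le_norm _).trans (le_of_eq ?_)
      rw [norm_prod]
    linarith

namespace Fr

variable {a : ℝ} {ζ z : Fin N → ℂ}

/-- criterion (XX) with the real part of the first term -/
theorem critXre (h : Fr N a ζ z) (hN : 0 < N) :
    1 ≤ ((1 - (a : ℂ) * ((∑ k, u a ζ k) / N)) * ∏ k, (1 - (a : ℂ) * u a ζ k)).re +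
      a ^ 2 / (2 * N) * XI a (u a ζ) + a * (‖∑ k, u a ζ k‖ / N) * ∏ k, ‖u a ζ k‖ := by
  have ha := h.a0
  have hN0 : (0 : ℝ) < N := by exact_mod_cast hN
  have hNc : (N : ℂ) ≠ 0 := by exact_mod_cast hN.ne'
  have h1 := XX_ident (fun k => (a : ℂ) * u a ζ k) hN ((a : ℂ) * ((∑ k, u a ζ k) / N)) (by
    rw [← Finset.mul_sum]; field_simp)
  have h2 : ‖((N : ℂ) + 1) * ((a : ℂ) * ((∑ k, u a ζ k) / N)) *
      (∫ s in (0:ℝ)..1, qq (fun k => (a : ℂ) * u a ζ k) s)‖ ≤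
      a * (‖∑ k, u a ζ k‖ / N) * ∏ k, ‖u a ζ k‖ := by
    have h3 := h.norm_A
    have h4 : ‖(N : ℂ) + 1‖ = (N : ℝ) + 1 := by
      have : (N : ℂ) + 1 = ((N + 1 : ℕ) : ℂ) := by push_cast; ring
      rw [this, Complex.norm_natCast]
      push_cast; ring
    rw [norm_mul, norm_mul, norm_mul, norm_div, Complex.norm_real, Real.norm_of_nonneg ha.le, h4,
      Complex.norm_natCast]
    calc ((N : ℝ) + 1) * (a * (‖∑ k, u a ζ k‖ / N)) *
          ‖∫ s in (0:ℝ)..1, qq (fun k => (a : ℂ) * u a ζ k) s‖ =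
        a * (‖∑ k, u a ζ k‖ / N) * (((N : ℝ) + 1) *
          ‖∫ s in (0:ℝ)..1, qq (fun k => (a : ℂ) * u a ζ k) s‖) := by ring
      _ ≤ _ := mul_le_mul_of_nonneg_left h3 (by positivity)
  have h3 : ‖(1 / (2 * (N : ℂ))) * ∫ s in (0:ℝ)..1, (s : ℂ) * ∑ k, ∑ j,
      ((a : ℂ) * u a ζ k - (a : ℂ) * u a ζ j) ^ 2 * q2 (fun k => (a : ℂ) * u a ζ k) k j s‖ ≤
      a ^ 2 / (2 * N) * XI a (u a ζ) := by
    have h4 : ‖∫ s in (0:ℝ)..1, (s : ℂ) * ∑ k, ∑ j,
        ((a : ℂ) * u a ζ k - (a : ℂ) * u a ζ j) ^ 2 * q2 (fun k => (a : ℂ) * u a ζ k) k j s‖ ≤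
        ∫ s in (0:ℝ)..1, a ^ 2 * (s * ∑ k, ∑ j, ‖u a ζ k - u a ζ j‖ ^ 2 *
          ∏ l ∈ (univ.erase k).erase j, ‖1 - (s : ℂ) * a * u a ζ l‖) := by
      refine norm_int_le (by fun_prop) fun s hs => ?_
      rw [norm_mul, Complex.norm_real, Real.norm_of_nonneg hs.1]
      have e : a ^ 2 * (s * ∑ k, ∑ j, ‖u a ζ k - u a ζ j‖ ^ 2 *
          ∏ l ∈ (univ.erase k).erase j, ‖1 - (s : ℂ) * a * u a ζ l‖) =
          s * ∑ k, ∑ j, (a ^ 2 * ‖u a ζ k - u a ζ j‖ ^ 2) *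
          ∏ l ∈ (univ.erase k).erase j, ‖1 - (s : ℂ) * a * u a ζ l‖ := by
        have e' : ∀ k j, (a ^ 2 * ‖u a ζ k - u a ζ j‖ ^ 2) *
            ∏ l ∈ (univ.erase k).erase j, ‖1 - (s : ℂ) * a * u a ζ l‖ =
            a ^ 2 * (‖u a ζ k - u a ζ j‖ ^ 2 *
            ∏ l ∈ (univ.erase k).erase j, ‖1 - (s : ℂ) * a * u a ζ l‖) := fun k j => by ring
        simp only [e', ← Finset.mul_sum]
        ring
      rw [e]
      refine mul_le_mul_of_nonneg_left ?_ hs.1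
      refine (norm_sum_le _ _).trans (Finset.sum_le_sum fun k _ => ?_)
      refine (norm_sum_le _ _).trans (le_of_eq ?_)
      refine Finset.sum_congr rfl fun j _ => ?_
      rw [norm_mul, norm_pow, ← mul_sub, norm_mul, Complex.norm_real, Real.norm_of_nonneg ha.le,
        mul_pow]
      unfold q2
      rw [norm_prod]
      congr 1
      exact Finset.prod_congr rfl fun l _ => by rw [mul_assoc]
    rw [intervalIntegral.integral_const_mul] at h4
    rw [norm_mul, norm_div, norm_one, norm_mul, Complex.norm_natCast]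
    have h5 : ‖(2 : ℂ)‖ = 2 := by simp
    rw [h5]
    have h6 : (0 : ℝ) ≤ 1 / (2 * N) := by positivity
    have h7 := mul_le_mul_of_nonneg_left h4 h6
    refine h7.trans (le_of_eq ?_)
    unfold XI
    ring
  have h4 := congrArg Complex.re h1
  rw [Complex.one_re, Complex.add_re, Complex.add_re] at h4
  have e6 : qq (fun k => (a : ℂ) * u a ζ k) 1 = ∏ k, (1 - (a : ℂ) * u a ζ k) := by
    unfold qq
    exact Finset.prod_congr rfl fun k _ => by rw [one_mul]
  rw [e6] at h4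
  have h5 := Complex.re_le_norm (((N : ℂ) + 1) * ((a : ℂ) * ((∑ k, u a ζ k) / N)) *
      (∫ s in (0:ℝ)..1, qq (fun k => (a : ℂ) * u a ζ k) s))
  have h6 := Complex.re_le_norm ((1 / (2 * (N : ℂ))) * ∫ s in (0:ℝ)..1, (s : ℂ) * ∑ k, ∑ j,
      ((a : ℂ) * u a ζ k - (a : ℂ) * u a ζ j) ^ 2 * q2 (fun k => (a : ℂ) * u a ζ k) k j s)
  linarith

/-- the phase cost -/
noncomputable def PC {N : ℕ} (a : ℝ) (u : Fin N → ℂ) : ℝ :=
  a ^ 2 / (2 * N) * ∫ s in (0:ℝ)..1, s * ∑ k, ∑ j, WW (u k) (u j) *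
    ∏ l ∈ (univ.erase k).erase j, ‖1 - (s : ℂ) * a * u l‖

/-- the comparison of the pair sum -/
theorem XI_le (h : Fr N a ζ z) (hN : 0 < N) : a ^ 2 / (2 * N) * XI a (u a ζ) ≤
    a ^ 2 * (1 - ∏ k, ‖u a ζ k‖) + PC a (u a ζ) := by
  have ha := h.a0
  have hN0 : (0 : ℝ) < N := by exact_mod_cast hN
  have h2 := comp_pair hN (fun k => ‖u a ζ k‖) h.mean
  have hf : ∀ s ∈ Set.Icc (0:ℝ) 1, ∀ l, ‖1 - (s : ℂ) * a * u a ζ l‖ ≤ 1 - s + s * ‖u a ζ l‖ := by
    intro s hs l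
    have e : (1 : ℂ) - (s : ℂ) * a * u a ζ l = ((1 - s : ℝ) : ℂ) + (s : ℂ) * (1 - a * u a ζ l) := by
      push_cast; ring
    rw [e]
    refine (norm_add_le _ _).trans ?_
    rw [Complex.norm_real, norm_mul, Complex.norm_real, Real.norm_of_nonneg hs.1,
      Real.norm_of_nonneg (by linarith [hs.2])]
    have := mul_le_mul_of_nonneg_left (h.gl l) hs.1
    linarith
  have c1 : Continuous fun s : ℝ => s * ∑ k, ∑ j, (‖u a ζ k‖ - ‖u a ζ j‖) ^ 2 *
      ∏ l ∈ (univ.erase k).erase j, (1 - s + s * ‖u a ζ l‖) := by fun_prop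
  have c2 : Continuous fun s : ℝ => s * ∑ k, ∑ j, WW (u a ζ k) (u a ζ j) *
      ∏ l ∈ (univ.erase k).erase j, ‖1 - (s : ℂ) * a * u a ζ l‖ := by fun_prop
  have c3 : Continuous fun s : ℝ => s * ∑ k, ∑ j, ‖u a ζ k - u a ζ j‖ ^ 2 *
      ∏ l ∈ (univ.erase k).erase j, ‖1 - (s : ℂ) * a * u a ζ l‖ := by fun_prop
  have h3 : XI a (u a ζ) ≤ (∫ s in (0:ℝ)..1, s * ∑ k, ∑ j, (‖u a ζ k‖ - ‖u a ζ j‖) ^ 2 *
      ∏ l ∈ (univ.erase k).erase j, (1 - s + s * ‖u a ζ l‖)) +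
      ∫ s in (0:ℝ)..1, s * ∑ k, ∑ j, WW (u a ζ k) (u a ζ j) *
      ∏ l ∈ (univ.erase k).erase j, ‖1 - (s : ℂ) * a * u a ζ l‖ := by
    unfold XI
    rw [← intervalIntegral.integral_add (c1.intervalIntegrable _ _) (c2.intervalIntegrable _ _)]
    refine intervalIntegral.integral_mono_on (μ := MeasureTheory.volume) (by norm_num)
      (c3.intervalIntegrable 0 1) ((c1.add c2).intervalIntegrable 0 1) fun s hs => ?_
    rw [← mul_add, ← Finset.sum_add_distrib]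
    refine mul_le_mul_of_nonneg_left (Finset.sum_le_sum fun k _ => ?_) hs.1
    rw [← Finset.sum_add_distrib]
    refine Finset.sum_le_sum fun j _ => ?_
    rw [norm_sub_sq_eq, add_mul]
    refine add_le_add (mul_le_mul_of_nonneg_left ?_ (sq_nonneg _)) le_rfl
    exact Finset.prod_le_prod (fun l _ => norm_nonneg _) fun l _ => hf s hs l
  have h4 := mul_le_mul_of_nonneg_left h3 (by positivity : 0 ≤ a ^ 2 / (2 * (N : ℝ)))
  have e5 : a ^ 2 / (2 * (N : ℝ)) * ((∫ s in (0:ℝ)..1, s * ∑ k, ∑ j,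
      (‖u a ζ k‖ - ‖u a ζ j‖) ^ 2 * ∏ l ∈ (univ.erase k).erase j, (1 - s + s * ‖u a ζ l‖)) +
      ∫ s in (0:ℝ)..1, s * ∑ k, ∑ j, WW (u a ζ k) (u a ζ j) *
      ∏ l ∈ (univ.erase k).erase j, ‖1 - (s : ℂ) * a * u a ζ l‖) =
      a ^ 2 * (1 - ∏ k, ‖u a ζ k‖) + PC a (u a ζ) := by
    unfold PC
    linear_combination (-a ^ 2) * h2
  rwa [e5] at h4

/-- helper48's criterion (TC) -/
theorem tc (h : Fr N a ζ z) (hN : 0 < N) :
    1 ≤ ‖1 - (a : ℂ) * ((∑ k, u a ζ k) / N)‖ * ∏ k, ‖1 - (a : ℂ) * u a ζ k‖ +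
      a ^ 2 * (1 - ∏ k, ‖u a ζ k‖) + PC a (u a ζ) +
      a * (‖∑ k, u a ζ k‖ / N) * ∏ k, ‖u a ζ k‖ := by
  have h1 := h.critX hN
  have h2 := h.XI_le hN
  linarith

/-- (TC) with the real part of the first term -/
theorem tcRe (h : Fr N a ζ z) (hN : 0 < N) :
    1 ≤ ((1 - (a : ℂ) * ((∑ k, u a ζ k) / N)) * ∏ k, (1 - (a : ℂ) * u a ζ k)).re +
      a ^ 2 * (1 - ∏ k, ‖u a ζ k‖) + PC a (u a ζ) +
      a * (‖∑ k, u a ζ k‖ / N) * ∏ k, ‖u a ζ k‖ := by
  have h1 := h.critXre hN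
  have h2 := h.XI_le hN
  linarith

end Fr

/-- `|Im (1 - a u)|` in helper13's coordinates -/
noncomputable def Iy (a y X : ℝ) : ℝ := a / (1 + a) * √(X * (2 * (1 + y) - X))

theorem Iy_nonneg {a : ℝ} (ha : 0 ≤ a) (y X : ℝ) : 0 ≤ Iy a y X := by
  unfold Iy; positivity

theorem Iy_eq {a : ℝ} (ha : 0 < a) (ζ : Fin N → ℂ) (k : Fin N) :
    Iy a (Fr.yy a ζ k) (Fr.xx a ζ k) = a * |(Fr.u a ζ k).im| := by
  have hap : (0 : ℝ) < 1 + a := by linarith
  have h2 : ‖Fr.u a ζ k‖ ^ 2 = (Fr.u a ζ k).re * (Fr.u a ζ k).re +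
      (Fr.u a ζ k).im * (Fr.u a ζ k).im := by
    rw [← Complex.normSq_eq_norm_sq, Complex.normSq_apply]
  have e : Fr.xx a ζ k * (2 * (1 + Fr.yy a ζ k) - Fr.xx a ζ k) =
      ((1 + a) * |(Fr.u a ζ k).im|) ^ 2 := by
    rw [mul_pow, sq_abs]
    unfold Fr.xx Fr.yy
    have : (1 + a) ^ 2 * (‖Fr.u a ζ k‖ ^ 2 - (Fr.u a ζ k).re ^ 2) =
        (1 + a) ^ 2 * (Fr.u a ζ k).im ^ 2 := by rw [h2]; ring
    nlinarith
  unfold Iy
  rw [e, Real.sqrt_sq (by positivity)]
  field_simp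

/-- the data of a normalised counterexample in helper13's coordinates, with (TC) -/
structure FT (N : ℕ) (a Δ : ℝ) (y X : Fin N → ℝ) : Prop extends FV N a Δ y X where
  tc : ∃ (G : ℝ → ℝ) (F1 V r : ℝ), Continuous G ∧ (∀ τ, 0 ≤ G τ) ∧
    (∀ τ : ℝ, ∀ M : Fin N → ℝ, (∀ k, 0 < M k) → (∀ k, AA (y k) (X k) τ ≤ M k) →
      G τ ≤ (∑ k, X k / M k) * (∑ k, (2 * (1 + y k) - X k) / M k) * ∏ k, M k) ∧
    0 ≤ V ∧ V ≤ 1 ∧ N * V ≤ ∑ k, AA (y k) (X k) (a / (1 + a)) ∧ 0 ≤ r ∧ r ≤ 1 ∧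
    F1 ≤ V * ∏ l, AA (y l) (X l) (a / (1 + a)) ∧
    F1 ≤ (1 - a + a / (1 + a) * ((∑ k, X k) / N)) * ∏ l, AA (y l) (X l) (a / (1 + a)) +
      1 / N * (∑ k, Iy a (y k) (X k)) *
        ∑ k, Iy a (y k) (X k) * ∏ l ∈ univ.erase k, AA (y l) (X l) (a / (1 + a)) ∧
    1 ≤ F1 + a ^ 2 * (1 - Real.exp (-Δ)) +
      1 / N * (∫ τ in (0:ℝ)..(a / (1 + a)), τ * G τ) + a * r * Real.exp (-Δ)

theorem Fr.toFT {a : ℝ} {ζ z : Fin N → ℂ} (h : Fr N a ζ z) (hN : 0 < N) :
    FT N a (Fr.Del a ζ) (Fr.yy a ζ) (Fr.xx a ζ) where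
  toFV := h.toFV
  tc := by
    have ha0 := h.a0
    have ha1 := h.a1
    have hap : (0 : ℝ) < 1 + a := by linarith
    have hN0 : (0 : ℝ) < N := by exact_mod_cast hN
    set G : ℝ → ℝ := fun τ => (1 + a) ^ 2 / 2 * ∑ k, ∑ j, WW (Fr.u a ζ k) (Fr.u a ζ j) *
      ∏ l ∈ (univ.erase k).erase j, AA (Fr.yy a ζ l) (Fr.xx a ζ l) τ with hG
    have hGc : Continuous G := by
      rw [hG]; unfold AA; fun_prop
    have hG0 : ∀ τ, 0 ≤ G τ := fun τ => by
      rw [hG]
      refine mul_nonneg (by positivity) (Finset.sum_nonneg fun k _ => Finset.sum_nonneg fun j _ =>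
        mul_nonneg (WW_nonneg _ _) (Finset.prod_nonneg fun l _ => Real.sqrt_nonneg _))
    have e2 : ∀ k, ‖1 - (a : ℂ) * Fr.u a ζ k‖ =
        AA (Fr.yy a ζ k) (Fr.xx a ζ k) (a / (1 + a)) := by
      intro k
      rw [← Fr.norm_one_sub a ha0 ζ k]
      have : a / (1 + a) * (1 + a) / a = 1 := by field_simp
      rw [this]
      simp
    have e2p : ∏ k, ‖1 - (a : ℂ) * Fr.u a ζ k‖ =
        ∏ l, AA (Fr.yy a ζ l) (Fr.xx a ζ l) (a / (1 + a)) :=
      Finset.prod_congr rfl fun k _ => e2 k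
    refine ⟨G, ((1 - (a : ℂ) * ((∑ k, Fr.u a ζ k) / N)) * ∏ k, (1 - (a : ℂ) * Fr.u a ζ k)).re,
      ‖1 - (a : ℂ) * ((∑ k, Fr.u a ζ k) / N)‖, ‖∑ k, Fr.u a ζ k‖ / N, hGc, hG0,
      ?_, norm_nonneg _, ?_, ?_, by positivity, ?_, ?_, ?_, ?_⟩
    · -- the one-body bound
      intro τ M hM hAM
      have h1 : G τ ≤ (1 + a) ^ 2 / 2 * ((∑ k, ∑ j, WW (Fr.u a ζ k) (Fr.u a ζ j) / (M k * M j)) *
          ∏ k, M k) := by
        rw [hG]
        refine mul_le_mul_of_nonneg_left ?_ (by positivity)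
        rw [Finset.sum_mul]
        refine Finset.sum_le_sum fun k _ => ?_
        rw [Finset.sum_mul]
        refine Finset.sum_le_sum fun j _ => ?_
        rcases eq_or_ne k j with rfl | hkj
        · rw [WW_self, zero_mul, zero_div, zero_mul]
        · have h2 : ∏ l ∈ (univ.erase k).erase j, AA (Fr.yy a ζ l) (Fr.xx a ζ l) τ ≤
              ∏ l ∈ (univ.erase k).erase j, M l :=
            Finset.prod_le_prod (fun l _ => Real.sqrt_nonneg _) fun l _ => hAM l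
          have h3 : ∏ k, M k = M k * (M j * ∏ l ∈ (univ.erase k).erase j, M l) := by
            rw [Finset.mul_prod_erase (univ.erase k) _
              (Finset.mem_erase.2 ⟨hkj.symm, Finset.mem_univ j⟩),
              Finset.mul_prod_erase univ _ (Finset.mem_univ k)]
          have h4 : WW (Fr.u a ζ k) (Fr.u a ζ j) / (M k * M j) * ∏ k, M k =
              WW (Fr.u a ζ k) (Fr.u a ζ j) * ∏ l ∈ (univ.erase k).erase j, M l := by
            rw [h3]
            have := (hM k).ne'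
            have := (hM j).ne'
            field_simp
          rw [h4]
          exact mul_le_mul_of_nonneg_left h2 (WW_nonneg _ _)
      refine h1.trans ?_
      have h5 := sum_WW_le (Fr.u a ζ) M hM
      have hPM : 0 ≤ ∏ k, M k := Finset.prod_nonneg fun k _ => (hM k).le
      have h6 := mul_le_mul_of_nonneg_left (mul_le_mul_of_nonneg_right h5 hPM)
        (by positivity : 0 ≤ (1 + a) ^ 2 / 2)
      refine h6.trans (le_of_eq ?_)
      have e1 : ∑ k, Fr.xx a ζ k / M k = (1 + a) *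
          ∑ k, (‖Fr.u a ζ k‖ - (Fr.u a ζ k).re) / M k := by
        rw [Finset.mul_sum]
        exact Finset.sum_congr rfl fun k _ => by unfold Fr.xx; ring
      have e2 : ∑ k, (2 * (1 + Fr.yy a ζ k) - Fr.xx a ζ k) / M k = (1 + a) *
          ∑ k, (‖Fr.u a ζ k‖ + (Fr.u a ζ k).re) / M k := by
        rw [Finset.mul_sum]
        exact Finset.sum_congr rfl fun k _ => by unfold Fr.xx Fr.yy; ring
      rw [e1, e2]
      ring
    · -- `V ≤ 1`
      have e : (1 : ℂ) - (a : ℂ) * ((∑ k, Fr.u a ζ k) / N) =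
          (∑ k, (1 - (a : ℂ) * Fr.u a ζ k)) / N := by
        rw [Finset.sum_sub_distrib, ← Finset.mul_sum]
        simp only [Finset.sum_const, Finset.card_univ, Fintype.card_fin, nsmul_eq_mul, mul_one]
        have : (N : ℂ) ≠ 0 := by exact_mod_cast hN.ne'
        field_simp
      rw [e, norm_div, Complex.norm_natCast, div_le_one hN0]
      refine (norm_sum_le _ _).trans ((Finset.sum_le_sum fun k _ => h.gl k).trans ?_)
      rw [h.mean]
    · have e : (1 : ℂ) - (a : ℂ) * ((∑ k, Fr.u a ζ k) / N) =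
          (∑ k, (1 - (a : ℂ) * Fr.u a ζ k)) / N := by
        rw [Finset.sum_sub_distrib, ← Finset.mul_sum]
        simp only [Finset.sum_const, Finset.card_univ, Fintype.card_fin, nsmul_eq_mul, mul_one]
        have : (N : ℂ) ≠ 0 := by exact_mod_cast hN.ne'
        field_simp
      rw [e, norm_div, Complex.norm_natCast, mul_div_cancel₀ _ hN0.ne']
      refine (norm_sum_le _ _).trans (le_of_eq ?_)
      refine Finset.sum_congr rfl fun k _ => ?_
      rw [← Fr.norm_one_sub a ha0 ζ k]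
      have : a / (1 + a) * (1 + a) / a = 1 := by field_simp
      rw [this]
      simp
    · rw [div_le_one hN0]
      exact (norm_sum_le _ _).trans (le_of_eq h.mean)
    · refine (Complex.re_le_norm _).trans (le_of_eq ?_)
      rw [norm_mul, norm_prod, e2p]
    · -- the real part
      rw [Complex.mul_re]
      have hNne : (N : ℂ) ≠ 0 := by exact_mod_cast hN.ne'
      have hre : (1 - (a : ℂ) * ((∑ k, Fr.u a ζ k) / N)).re =
          1 - a + a / (1 + a) * ((∑ k, Fr.xx a ζ k) / N) := by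
        have h1 : ((a : ℂ) * ((∑ k, Fr.u a ζ k) / N)).re = a * ((∑ k, (Fr.u a ζ k).re) / N) := by
          rw [Complex.re_ofReal_mul, Complex.div_natCast_re, Complex.re_sum]
        rw [Complex.sub_re, Complex.one_re, h1]
        have h2 : ∑ k, Fr.xx a ζ k = (1 + a) * (N - ∑ k, (Fr.u a ζ k).re) := by
          unfold Fr.xx
          rw [← Finset.mul_sum, Finset.sum_sub_distrib, h.mean]
        rw [h2]
        field_simp
        ring
      have him : |(1 - (a : ℂ) * ((∑ k, Fr.u a ζ k) / N)).im| ≤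
          1 / N * ∑ k, Iy a (Fr.yy a ζ k) (Fr.xx a ζ k) := by
        have h1 : ((a : ℂ) * ((∑ k, Fr.u a ζ k) / N)).im = a * ((∑ k, (Fr.u a ζ k).im) / N) := by
          rw [Complex.im_ofReal_mul, Complex.div_natCast_im, Complex.im_sum]
        rw [Complex.sub_im, Complex.one_im, h1, zero_sub, abs_neg, abs_mul, abs_div,
          abs_of_pos ha0, abs_of_pos hN0]
        have h2 : ∑ k, Iy a (Fr.yy a ζ k) (Fr.xx a ζ k) = a * ∑ k, |(Fr.u a ζ k).im| := by
          rw [Finset.mul_sum]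
          exact Finset.sum_congr rfl fun k _ => Iy_eq ha0 ζ k
        rw [h2]
        have h3 := Finset.abs_sum_le_sum_abs (fun k => (Fr.u a ζ k).im) univ
        have h4 : a * (|∑ k, (Fr.u a ζ k).im| / N) ≤ a * ((∑ k, |(Fr.u a ζ k).im|) / N) := by
          gcongr
        refine h4.trans (le_of_eq ?_)
        ring
      have himP : |(∏ k, (1 - (a : ℂ) * Fr.u a ζ k)).im| ≤
          ∑ k, Iy a (Fr.yy a ζ k) (Fr.xx a ζ k) *
            ∏ l ∈ univ.erase k, AA (Fr.yy a ζ l) (Fr.xx a ζ l) (a / (1 + a)) := by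
        refine (abs_im_prod_le _ univ).trans (le_of_eq ?_)
        refine Finset.sum_congr rfl fun k _ => ?_
        rw [Iy_eq ha0 ζ k]
        congr 1
        · rw [Complex.sub_im, Complex.one_im, Complex.im_ofReal_mul, zero_sub, abs_neg, abs_mul,
            abs_of_pos ha0]
        · exact Finset.prod_congr rfl fun l _ => e2 l
      have hX0 : 0 ≤ ∑ k, Fr.xx a ζ k := Finset.sum_nonneg fun k _ => h.toFV.X0 k
      have hre0 : 0 ≤ 1 - a + a / (1 + a) * ((∑ k, Fr.xx a ζ k) / N) := by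
        have : 0 ≤ a / (1 + a) * ((∑ k, Fr.xx a ζ k) / N) := by positivity
        linarith
      have h5 : (∏ k, (1 - (a : ℂ) * Fr.u a ζ k)).re ≤
          ∏ l, AA (Fr.yy a ζ l) (Fr.xx a ζ l) (a / (1 + a)) := by
        refine (Complex.re_le_norm _).trans (le_of_eq ?_)
        rw [norm_prod, e2p]
      rw [hre]
      have h6 := mul_le_mul_of_nonneg_left h5 hre0
      have h7 : -((1 - (a : ℂ) * ((∑ k, Fr.u a ζ k) / N)).im *
          (∏ k, (1 - (a : ℂ) * Fr.u a ζ k)).im) ≤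
          1 / N * (∑ k, Iy a (Fr.yy a ζ k) (Fr.xx a ζ k)) *
          ∑ k, Iy a (Fr.yy a ζ k) (Fr.xx a ζ k) *
            ∏ l ∈ univ.erase k, AA (Fr.yy a ζ l) (Fr.xx a ζ l) (a / (1 + a)) := by
        refine (neg_le_abs _).trans ?_
        rw [abs_mul]
        exact mul_le_mul him himP (abs_nonneg _) (mul_nonneg (by positivity)
          (Finset.sum_nonneg fun k _ => Iy_nonneg ha0.le _ _))
      linarith
    · have h1 := h.tcRe hN
      rw [h.prod_t] at h1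
      have e3 : Fr.PC a (Fr.u a ζ) = 1 / N * ∫ τ in (0:ℝ)..(a / (1 + a)), τ * G τ := by
        have hs := intervalIntegral.smul_integral_comp_mul_left
          (f := fun s : ℝ => s * ∑ k, ∑ j, WW (Fr.u a ζ k) (Fr.u a ζ j) *
            ∏ l ∈ (univ.erase k).erase j, ‖1 - (s : ℂ) * a * Fr.u a ζ l‖) (a := 0)
            (b := a / (1 + a)) ((1 + a) / a)
        have e4 : (1 + a) / a * 0 = 0 := mul_zero _
        have e5 : (1 + a) / a * (a / (1 + a)) = 1 := by field_simp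
        rw [e4, e5] at hs
        unfold Fr.PC
        rw [← hs, smul_eq_mul, ← intervalIntegral.integral_const_mul,
          ← intervalIntegral.integral_const_mul, ← intervalIntegral.integral_const_mul]
        refine intervalIntegral.integral_congr fun τ _ => ?_
        have e6 : ∀ l, ‖(1 : ℂ) - (((1 + a) / a * τ : ℝ) : ℂ) * a * Fr.u a ζ l‖ =
            AA (Fr.yy a ζ l) (Fr.xx a ζ l) τ := fun l => by
          rw [← Fr.norm_one_sub a ha0 ζ l τ]
          congr 4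
          ring_nf
        simp only [e6, hG]
        have hNne : (N : ℝ) ≠ 0 := hN0.ne'
        field_simp
      rw [e3] at h1
      linarith

/-- the exponential form of the one-body bound (TC): with
`w = X/A0 + (2T - X)/B0`, `(∑ X/M)(∑ (2T-X)/M) ∏ M ≤ A0 B0 e^{-2} exp (∑ Ψ(A, w))` -/
theorem tc_pointwise {y X : Fin N → ℝ} {G : ℝ → ℝ} {τ A0 B0 : ℝ}
    (hG : ∀ M : Fin N → ℝ, (∀ k, 0 < M k) → (∀ k, AA (y k) (X k) τ ≤ M k) →
      G τ ≤ (∑ k, X k / M k) * (∑ k, (2 * (1 + y k) - X k) / M k) * ∏ k, M k)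
    (hy : ∀ k, 0 ≤ y k) (hX0 : ∀ k, 0 ≤ X k) (hX2 : ∀ k, X k ≤ 2 * (1 + y k))
    (hA0 : 0 < A0) (hB0 : 0 < B0) :
    G τ ≤ A0 * B0 * Real.exp (-2) *
      Real.exp (∑ k, Psi (AA (y k) (X k) τ) (X k / A0 + (2 * (1 + y k) - X k) / B0)) := by
  have hw : ∀ k, 0 < X k / A0 + (2 * (1 + y k) - X k) / B0 := by
    intro k
    have h1 := hX0 k
    have h2 := hX2 k
    have h3 := hy k
    rcases h1.eq_or_lt with h | h
    · rw [← h]
      have : 0 < (2 * (1 + y k) - 0) / B0 := div_pos (by linarith) hB0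
      simpa using this
    · have h4 : 0 < X k / A0 := by positivity
      have h5 : 0 ≤ (2 * (1 + y k) - X k) / B0 := div_nonneg (by linarith) hB0.le
      linarith
  set w : Fin N → ℝ := fun k => X k / A0 + (2 * (1 + y k) - X k) / B0 with hwd
  set M : Fin N → ℝ := fun k => max (AA (y k) (X k) τ) (w k) with hM
  have hM0 : ∀ k, 0 < M k := fun k => lt_of_lt_of_le (hw k) (le_max_right _ _)
  have h1 := hG M hM0 fun k => le_max_left _ _
  have hSA0 : 0 ≤ ∑ k, X k / M k := Finset.sum_nonneg fun k _ => div_nonneg (hX0 k) (hM0 k).le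
  have hSB0 : 0 ≤ ∑ k, (2 * (1 + y k) - X k) / M k :=
    Finset.sum_nonneg fun k _ => div_nonneg (by linarith [hX2 k]) (hM0 k).le
  have key : ∀ {S B : ℝ}, 0 < B → S ≤ B * (Real.exp (-1) * Real.exp (S / B)) := by
    intro S B hB
    rw [← Real.exp_add]
    have h6 := Real.add_one_le_exp (-1 + S / B)
    have h7 : S / B ≤ Real.exp (-1 + S / B) := by linarith
    rwa [div_le_iff₀ hB, mul_comm] at h7
  have hSA := key (S := ∑ k, X k / M k) hA0
  have hSB := key (S := ∑ k, (2 * (1 + y k) - X k) / M k) hB0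
  have hP : 0 ≤ ∏ k, M k := Finset.prod_nonneg fun k _ => (hM0 k).le
  refine h1.trans ((mul_le_mul_of_nonneg_right (mul_le_mul hSA hSB hSB0 (by positivity))
    hP).trans (le_of_eq ?_))
  have e1 : Real.exp (∑ k, Psi (AA (y k) (X k) τ) (w k)) =
      (∏ k, M k) * (Real.exp ((∑ k, X k / M k) / A0) *
        Real.exp ((∑ k, (2 * (1 + y k) - X k) / M k) / B0)) := by
    rw [← Real.exp_add, Finset.sum_div, Finset.sum_div, ← Finset.sum_add_distrib, Real.exp_sum,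
      Real.exp_sum, ← Finset.prod_mul_distrib]
    refine Finset.prod_congr rfl fun k _ => ?_
    have e3 : Psi (AA (y k) (X k) τ) (w k) = Real.log (M k) + w k / M k := rfl
    rw [e3, Real.exp_add, Real.exp_log (hM0 k)]
    have h8 := (hM0 k).ne'
    have e4 : w k / M k = X k / M k / A0 + (2 * (1 + y k) - X k) / M k / B0 := by
      have e5 : w k = X k / A0 + (2 * (1 + y k) - X k) / B0 := rfl
      rw [e5]
      generalize M k = m at h8
      field_simp
    rw [e4]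
  rw [e1]
  have e2 : Real.exp (-2) = Real.exp (-1) * Real.exp (-1) := by
    rw [← Real.exp_add]; norm_num
  rw [e2]
  ring

end Pool.Agent.Lib.MP_172a45_an.F
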