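import Pool.Agent.Lib.MP_172a45_an.H64.R2
import Pool.Agent.Lib.MP_172a45_an.H64.RFive
import Pool.Agent.Lib.MP_172a45_an.H5.La
import Pool.Agent.Lib.MP_172a45_an.L.Lc
import Pool.Agent.Lib.MP_172a45_an.F.H69.Lb
import Pool.Agent.Lib.MP_172a45_an.F.Small
import Pool.Agent.Lib.MP_172a45_an.LT.Mid3
import Pool.Agent.Lib.MP_172a45_an.LT.SndJ2

set_option autoImplicit false

/-!
# There is no frame, for every `N ≥ 1`
-/

namespace Pool.Agent.Lib.MP_172a45_an.F

/-- `N ≥ 100` -/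
theorem no_frame_large {M : ℕ} {a : ℝ} {ζ z : Fin (M + 1) → ℂ} (h : Fr (M + 1) a ζ z)
    (hM : 99 ≤ M) : False := by
  rcases le_total (Fr.Del a ζ) (3 / 2) with d | d
  · exact h.R2 hM d
  obtain ⟨ζ', h', hmax, hs⟩ := exists_max' h
  have hD : Fr.Del a ζ' = Fr.Del a ζ := by
    unfold Fr.Del; rw [hs]
  rcases le_total (Fr.Del a ζ) 8 with d3 | d3
  · exact H5.La h' hmax (by omega) (by rw [hD]; norm_num; linarith)
      (by rw [hD]; norm_num; linarith)
  rcases le_total (((M : ℝ) + 1) / 7) ‖Fr.u a ζ' 0‖ with t | t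
  · exact L.Lc h' hM hmax t
  · exact H69.Lb h' hM hmax (by rw [hD]; exact d3) (by linarith)

/-- there is no frame -/
theorem no_frame {N : ℕ} (hN1 : 1 ≤ N) (a : ℝ) (ζ z : Fin N → ℂ) : ¬ Fr N a ζ z := by
  intro h
  have h5 := h.five_le hN1
  rcases Nat.lt_or_ge 5 N with h6 | h6
  · obtain ⟨M, rfl⟩ : ∃ M, N = M + 1 := ⟨N - 1, by omega⟩
    rcases Nat.lt_or_ge M 30 with h7 | h7
    · exact LT.Fr_false_6' LT.soundStatementJ h (by omega) (by omega)
    rcases Nat.lt_or_ge M 59 with h8 | h8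
    · exact LT.Fr_false_31 h h7 (by omega)
    rcases Nat.lt_or_ge M 99 with h9 | h9
    · exact LT.Fr_false_60 h h8 (by omega)
    · exact no_frame_large h h9
  · obtain rfl : N = 5 := by omega
    exact h.R5

end Pool.Agent.Lib.MP_172a45_an.F
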