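import Pool.Agent.Lib.MP_172a45_an.F.LPP

set_option autoImplicit false

/-!
# Row constants for jobs with an explicit index
-/

namespace Pool.Agent.Lib.MP_172a45_an.F

open Finset Real

/-- `m_b(y) = ∫_0^y s/(1+bs) ds = (b y - log (1 + b y)) / b²` -/
noncomputable def mb (b y : ℝ) : ℝ := if b = 0 then y ^ 2 / 2 else gg (b * y) / b ^ 2

theorem mb_zero (b : ℝ) : mb b 0 = 0 := by
  unfold mb
  split_ifs
  · norm_num
  · rw [mul_zero, gg_zero, zero_div]

theorem mb_pos {b : ℝ} (hb : 0 < b) (y : ℝ) : mb b y = gg (b * y) / b ^ 2 := by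
  unfold mb; rw [if_neg hb.ne']

theorem mb_hasDeriv {b y : ℝ} (hb : 0 ≤ b) (hy : 0 ≤ y) :
    HasDerivAt (mb b) (y / (1 + b * y)) y := by
  rcases hb.eq_or_lt with h | h
  · rw [← h]
    have e : mb 0 = fun y => y ^ 2 / 2 := by
      funext y; unfold mb; rw [if_pos rfl]
    rw [e]
    have := ((hasDerivAt_id y).pow 2).div_const 2
    refine this.congr_deriv ?_
    simp
  · have e : mb b = fun y => gg (b * y) / b ^ 2 := by
      funext y; exact mb_pos h y
    rw [e]
    have hby : 0 ≤ b * y := by positivity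
    have h1 := gg_deriv (x := b * y) (by linarith)
    have h2 : HasDerivAt (fun y : ℝ => b * y) b y := by
      have := (hasDerivAt_id y).const_mul b
      refine this.congr_deriv ?_
      ring
    have h3 := (h1.comp y h2).div_const (b ^ 2)
    refine h3.congr_deriv ?_
    have : 1 + b * y ≠ 0 := by linarith
    field_simp

/-- the difference `m_b(Y) - m_b(y)` decreases with `b` -/
theorem mb_diff {b0 b y Y : ℝ} (hb0 : 0 ≤ b0) (hb : b0 ≤ b) (hy : 0 ≤ y) (hyY : y ≤ Y) :
    mb b Y - mb b y ≤ mb b0 Y - mb b0 y := by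
  have hm : MonotoneOn (fun x : ℝ => mb b0 x - mb b x) (Set.Ici 0) := by
    refine mono_aux (f' := fun x => x / (1 + b0 * x) - x / (1 + b * x)) (convex_Ici 0) ?_ ?_
    · intro x hx
      exact (mb_hasDeriv hb0 hx).sub (mb_hasDeriv (hb0.trans hb) hx)
    · intro x hx
      have hx0 : (0:ℝ) ≤ x := hx
      have h1 : 1 + b0 * x ≤ 1 + b * x := by
        have := mul_le_mul_of_nonneg_right hb hx0
        linarith
      have h2 : 0 < 1 + b0 * x := by positivity
      have := div_le_div_of_nonneg_left hx0 h2 h1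
      linarith
  have := hm (Set.mem_Ici.2 hy) (Set.mem_Ici.2 (hy.trans hyY)) hyY
  simp only at this
  linarith

theorem mb_mono {b y Y : ℝ} (hb : 0 ≤ b) (hy : 0 ≤ y) (hyY : y ≤ Y) : mb b y ≤ mb b Y := by
  have hm : MonotoneOn (mb b) (Set.Ici 0) := by
    refine mono_aux (f' := fun x => x / (1 + b * x)) (convex_Ici 0) ?_ ?_
    · intro x hx
      exact mb_hasDeriv hb hx
    · intro x hx
      have hx0 : (0:ℝ) ≤ x := hx
      positivity
  exact hm (Set.mem_Ici.2 hy) (Set.mem_Ici.2 (hy.trans hyY)) hyY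

/-- `m_b` lies above its tangent lines -/
theorem mb_tangent {b p y : ℝ} (hb : 0 ≤ b) (hp : 0 ≤ p) (hpy : p ≤ y) :
    mb b p + p / (1 + b * p) * (y - p) ≤ mb b y := by
  have hm : MonotoneOn (fun x : ℝ => mb b x - p / (1 + b * p) * x) (Set.Ici p) := by
    refine mono_aux (f' := fun x => x / (1 + b * x) - p / (1 + b * p)) (convex_Ici p) ?_ ?_
    · intro x hx
      have hx0 : (0:ℝ) ≤ x := hp.trans hx
      have h2 : HasDerivAt (fun x : ℝ => p / (1 + b * p) * x) (p / (1 + b * p)) x := by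
        have := (hasDerivAt_id x).const_mul (p / (1 + b * p))
        refine this.congr_deriv ?_
        ring
      exact (mb_hasDeriv hb hx0).sub h2
    · intro x hx
      have hxp : p ≤ x := hx
      have hx0 : (0:ℝ) ≤ x := hp.trans hx
      have h1 : 0 < 1 + b * p := by positivity
      have h2 : 0 < 1 + b * x := by positivity
      have : p / (1 + b * p) ≤ x / (1 + b * x) := by
        rw [div_le_div_iff₀ h1 h2]
        nlinarith
      linarith
  have := hm (Set.mem_Ici.2 le_rfl) (Set.mem_Ici.2 hpy) hpy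
  simp only at this
  linarith

/-- `log (1 + b y) / b` -/
theorem lb_hasDeriv {b y : ℝ} (hb : 0 < b) (hy : 0 ≤ y) :
    HasDerivAt (fun y : ℝ => Real.log (1 + b * y) / b) (1 / (1 + b * y)) y := by
  have h2 : HasDerivAt (fun y : ℝ => 1 + b * y) b y := by
    have := ((hasDerivAt_id y).const_mul b).const_add 1
    refine this.congr_deriv ?_
    ring
  have h1 : 1 + b * y ≠ 0 := by positivity
  have := (h2.log h1).div_const b
  refine this.congr_deriv ?_
  field_simp

theorem lb_diff {b b1 y Y : ℝ} (hb : 0 < b) (hb1 : b ≤ b1) (hy : 0 ≤ y) (hyY : y ≤ Y) :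
    Real.log (1 + b1 * Y) / b1 - Real.log (1 + b1 * y) / b1 ≤
      Real.log (1 + b * Y) / b - Real.log (1 + b * y) / b := by
  have hb1' : 0 < b1 := hb.trans_le hb1
  have hm : MonotoneOn (fun x : ℝ => Real.log (1 + b * x) / b - Real.log (1 + b1 * x) / b1)
      (Set.Ici 0) := by
    refine mono_aux (f' := fun x => 1 / (1 + b * x) - 1 / (1 + b1 * x)) (convex_Ici 0) ?_ ?_
    · intro x hx
      exact (lb_hasDeriv hb hx).sub (lb_hasDeriv hb1' hx)
    · intro x hx
      have hx0 : (0:ℝ) ≤ x := hx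
      have h1 : 1 + b * x ≤ 1 + b1 * x := by
        have := mul_le_mul_of_nonneg_right hb1 hx0
        linarith
      have h2 : 0 < 1 + b * x := by positivity
      have := one_div_le_one_div_of_le h2 h1
      linarith
  have := hm (Set.mem_Ici.2 hy) (Set.mem_Ici.2 (hy.trans hyY)) hyY
  simp only at this
  linarith

theorem lb_tangent {b p y : ℝ} (hb : 0 < b) (hp : 0 ≤ p) (hpy : p ≤ y) :
    Real.log (1 + b * y) / b ≤ Real.log (1 + b * p) / b + 1 / (1 + b * p) * (y - p) := by
  have hy : 0 ≤ y := hp.trans hpy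
  have h1 : 0 < 1 + b * p := by positivity
  have h2 : 0 < 1 + b * y := by positivity
  have h3 := Real.log_le_sub_one_of_pos (div_pos h2 h1)
  rw [Real.log_div h2.ne' h1.ne'] at h3
  have e : (1 + b * y) / (1 + b * p) - 1 = b * (1 / (1 + b * p) * (y - p)) := by
    field_simp
    ring
  rw [e] at h3
  have h4 : Real.log (1 + b * y) / b ≤
      (Real.log (1 + b * p) + b * (1 / (1 + b * p) * (y - p))) / b :=
    div_le_div_of_nonneg_right (by linarith) hb.le
  refine h4.trans (le_of_eq ?_)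
  field_simp

namespace FV

variable {N : ℕ} {a Δ : ℝ} {y X : Fin N → ℝ}

/-- each zero: `½ log E ≤ log (1 + b y)` -/
theorem half_log_E_le (h : FV N a Δ y X) (k : Fin N) :
    1 / 2 * Real.log ((1 + (1 - a) * y k) ^ 2 - 2 * (1 - (1 - a)) * (1 - a) * X k) ≤
      Real.log (1 + (1 - a) * y k) := by
  have hb := h.b_pos
  have ha := h.a0
  have hE := h.E_pos k
  have hX := h.X0 k
  have hy := h.y0 k
  have h1 : (1 + (1 - a) * y k) ^ 2 - 2 * (1 - (1 - a)) * (1 - a) * X k ≤
      (1 + (1 - a) * y k) ^ 2 := by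
    have : 0 ≤ 2 * (1 - (1 - a)) * (1 - a) * X k := by
      have e : 1 - (1 - a) = a := by ring
      rw [e]; positivity
    linarith
  have h2 := Real.log_le_log hE h1
  rw [Real.log_pow] at h2
  push_cast at h2
  linarith

/-- form 3 for the indices other than `k₀` -/
theorem form3_erase (h : FV N a Δ y X) (k0 : Fin N) {b0 mu1 a0 : ℝ} (hb00 : 0 ≤ b0)
    (hb0 : b0 ≤ 1 - a) (hmu : 1 + a * (1 - a) / 2 ≤ mu1) (ha0 : a0 ≤ a)
    (hyN : y k0 ≤ N * (1 + a * (1 - a) / 2)) :
    -(mb b0 (N * mu1) - N * (1 + a0 / 2)) + mb b0 (y k0) ≤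
      ∑ k ∈ univ.erase k0, -(((1 - a) * y k - 1 / 2 * Real.log ((1 + (1 - a) * y k) ^ 2 -
        2 * (1 - (1 - a)) * (1 - a) * X k)) / (1 - a) ^ 2) := by
  have hb := h.b_pos
  have ha := h.a0
  have hN : (0 : ℝ) ≤ N := Nat.cast_nonneg N
  have h1 := h.form3 (K := mb (1 - a) (N * (1 + a * (1 - a) / 2)) - N * (1 + a / 2)) (by
    rw [mb_pos hb]
    unfold gg
    have e : (1 - a) * (N * (1 + a * (1 - a) / 2)) = (1 - a) * N * (1 + a * (1 - a) / 2) := by ring
    rw [e]
    refine le_of_eq ?_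
    field_simp
    ring)
  rw [← Finset.add_sum_erase univ _ (Finset.mem_univ k0)] at h1
  have h2 : -(((1 - a) * y k0 - 1 / 2 * Real.log ((1 + (1 - a) * y k0) ^ 2 -
      2 * (1 - (1 - a)) * (1 - a) * X k0)) / (1 - a) ^ 2) ≤ -mb (1 - a) (y k0) := by
    rw [mb_pos hb, neg_le_neg_iff]
    unfold gg
    refine div_le_div_of_nonneg_right ?_ (by positivity)
    have := h.half_log_E_le k0
    linarith
  have h3 : mb (1 - a) (N * (1 + a * (1 - a) / 2)) - mb (1 - a) (y k0) ≤
      mb b0 (N * mu1) - mb b0 (y k0) := by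
    have h4 := mb_diff hb00 hb0 (h.y0 k0) hyN
    have h5 : mb b0 (N * (1 + a * (1 - a) / 2)) ≤ mb b0 (N * mu1) := by
      refine mb_mono hb00 ?_ (mul_le_mul_of_nonneg_left hmu hN)
      positivity
    linarith
  have h6 : (N : ℝ) * (1 + a0 / 2) ≤ N * (1 + a / 2) :=
    mul_le_mul_of_nonneg_left (by linarith) hN
  linarith

/-- form 4 for the indices other than `k₀` -/
theorem form4_erase (h : FV N a Δ y X) (k0 : Fin N) {b1 mu0 : ℝ}
    (hb1 : 1 - a ≤ b1) (hmu00 : 0 ≤ mu0) (hmu : mu0 ≤ 1 + a * (1 - a) / 2)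
    (hyN : y k0 ≤ N * mu0) :
    Real.log (1 + b1 * (N * mu0)) / b1 - Real.log (1 + b1 * y k0) / b1 ≤
      ∑ k ∈ univ.erase k0, 1 / (2 * (1 - a)) * Real.log ((1 + (1 - a) * y k) ^ 2 -
        2 * (1 - (1 - a)) * (1 - a) * X k) := by
  have hb := h.b_pos
  have ha := h.a0
  have hN : (0 : ℝ) ≤ N := Nat.cast_nonneg N
  have hb1' : 0 < b1 := hb.trans_le hb1
  have h1 := h.form4 (R := Real.log (1 + (1 - a) * (N * mu0)) / (1 - a)) (by
    rw [div_mul_cancel₀ _ hb.ne']
    refine Real.log_le_log (by positivity) ?_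
    have := mul_le_mul_of_nonneg_left hmu (by positivity : 0 ≤ (1 - a) * (N : ℝ))
    linarith)
  rw [← Finset.add_sum_erase univ _ (Finset.mem_univ k0)] at h1
  have h2 : 1 / (2 * (1 - a)) * Real.log ((1 + (1 - a) * y k0) ^ 2 -
      2 * (1 - (1 - a)) * (1 - a) * X k0) ≤ Real.log (1 + (1 - a) * y k0) / (1 - a) := by
    have h3 := div_le_div_of_nonneg_right (h.half_log_E_le k0) hb.le
    refine le_trans (le_of_eq ?_) h3
    field_simp
  have h4 := lb_diff hb hb1 (h.y0 k0) hyN
  linarith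

end FV

end Pool.Agent.Lib.MP_172a45_an.F
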