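import Pool.Agent.Lib.MP_172a45_an.F.TC
import Pool.Agent.Lib.MP_172a45_an.F.LPM

set_option autoImplicit false

/-!
# The first term of (TC), divided by `b = 1 - a`, with the product of one factor removed
-/

namespace Pool.Agent.Lib.MP_172a45_an.F

open Finset Real

variable {N : ℕ}

/-- `J = √(x (2 T - b x))` -/
noncomputable def Jy (b y x : ℝ) : ℝ := √(x * (2 * (1 + y) - b * x))

theorem Jy_nonneg (b y x : ℝ) : 0 ≤ Jy b y x := Real.sqrt_nonneg _

theorem Iy_eq_Jy {a b y x : ℝ} (hb : 0 ≤ b) :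
    Iy a y (b * x) = a / (1 + a) * (√b * Jy b y x) := by
  unfold Iy Jy
  rw [← Real.sqrt_mul hb]
  congr 2
  ring

/-- (F1J) -/
theorem F1J {a : ℝ} {y x : Fin N → ℝ} {F1 P : ℝ} (_ha : 0 < a) (ha1 : a < 1)
    {A : Fin N → ℝ} (_hP : P = ∏ l, A l)
    (h : F1 ≤ (1 - a + a / (1 + a) * ((∑ k, (1 - a) * x k) / N)) * P +
      1 / N * (∑ k, Iy a (y k) ((1 - a) * x k)) *
        ∑ k, Iy a (y k) ((1 - a) * x k) * ∏ l ∈ univ.erase k, A l) :
    F1 ≤ (1 - a) * ((1 + a / (1 + a) * ((∑ k, x k) / N)) * P +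
      (a / (1 + a)) ^ 2 / N * (∑ k, Jy (1 - a) (y k) (x k)) *
        ∑ k, Jy (1 - a) (y k) (x k) * ∏ l ∈ univ.erase k, A l) := by
  refine h.trans (le_of_eq ?_)
  have hb : (0:ℝ) ≤ 1 - a := by linarith
  have e1 : ∀ k, Iy a (y k) ((1 - a) * x k) = a / (1 + a) * (√(1 - a) * Jy (1 - a) (y k) (x k)) :=
    fun k => Iy_eq_Jy hb
  simp only [e1]
  have e2 : ∑ k, a / (1 + a) * (√(1 - a) * Jy (1 - a) (y k) (x k)) =
      a / (1 + a) * √(1 - a) * ∑ k, Jy (1 - a) (y k) (x k) := by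
    rw [Finset.mul_sum]
    exact Finset.sum_congr rfl fun k _ => by ring
  have e3 : ∑ k, a / (1 + a) * (√(1 - a) * Jy (1 - a) (y k) (x k)) * ∏ l ∈ univ.erase k, A l =
      a / (1 + a) * √(1 - a) * ∑ k, Jy (1 - a) (y k) (x k) * ∏ l ∈ univ.erase k, A l := by
    rw [Finset.mul_sum]
    exact Finset.sum_congr rfl fun k _ => by ring
  rw [e2, e3, ← Finset.mul_sum]
  have e4 : √(1 - a) * √(1 - a) = 1 - a := Real.mul_self_sqrt hb
  generalize ∑ k, Jy (1 - a) (y k) (x k) = S1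
  generalize ∑ k, Jy (1 - a) (y k) (x k) * ∏ l ∈ univ.erase k, A l = S2
  generalize ∑ k, x k = S3
  linear_combination (a / (1 + a)) ^ 2 / N * S1 * S2 * e4

/-- arithmetic-geometric mean: `w ≥ 2 kap p J` -/
theorem kap_le {b b0 y x p q kap : ℝ} (hp : 0 ≤ p) (hk : 0 ≤ kap) (hkap : kap ^ 2 * p ≤ q + b0 * p)
    (hx : 0 ≤ x) (hx2 : b * x ≤ 2 * (1 + y)) :
    2 * kap * p * Jy b y x ≤ 2 * p * (1 + y) + (q - (b - b0) * p) * x := by
  obtain ⟨u, hu⟩ : ∃ u, u = 2 * (1 + y) - b * x := ⟨_, rfl⟩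
  have hu0 : 0 ≤ u := by rw [hu]; linarith
  have e : 2 * p * (1 + y) + (q - (b - b0) * p) * x = p * u + (q + b0 * p) * x := by
    rw [hu]; ring
  rw [e]
  unfold Jy
  rw [← hu]
  have h1 : √(x * u) ≤ (u + kap ^ 2 * x) / (2 * kap) ∨ kap = 0 := by
    rcases hk.eq_or_lt with h | h
    · right; exact h.symm
    · left
      rw [Real.sqrt_le_left (by positivity), div_pow, le_div_iff₀ (by positivity)]
      nlinarith [sq_nonneg (u - kap ^ 2 * x)]
  have h2 := mul_le_mul_of_nonneg_right hkap hx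
  rcases h1 with h1 | h1
  · rcases hk.eq_or_lt with h | h
    · rw [← h]
      have : 0 ≤ p * u := mul_nonneg hp hu0
      rw [← h] at h2
      have h3 : 0 ≤ (q + b0 * p) * x := by nlinarith
      simp only [mul_zero, zero_mul]
      linarith
    · rw [le_div_iff₀ (by positivity)] at h1
      have h3 := mul_le_mul_of_nonneg_left h1 hp
      nlinarith
  · rw [h1] at h2 ⊢
    have : 0 ≤ p * u := mul_nonneg hp hu0
    have h3 : 0 ≤ (q + b0 * p) * x := by nlinarith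
    simp only [mul_zero, zero_mul]
    linarith

/-- the sum with one factor removed -/
theorem sum_J_prod_erase_le {A J w : Fin N → ℝ} {kp : ℝ} (hA : ∀ k, 0 ≤ A k) (hw : ∀ k, 0 < w k)
    (hkp : 0 < kp) (hJ : ∀ k, kp * J k ≤ w k) :
    ∑ k, J k * ∏ l ∈ univ.erase k, A l ≤
      Real.exp (-1) / kp * Real.exp (∑ l, Psi (A l) (w l)) := by
  have h1 := sum_prod_erase_le_Psi A w hA hw (x := 1) one_pos
  simp only [div_one, one_mul] at h1
  have h2 : kp * ∑ k, J k * ∏ l ∈ univ.erase k, A l ≤ ∑ k, w k * ∏ l ∈ univ.erase k, A l := by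
    rw [Finset.mul_sum]
    refine Finset.sum_le_sum fun k _ => ?_
    rw [← mul_assoc]
    exact mul_le_mul_of_nonneg_right (hJ k) (Finset.prod_nonneg fun l _ => hA l)
  rw [div_mul_eq_mul_div, le_div_iff₀ hkp, mul_comm]
  exact h2.trans h1

/-- `J ≤ (lam x + 2 T / lam) / 2` -/
theorem Jy_le {b y x lam : ℝ} (hb : 0 ≤ b) (hy : 0 ≤ y) (hx : 0 ≤ x) (hlam : 0 < lam) :
    Jy b y x ≤ (lam * x + 2 * (1 + y) / lam) / 2 := by
  unfold Jy
  rw [Real.sqrt_le_left (by positivity)]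
  have h1 : x * (2 * (1 + y) - b * x) ≤ 2 * x * (1 + y) := by nlinarith [mul_nonneg hb hx]
  have e : ((lam * x + 2 * (1 + y) / lam) / 2) ^ 2 =
      2 * x * (1 + y) + ((lam * x - 2 * (1 + y) / lam) / 2) ^ 2 := by
    field_simp
    ring
  rw [e]
  have := sq_nonneg ((lam * x - 2 * (1 + y) / lam) / 2)
  linarith

theorem sum_Jy_le {b a lam : ℝ} {y x : Fin N → ℝ} (hb : 0 ≤ b) (hy : ∀ k, 0 ≤ y k)
    (hx : ∀ k, 0 ≤ x k) (hlam : 0 < lam) (hsum : ∑ k, y k = a * N) :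
    ∑ k, Jy b (y k) (x k) ≤ (lam * ∑ k, x k + 2 * (N * (1 + a)) / lam) / 2 := by
  refine (Finset.sum_le_sum fun k _ => Jy_le hb (hy k) (hx k) hlam).trans (le_of_eq ?_)
  rw [← Finset.sum_div, Finset.sum_add_distrib, ← Finset.mul_sum, ← Finset.sum_div,
    ← Finset.mul_sum, Finset.sum_add_distrib, hsum]
  simp only [Finset.sum_const, Finset.card_univ, Fintype.card_fin, nsmul_eq_mul, mul_one]
  ring

/-- `m_b` lies above its tangent lines, both sides -/
theorem mb_tangent' {b p y : ℝ} (hb : 0 ≤ b) (hp : 0 ≤ p) (hy : 0 ≤ y) :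
    mb b p + p / (1 + b * p) * (y - p) ≤ mb b y := by
  rcases le_total p y with h | h
  · exact mb_tangent hb hp h
  · have hm : MonotoneOn (fun x : ℝ => -(mb b x - p / (1 + b * p) * x)) (Set.Icc 0 p) := by
      refine mono_aux (f' := fun x => -(x / (1 + b * x) - p / (1 + b * p))) (convex_Icc 0 p) ?_ ?_
      · intro x hx
        have h2 : HasDerivAt (fun x : ℝ => p / (1 + b * p) * x) (p / (1 + b * p)) x := by
          have := (hasDerivAt_id x).const_mul (p / (1 + b * p))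
          refine this.congr_deriv ?_
          ring
        exact ((mb_hasDeriv hb hx.1).sub h2).neg
      · intro x hx
        have hxp : x ≤ p := hx.2
        have hx0 : (0:ℝ) ≤ x := hx.1
        have h1 : 0 < 1 + b * p := by positivity
        have h2 : 0 < 1 + b * x := by positivity
        have : x / (1 + b * x) ≤ p / (1 + b * p) := by
          rw [div_le_div_iff₀ h2 h1]
          nlinarith
        linarith
    have := hm (Set.mem_Icc.2 ⟨hy, h⟩) (Set.mem_Icc.2 ⟨hp, le_rfl⟩) h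
    simp only at this
    linarith

/-- Jensen for `m_b` -/
theorem mb_jensen {b a : ℝ} {y : Fin N → ℝ} (hb : 0 ≤ b) (ha : 0 ≤ a) (hy : ∀ k, 0 ≤ y k)
    (hsum : ∑ k, y k = a * N) : N * mb b a ≤ ∑ k, mb b (y k) := by
  have h1 := Finset.sum_le_sum fun (k : Fin N) (_ : k ∈ univ) => mb_tangent' hb ha (hy k)
  refine le_trans (le_of_eq ?_) h1
  rw [Finset.sum_add_distrib, ← Finset.mul_sum, Finset.sum_sub_distrib, hsum]
  simp only [Finset.sum_const, Finset.card_univ, Fintype.card_fin, nsmul_eq_mul]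
  ring

/-- the row bounds the sum of the `x` (form 3) -/
theorem FV.sum_x3_le {a Δ : ℝ} {y X : Fin N → ℝ} (h : FV N a Δ y X) {K b1 g : ℝ}
    (hb1 : 1 - a ≤ b1) (hb1' : b1 < 1) (hg0 : 0 ≤ g) (hg : ∀ k, g * (1 + b1 * y k) ^ 2 ≤ 1)
    (hK : -K ≤ ∑ k, -(((1 - a) * y k - 1 / 2 * Real.log ((1 + (1 - a) * y k) ^ 2 -
      2 * (1 - (1 - a)) * (1 - a) * X k)) / (1 - a) ^ 2)) :
    a * g * ∑ k, X k / (1 - a) ≤ K - N * mb (1 - a) a := by
  have hb := h.b_pos
  have ha := h.a0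
  have h1 : ∀ k, -(((1 - a) * y k - 1 / 2 * Real.log ((1 + (1 - a) * y k) ^ 2 -
      2 * (1 - (1 - a)) * (1 - a) * X k)) / (1 - a) ^ 2) ≤
      -mb (1 - a) (y k) - a * g * (X k / (1 - a)) := by
    intro k
    have h2 := half_log_E hb hb1 hb1' (h.y0 k) (h.X0 k) (h.E_pos k) hg0 (hg k)
    have e1 : -(((1 - a) * y k - 1 / 2 * Real.log ((1 + (1 - a) * y k) ^ 2 -
      2 * (1 - (1 - a)) * (1 - a) * X k)) / (1 - a) ^ 2) =
      (1 / 2 * Real.log ((1 + (1 - a) * y k) ^ 2 -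
      2 * (1 - (1 - a)) * (1 - a) * X k) - (1 - a) * y k) / (1 - a) ^ 2 := by ring
    have e2 : -mb (1 - a) (y k) - a * g * (X k / (1 - a)) =
        (Real.log (1 + (1 - a) * y k) - (1 - (1 - a)) * (1 - a) * X k * g - (1 - a) * y k) /
          (1 - a) ^ 2 := by
      rw [mb_pos hb]
      unfold gg
      field_simp
      ring
    rw [e1, e2]
    exact div_le_div_of_nonneg_right (by linarith) (by positivity)
  have h3 := hK.trans (Finset.sum_le_sum fun k _ => h1 k)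
  rw [Finset.sum_sub_distrib, ← Finset.mul_sum, Finset.sum_neg_distrib] at h3
  have h4 := mb_jensen hb.le ha.le h.y0 h.sum
  linarith

end Pool.Agent.Lib.MP_172a45_an.F
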