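import Pool.Agent.Lib.MP_172a45_an.F.Frame

set_option autoImplicit false

/-!
# Facts about a normalised counterexample

With `u k = 1/(a - ζ k)`: (GL), (T_y), (T0), `∑ u = 2 ∑ 1/(a - z)`, and (Rw').
-/

namespace Pool.Agent.Lib.MP_172a45_an.F

open Finset Filter Topology

/-- derivative of a product of linear factors -/
theorem der_prod {ι : Type} (s : Finset ι) (x : ι → ℂ) (w : ℂ) (h : ∀ k ∈ s, w - x k ≠ 0) :
    HasDerivAt (fun w => ∏ k ∈ s, (w - x k))
      ((∏ k ∈ s, (w - x k)) * ∑ k ∈ s, (w - x k)⁻¹) w := by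
  classical
  induction s using Finset.induction_on with
  | empty => simpa using hasDerivAt_const w (1 : ℂ)
  | insert i s hi ih =>
    have h1 := ih fun k hk => h k (Finset.mem_insert_of_mem hk)
    have h2 : HasDerivAt (fun w : ℂ => w - x i) 1 w := (hasDerivAt_id w).sub_const _
    have h3 := h2.mul h1
    have e : (fun w => ∏ k ∈ insert i s, (w - x k)) =
        (fun w : ℂ => w - x i) * fun w => ∏ k ∈ s, (w - x k) := by
      funext y
      simp only [Pi.mul_apply]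
      rw [Finset.prod_insert hi]
    rw [e]
    refine h3.congr_deriv ?_
    have h4 := h i (Finset.mem_insert_self i s)
    rw [Finset.prod_insert hi, Finset.sum_insert hi]
    field_simp

namespace Fr

variable {N : ℕ} {a : ℝ} {ζ z : Fin N → ℂ}

/-- `1/(a - ζ k)` -/
noncomputable def u (a : ℝ) (ζ : Fin N → ℂ) (k : Fin N) : ℂ := ((a : ℂ) - ζ k)⁻¹

theorem u_ne (h : Fr N a ζ z) (k : Fin N) : u a ζ k ≠ 0 := inv_ne_zero (h.neζ k)

theorem gl (h : Fr N a ζ z) (k : Fin N) : ‖1 - a * u a ζ k‖ ≤ ‖u a ζ k‖ := by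
  have h1 := h.neζ k
  have e : 1 - a * u a ζ k = -(ζ k) * u a ζ k := by
    unfold u
    field_simp
    ring
  rw [e, norm_mul, norm_neg]
  exact mul_le_of_le_one_left (norm_nonneg _) (h.hζ k)

theorem mean (h : Fr N a ζ z) : ∑ k, ‖u a ζ k‖ = N := h.sum

theorem R_eq (h : Fr N a ζ z) : ∏ j, ((a : ℂ) - z j) = (N + 1) * ∏ k, ((a : ℂ) - ζ k) := by
  have h1 := h.der a
  have h2 := (((hasDerivAt_id (a : ℂ)).sub_const (a : ℂ)).mul
    (der_prod univ z (a : ℂ) fun j _ => h.nez j))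
  have h3 := h1.unique h2
  rw [h3]
  simp

theorem inv_a_ne (h : Fr N a ζ z) {c : ℂ} (hc : ‖c‖ ≤ 1) : 1 - a * c ≠ 0 := by
  intro h0
  have h1 : (1 : ℂ) = a * c := sub_eq_zero.1 h0
  have h2 : (1 : ℝ) = a * ‖c‖ := by
    have := congrArg norm h1
    rwa [norm_one, norm_mul, Complex.norm_real, Real.norm_of_nonneg h.a0.le] at this
  nlinarith [h.a0, h.a1, norm_nonneg c]

/-- the derivative at `1/a` -/
theorem D_inv (h : Fr N a ζ z) : (N + 1) * ∏ k, (1 - a * ζ k) =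
    (∏ j, (1 - a * z j)) * (1 + (1 - (a : ℂ) ^ 2) * ∑ j, (1 - a * z j)⁻¹) := by
  have ha : (a : ℂ) ≠ 0 := by exact_mod_cast h.a0.ne'
  have e : ∀ c : ℂ, (a : ℂ)⁻¹ - c = (a : ℂ)⁻¹ * (1 - a * c) := fun c => by
    field_simp
  have hne : ∀ j ∈ univ, (a : ℂ)⁻¹ - z j ≠ 0 := fun j _ => by
    rw [e]
    exact mul_ne_zero (inv_ne_zero ha) (h.inv_a_ne (h.hz j))
  have h1 := h.der (a : ℂ)⁻¹
  have h2 := (((hasDerivAt_id (a : ℂ)⁻¹).sub_const (a : ℂ)).mul
    (der_prod univ z (a : ℂ)⁻¹ hne))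
  have h3 := h1.unique h2
  simp only [e, Finset.prod_mul_distrib, Finset.prod_const, Finset.card_univ, Fintype.card_fin,
    mul_inv, inv_inv, ← Finset.mul_sum] at h3
  simp only [id] at h3
  have hp : ((a : ℂ)⁻¹) ^ N ≠ 0 := pow_ne_zero _ (inv_ne_zero ha)
  apply mul_left_cancel₀ hp
  rw [← mul_assoc, mul_comm _ ((N : ℂ) + 1), mul_assoc, h3]
  field_simp

theorem sum_u (h : Fr N a ζ z) : ∑ k, u a ζ k = 2 * ∑ j, ((a : ℂ) - z j)⁻¹ := by
  -- `(N+1) G = R + (w - a) R'` near `a`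
  have hev : ∀ᶠ w in 𝓝 (a : ℂ), ∀ j, w - z j ≠ 0 := by
    refine eventually_all.2 fun j => ?_
    have : ContinuousAt (fun w : ℂ => w - z j) a := by fun_prop
    exact this.eventually_ne (h.nez j)
  have hid : (fun w : ℂ => (N + 1) * ∏ k, (w - ζ k)) =ᶠ[𝓝 (a : ℂ)]
      fun w => (∏ j, (w - z j)) * (1 + (w - a) * ∑ j, (w - z j)⁻¹) := by
    filter_upwards [hev] with w hw
    have h1 := h.der w
    have h2 := (((hasDerivAt_id w).sub_const (a : ℂ)).mul
      (der_prod univ z w fun j _ => hw j))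
    rw [h1.unique h2]
    simp only [id]
    ring
  have h1 : HasDerivAt (fun w : ℂ => (N + 1) * ∏ k, (w - ζ k))
      ((N + 1) * ((∏ k, ((a : ℂ) - ζ k)) * ∑ k, ((a : ℂ) - ζ k)⁻¹)) (a : ℂ) :=
    (der_prod univ ζ (a : ℂ) fun k _ => h.neζ k).const_mul _
  have hS : DifferentiableAt ℂ (fun w : ℂ => ∑ j, (w - z j)⁻¹) (a : ℂ) := by
    refine DifferentiableAt.fun_sum fun j _ => ?_
    exact (differentiableAt_id.sub_const _).inv (h.nez j)
  have h2 := (der_prod univ z (a : ℂ) fun j _ => h.nez j).mul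
    ((((hasDerivAt_id (a : ℂ)).sub_const (a : ℂ)).mul hS.hasDerivAt).const_add 1)
  have h3 := h1.unique (h2.congr_of_eventuallyEq hid)
  simp only [id, sub_self, zero_mul, add_zero, one_mul] at h3
  have hR := h.R_eq
  have hne : ∏ j, ((a : ℂ) - z j) ≠ 0 := Finset.prod_ne_zero_iff.2 fun j _ => h.nez j
  rw [← mul_assoc, ← hR] at h3
  apply mul_left_cancel₀ hne
  unfold u
  rw [h3]
  simp only [Pi.mul_apply, sub_self, zero_mul, add_zero, mul_one]
  ring

/-- the test at the point `a - y` -/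
theorem T_id (h : Fr N a ζ z) (y : ℂ) :
    ∏ j, ((a : ℂ) - y - z j) = (N + 1) * (∏ k, ((a : ℂ) - ζ k)) *
      ∫ s in (0:ℝ)..1, ∏ k, (1 - s * y * u a ζ k) := by
  by_cases hy : y = 0
  · subst hy
    simp only [sub_zero, mul_zero, zero_mul, Finset.prod_const_one, intervalIntegral.integral_const,
      sub_zero, one_smul, mul_one]
    exact h.R_eq
  have hFTC : ∫ s in (0:ℝ)..1, -y * ((N + 1) * ∏ k, ((a : ℂ) - s * y - ζ k)) =
      ((a : ℂ) - (1 : ℝ) * y - a) * ∏ j, ((a : ℂ) - (1 : ℝ) * y - z j) -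
      ((a : ℂ) - (0 : ℝ) * y - a) * ∏ j, ((a : ℂ) - (0 : ℝ) * y - z j) := by
    have hd : ∀ t ∈ Set.uIcc (0:ℝ) 1, HasDerivAt
        (fun t : ℝ => ((a : ℂ) - t * y - a) * ∏ j, ((a : ℂ) - t * y - z j))
        (-y * ((N + 1) * ∏ k, ((a : ℂ) - t * y - ζ k))) t := by
      intro t _
      have h0 : HasDerivAt (fun t : ℝ => (t : ℂ)) 1 t := Complex.ofRealCLM.hasDerivAt
      have h1 : HasDerivAt (fun t : ℝ => (a : ℂ) - t * y) (-(1 * y)) t :=
        (h0.mul_const y).const_sub _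
      have h2 := (h.der ((a : ℂ) - t * y)).comp t h1
      refine h2.congr_deriv ?_
      ring
    rw [intervalIntegral.integral_eq_sub_of_hasDerivAt hd]
    refine Continuous.intervalIntegrable ?_ _ _
    fun_prop
  have e1 : ∀ s : ℝ, -y * ((N + 1) * ∏ k, ((a : ℂ) - s * y - ζ k)) =
      (-y * ((N + 1) * ∏ k, ((a : ℂ) - ζ k))) * ∏ k, (1 - s * y * u a ζ k) := fun s => by
    rw [mul_assoc, mul_assoc, ← Finset.prod_mul_distrib]
    congr 2
    refine Finset.prod_congr rfl fun k _ => ?_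
    have := h.neζ k
    unfold u
    field_simp
    ring
  simp only [e1] at hFTC
  rw [intervalIntegral.integral_const_mul] at hFTC
  have e2 : -y * ∏ j, ((a : ℂ) - y - z j) =
      -y * (((N + 1) * ∏ k, ((a : ℂ) - ζ k)) * ∫ s in (0:ℝ)..1, ∏ k, (1 - s * y * u a ζ k)) := by
    rw [← mul_assoc, hFTC]
    push_cast
    simp
  exact mul_left_cancel₀ (neg_ne_zero.2 hy) e2

theorem prod_norm_u (h : Fr N a ζ z) :
    (∏ k, ‖(a : ℂ) - ζ k‖) * ∏ k, ‖u a ζ k‖ = 1 := by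
  rw [← Finset.prod_mul_distrib]
  refine Finset.prod_eq_one fun k _ => ?_
  unfold u
  rw [norm_inv, mul_inv_cancel₀ (norm_ne_zero_iff.2 (h.neζ k))]

/-- (T0) -/
theorem T0 (h : Fr N a ζ z) :
    ((N : ℝ) + 1) * ‖∫ s in (0:ℝ)..1, ∏ k, (1 - s * a * u a ζ k)‖ ≤ ∏ k, ‖u a ζ k‖ := by
  have h1 := h.T_id (a : ℂ)
  have h2 := congrArg norm h1
  rw [norm_mul, norm_mul, norm_prod, norm_prod] at h2
  have h3 : ∏ j, ‖(a : ℂ) - a - z j‖ ≤ 1 := by
    refine Finset.prod_le_one (fun _ _ => norm_nonneg _) fun j _ => ?_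
    rw [sub_self, zero_sub, norm_neg]
    exact h.hz j
  have h4 : ‖(N : ℂ) + 1‖ = (N : ℝ) + 1 := by
    have : (N : ℂ) + 1 = ((N + 1 : ℕ) : ℂ) := by push_cast; ring
    rw [this, Complex.norm_natCast]
    push_cast; ring
  rw [h2, h4] at h3
  have h5 := h.prod_norm_u
  have h6 : 0 < ∏ k, ‖u a ζ k‖ := Finset.prod_pos fun k _ => norm_pos_iff.2 (h.u_ne k)
  have h7 := mul_le_mul_of_nonneg_right h3 h6.le
  rw [one_mul] at h7
  refine le_trans (le_of_eq ?_) h7
  calc ((N : ℝ) + 1) * ‖∫ s in (0:ℝ)..1, ∏ k, (1 - s * a * u a ζ k)‖ =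
      ((N : ℝ) + 1) * ‖∫ s in (0:ℝ)..1, ∏ k, (1 - s * a * u a ζ k)‖ *
        ((∏ k, ‖(a : ℂ) - ζ k‖) * ∏ k, ‖u a ζ k‖) := by rw [h5, mul_one]
    _ = _ := by ring

/-- `∏ ρ_j (1 + ∑ (1 - a c_j/ρ_j)) ≥ 1 + ∑ (1 - a ρ_j c_j)` -/
theorem rw_aux {ι : Type} (s : Finset ι) {a : ℝ} (ha0 : 0 < a) (ha1 : a < 1) (ρ c : ι → ℝ)
    (hρ : ∀ j ∈ s, 1 ≤ ρ j) (hc : ∀ j ∈ s, |c j| ≤ 1) :
    1 + ∑ j ∈ s, (1 - a * (ρ j * c j)) ≤
      (∏ j ∈ s, ρ j) * (1 + ∑ j ∈ s, (1 - a * (c j / ρ j))) := by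
  classical
  induction s using Finset.induction_on with
  | empty => simp
  | insert i s hi ih =>
    have ih' := ih (fun j hj => hρ j (Finset.mem_insert_of_mem hj))
      (fun j hj => hc j (Finset.mem_insert_of_mem hj))
    rw [Finset.prod_insert hi, Finset.sum_insert hi, Finset.sum_insert hi]
    have h1 := hρ i (Finset.mem_insert_self i s)
    have h2 := abs_le.1 (hc i (Finset.mem_insert_self i s))
    set S := ∑ j ∈ s, (1 - a * (c j / ρ j)) with hS
    set S' := ∑ j ∈ s, (1 - a * (ρ j * c j)) with hS'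
    set Q := ∏ j ∈ s, ρ j with hQ
    set r := ρ i with hr
    set d := c i with hd
    have hr0 : 0 < r := by linarith
    have hQ1 : 1 ≤ Q := by
      calc (1 : ℝ) = ∏ j ∈ s, (1 : ℝ) := by simp
        _ ≤ Q := Finset.prod_le_prod (fun _ _ => zero_le_one)
          fun j hj => hρ j (Finset.mem_insert_of_mem hj)
    have hS0 : 0 ≤ S := by
      rw [hS]
      refine Finset.sum_nonneg fun j hj => ?_
      have g1 := hρ j (Finset.mem_insert_of_mem hj)
      have g2 := abs_le.1 (hc j (Finset.mem_insert_of_mem hj))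
      have g3 : c j / ρ j ≤ 1 := by
        rw [div_le_one (by linarith)]
        linarith
      nlinarith
    have hdr : d / r ≤ 1 := by
      rw [div_le_one hr0]; linarith
    have hT : 0 ≤ 1 - a * (d / r) := by nlinarith
    -- the increment
    have k1 : Q * (1 + S) * 1 ≤ Q * (1 + S) * r :=
      mul_le_mul_of_nonneg_left h1 (by positivity)
    have k2 : (1 : ℝ) - a * (r * d) ≤ (r - 1) * (1 + (1 - a * (d / r))) + (1 - a * (d / r)) := by
      have e : (r - 1) * (1 + (1 - a * (d / r))) + (1 - a * (d / r)) - (1 - a * (r * d)) =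
          (r - 1) * (2 + a * d) := by
        field_simp
        ring
      have : 0 ≤ (r - 1) * (2 + a * d) := by
        refine mul_nonneg (by linarith) ?_
        nlinarith
      linarith
    have k3 : (r - 1) * (1 + S) + r * (1 - a * (d / r)) ≤
        Q * ((r - 1) * (1 + S) + r * (1 - a * (d / r))) := by
      have : 0 ≤ (r - 1) * (1 + S) + r * (1 - a * (d / r)) := by
        have g1 : 0 ≤ (r - 1) * (1 + S) := mul_nonneg (by linarith) (by linarith)
        have g2 : 0 ≤ r * (1 - a * (d / r)) := mul_nonneg hr0.le hT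
        linarith
      nlinarith
    have k4 : (r - 1) * 1 ≤ (r - 1) * (1 + S) :=
      mul_le_mul_of_nonneg_left (by linarith) (by linarith)
    nlinarith

/-- (Rw') -/
theorem Rw' (h : Fr N a ζ z) :
    1 + (1 - a ^ 2) * (N - a / 2 * (∑ k, u a ζ k).re) ≤
      ∏ k, ‖(a : ℂ) + (1 - (a : ℂ) ^ 2) * u a ζ k‖ := by
  set η : Fin N → ℂ := fun j => (a : ℂ) + (1 - (a : ℂ) ^ 2) * ((a : ℂ) - z j)⁻¹ with hη
  have ha0 := h.a0
  have ha1 := h.a1
  have hηe : ∀ j, η j = (1 - a * z j) / ((a : ℂ) - z j) := fun j => by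
    have := h.nez j
    rw [hη]
    field_simp
    ring
  have hηn : ∀ j, 1 ≤ ‖η j‖ := fun j => by
    rw [hηe, norm_div, le_div_iff₀ (norm_pos_iff.2 (h.nez j)), one_mul]
    have h1 : ‖(a : ℂ) - z j‖ ^ 2 ≤ ‖1 - (a : ℂ) * z j‖ ^ 2 := by
      have h2 : ‖z j‖ ^ 2 ≤ 1 := by
        have := h.hz j
        nlinarith [norm_nonneg (z j)]
      rw [← Complex.normSq_eq_norm_sq, Complex.normSq_apply] at h2 ⊢
      rw [← Complex.normSq_eq_norm_sq, Complex.normSq_apply]
      simp only [Complex.sub_re, Complex.sub_im, Complex.ofReal_re, Complex.ofReal_im,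
        Complex.one_re, Complex.one_im, Complex.mul_re, Complex.mul_im]
      have h3 : 0 ≤ (1 - a ^ 2) * (1 - ((z j).re * (z j).re + (z j).im * (z j).im)) :=
        mul_nonneg (by nlinarith) (by linarith)
      nlinarith
    exact le_of_sq_le_sq h1 (norm_nonneg _)
  have hη0 : ∀ j, η j ≠ 0 := fun j h0 => by
    have := hηn j
    rw [h0, norm_zero] at this
    linarith
  -- the product
  have hprod : ∏ k, ‖(a : ℂ) + (1 - (a : ℂ) ^ 2) * u a ζ k‖ =
      (∏ j, ‖η j‖) * ‖1 + ∑ j, (1 - a / η j)‖ := by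
    have e1 : ∀ k, ‖(a : ℂ) + (1 - (a : ℂ) ^ 2) * u a ζ k‖ =
        ‖1 - (a : ℂ) * ζ k‖ / ‖(a : ℂ) - ζ k‖ := fun k => by
      rw [← norm_div]
      congr 1
      have := h.neζ k
      unfold u
      field_simp
      ring
    have e2 : ∀ j, ‖η j‖ = ‖1 - (a : ℂ) * z j‖ / ‖(a : ℂ) - z j‖ := fun j => by
      rw [hηe, norm_div]
    have e3 : ∑ j, (1 - a / η j) = (1 - (a : ℂ) ^ 2) * ∑ j, (1 - a * z j)⁻¹ := by
      rw [Finset.mul_sum]
      refine Finset.sum_congr rfl fun j _ => ?_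
      have g1 := h.inv_a_ne (h.hz j)
      have g2 := h.nez j
      rw [hηe]
      field_simp
      ring
    have hD := congrArg norm h.D_inv
    have hR := congrArg norm h.R_eq
    rw [norm_mul, norm_mul, norm_prod, norm_prod] at hD
    rw [norm_mul, norm_prod, norm_prod] at hR
    simp only [e1, e2, e3, Finset.prod_div_distrib]
    have n1 : 0 < ∏ k, ‖(a : ℂ) - ζ k‖ := Finset.prod_pos fun k _ => norm_pos_iff.2 (h.neζ k)
    have n2 : 0 < ∏ j, ‖(a : ℂ) - z j‖ := Finset.prod_pos fun j _ => norm_pos_iff.2 (h.nez j)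
    have n3 : 0 < ‖(N : ℂ) + 1‖ := by
      rw [norm_pos_iff]
      exact_mod_cast Nat.succ_ne_zero N
    rw [div_eq_iff n1.ne', div_mul_eq_mul_div, div_mul_eq_mul_div, eq_div_iff n2.ne', hR, ← hD]
    ring
  rw [hprod]
  have hre : 1 + ∑ j, (1 - a * ((η j).re / ‖η j‖ / ‖η j‖)) ≤ ‖1 + ∑ j, (1 - a / η j)‖ := by
    refine le_trans (le_of_eq ?_) (Complex.re_le_norm _)
    rw [Complex.add_re, Complex.one_re, Complex.re_sum]
    congr 1
    refine Finset.sum_congr rfl fun j _ => ?_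
    rw [Complex.sub_re, Complex.one_re, Complex.div_re, Complex.ofReal_re, Complex.ofReal_im,
      Complex.normSq_eq_norm_sq]
    have : ‖η j‖ ≠ 0 := norm_ne_zero_iff.2 (hη0 j)
    field_simp
    ring
  have haux := rw_aux (univ : Finset (Fin N)) ha0 ha1 (fun j => ‖η j‖)
    (fun j => (η j).re / ‖η j‖) (fun j _ => hηn j) (fun j _ => by
      rw [abs_div, abs_norm, div_le_one (norm_pos_iff.2 (hη0 j))]
      exact Complex.abs_re_le_norm _)
  have hsum : 1 + (1 - a ^ 2) * (N - a / 2 * (∑ k, u a ζ k).re) =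
      1 + ∑ j, (1 - a * (‖η j‖ * ((η j).re / ‖η j‖))) := by
    have e1 : ∀ j, ‖η j‖ * ((η j).re / ‖η j‖) = a + (1 - a ^ 2) * (((a : ℂ) - z j)⁻¹).re :=
      fun j => by
      have : ‖η j‖ ≠ 0 := norm_ne_zero_iff.2 (hη0 j)
      rw [mul_div_cancel₀ _ this, hη]
      simp only [Complex.add_re, Complex.ofReal_re, Complex.mul_re, Complex.sub_re,
        Complex.one_re, Complex.sub_im, Complex.one_im]
      have e2 : ((a : ℂ) ^ 2).re = a ^ 2 := by
        rw [← Complex.ofReal_pow, Complex.ofReal_re]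
      have e3 : ((a : ℂ) ^ 2).im = 0 := by
        rw [← Complex.ofReal_pow, Complex.ofReal_im]
      rw [e2, e3]
      ring
    simp only [e1]
    rw [h.sum_u]
    have e4 : (2 * ∑ j, ((a : ℂ) - z j)⁻¹).re = 2 * ∑ j, (((a : ℂ) - z j)⁻¹).re := by
      rw [← Complex.re_sum]
      simp
    rw [e4, Finset.sum_sub_distrib, ← Finset.mul_sum, Finset.sum_add_distrib, ← Finset.mul_sum]
    simp only [Finset.sum_const, Finset.card_univ, Fintype.card_fin, nsmul_eq_mul, mul_one]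
    ring
  rw [hsum]
  refine haux.trans ?_
  exact mul_le_mul_of_nonneg_left hre (Finset.prod_nonneg fun _ _ => norm_nonneg _)

end Fr

end Pool.Agent.Lib.MP_172a45_an.F
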