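import Pool.Agent.Lib.MP_172a45_an.F.Ident

set_option autoImplicit false

/-!
# Q1 (with strict inequality) from the non-existence of frames
-/

namespace Pool.Agent.Lib.MP_172a45_an.F

open Polynomial Finset

/-- `N = 1` -/
theorem no_one (a : ℝ) (ζ z : Fin 1 → ℂ) : ¬ Fr 1 a ζ z := by
  intro h
  have h1 := h.mean
  have h2 := h.sum_u
  simp only [Finset.univ_unique, Fin.default_eq_zero, Finset.sum_singleton] at h1 h2
  rw [h2, norm_mul, norm_inv] at h1
  have h3 : ‖(a : ℂ) - z 0‖ ≤ a + 1 := by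
    refine (norm_sub_le _ _).trans ?_
    rw [Complex.norm_real, Real.norm_of_nonneg h.a0.le]
    have := h.hz 0
    linarith
  have h4 : 0 < ‖(a : ℂ) - z 0‖ := norm_pos_iff.2 (h.nez 0)
  have h5 : ‖(2 : ℂ)‖ = 2 := by simp
  rw [h5] at h1
  have h6 : 2 * (‖(a : ℂ) - z 0‖)⁻¹ = 1 := by simpa using h1
  have h7 : 2 = ‖(a : ℂ) - z 0‖ := by
    field_simp at h6
    linarith
  have := h.a1
  linarith

open scoped Classical in
/-- the zero `b = 0` -/
theorem zero_case (P : ℂ[X]) {N : ℕ} (hN : P.natDegree = N + 1) (hN1 : 1 ≤ N)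
    (hroots : ∀ z ∈ P.roots, ‖z‖ ≤ 1) (hb : (0 : ℂ) ∈ P.roots) (hs : (0 : ℂ) ∉ P.derivative.roots) :
    (N : ℝ) < (P.derivative.roots.map fun z => ‖0 - z‖⁻¹).sum := by
  have hP0 : P ≠ 0 := by
    rintro rfl
    simp at hN
  obtain ⟨ζ, hζ⟩ := H13.exists_fin_enum P.derivative.roots (N := N) (by
    rw [H73.card_critical]; omega)
  have hmem : ∀ k, ζ k ∈ P.derivative.roots := by
    intro k
    rw [hζ]
    exact Multiset.mem_map_of_mem _ (by simp)
  have hne : ∀ k, ζ k ≠ 0 := fun k h0 => hs (h0 ▸ hmem k)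
  have hle : ∀ k, ‖ζ k‖ ≤ 1 := fun k =>
    H73.critical_norm_le (by omega) (fun w hw => hroots w ((mem_roots hP0).2 hw)) (hmem k)
  have hsum : (P.derivative.roots.map fun z => ‖0 - z‖⁻¹).sum = ∑ k, ‖ζ k‖⁻¹ := by
    conv_lhs => rw [hζ, Multiset.map_map]
    have e : ((fun z : ℂ => ‖0 - z‖⁻¹) ∘ ζ) = fun k => ‖ζ k‖⁻¹ := by
      funext k
      simp
    rw [e]
    rfl
  have hD : P.derivative.eval 0 = P.leadingCoeff * (N + 1) * ∏ k, (0 - ζ k) := by
    rw [(IsAlgClosed.splits P.derivative).eval_eq_prod_roots, leadingCoeff_derivative, hN]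
    conv_lhs => rw [hζ, Multiset.map_map]
    push_cast
    rfl
  obtain ⟨Q, hQ⟩ := dvd_iff_isRoot.mpr (isRoot_of_mem_roots hb)
  have hQ0 : Q ≠ 0 := by
    rintro rfl
    rw [mul_zero] at hQ
    exact hP0 hQ
  have hrootsQ : P.roots = 0 ::ₘ Q.roots := by
    have : P.roots = (X - C (0 : ℂ)).roots + Q.roots := by
      conv_lhs => rw [hQ]
      exact roots_mul (mul_ne_zero (X_sub_C_ne_zero 0) hQ0)
    rw [this, roots_X_sub_C]
    rfl
  have hlcQ : Q.leadingCoeff = P.leadingCoeff := by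
    conv_rhs => rw [hQ]
    simp
  have hQle : ‖Q.eval 0‖ ≤ ‖P.leadingCoeff‖ := by
    rw [← hlcQ]
    refine H13.eval_zero_norm_le fun z hz => hroots z ?_
    rw [hrootsQ]
    exact Multiset.mem_cons_of_mem hz
  have hDQ : P.derivative.eval 0 = Q.eval 0 := by
    conv_lhs => rw [hQ]
    simp
  rw [← hDQ, hD, norm_mul, norm_mul, norm_prod] at hQle
  have hlc : 0 < ‖P.leadingCoeff‖ := norm_pos_iff.mpr (leadingCoeff_ne_zero.mpr hP0)
  have h4 : ‖(N : ℂ) + 1‖ = (N : ℝ) + 1 := by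
    have : (N : ℂ) + 1 = ((N + 1 : ℕ) : ℂ) := by push_cast; ring
    rw [this, Complex.norm_natCast]
    push_cast; ring
  rw [h4] at hQle
  simp only [zero_sub, norm_neg] at hQle
  have hprod : ((N : ℝ) + 1) * ∏ k, ‖ζ k‖ ≤ 1 := by
    have : ‖P.leadingCoeff‖ * (((N : ℝ) + 1) * ∏ k, ‖ζ k‖) ≤ ‖P.leadingCoeff‖ * 1 := by
      rw [mul_one, ← mul_assoc]; exact hQle
    exact le_of_mul_le_mul_left this hlc
  rw [hsum]
  by_contra hcon
  push Not at hcon
  have hone : ∀ k, 1 ≤ ‖ζ k‖⁻¹ := fun k =>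
    (one_le_inv₀ (norm_pos_iff.2 (hne k))).2 (hle k)
  have hall : ∀ k, ‖ζ k‖⁻¹ = 1 := by
    have h5 : ∑ k : Fin N, (‖ζ k‖⁻¹ - 1) = 0 := by
      refine le_antisymm ?_ (Finset.sum_nonneg fun k _ => by linarith [hone k])
      rw [Finset.sum_sub_distrib]
      simp only [Finset.sum_const, Finset.card_univ, Fintype.card_fin, nsmul_eq_mul, mul_one]
      linarith
    have h6 := (Finset.sum_eq_zero_iff_of_nonneg (fun k _ => by linarith [hone k])).1 h5
    intro k
    have := h6 k (Finset.mem_univ k)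
    linarith
  have hall' : ∏ k, ‖ζ k‖ = 1 := Finset.prod_eq_one fun k _ => by
    have := hall k
    exact inv_eq_one.1 this
  rw [hall'] at hprod
  have : (1 : ℝ) ≤ N := by exact_mod_cast hN1
  linarith

open scoped Classical in
theorem simple_of (N : ℕ) (hN1 : 1 ≤ N) (h : ∀ (a : ℝ) (ζ z : Fin N → ℂ), ¬ Fr N a ζ z)
    (P : ℂ[X]) (hN : P.natDegree = N + 1) (hroots : ∀ z ∈ P.roots, ‖z‖ ≤ 1)
    (b : ℂ) (hb : b ∈ P.roots) (hb1 : ‖b‖ < 1) (hs : b ∉ P.derivative.roots) :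
    (N : ℝ) < (P.derivative.roots.map fun z => ‖b - z‖⁻¹).sum := by
  by_cases h0 : b = 0
  · subst h0
    exact zero_case P hN hN1 hroots hb hs
  · by_contra hcon
    push Not at hcon
    obtain ⟨a, ζ, z, hF⟩ := exists_frame P hN hN1 hroots b hb hs (norm_pos_iff.2 h0) hb1 hcon
    exact h a ζ z hF

open scoped Classical in
/-- the statement of Q1, with strict inequality, for the polynomials of degree `N + 1` -/
theorem Q1_of (N : ℕ) (hN1 : 1 ≤ N) (h : ∀ (a : ℝ) (ζ z : Fin N → ℂ), ¬ Fr N a ζ z)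
    (P : ℂ[X]) (hN : P.natDegree = N + 1) (hroots : ∀ z ∈ P.roots, ‖z‖ ≤ 1)
    (a : ℂ) (ha : a ∈ P.roots) (ha1 : ‖a‖ < 1) :
    ((P.natDegree - 1 : ℕ) : ENNReal) <
      (P.derivative.roots.map fun z => (ENNReal.ofReal ‖a - z‖)⁻¹).sum := by
  by_cases hs : a ∈ P.derivative.roots
  · obtain ⟨m, hm⟩ := Multiset.exists_cons_of_mem hs
    rw [hm, Multiset.map_cons, Multiset.sum_cons, sub_self, norm_zero, ENNReal.ofReal_zero,
      ENNReal.inv_zero, top_add]
    exact ENNReal.natCast_lt_top _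
  · have h : (N : ℝ) < (P.derivative.roots.map fun z => ‖a - z‖⁻¹).sum :=
      simple_of N hN1 h P hN hroots a ha ha1 hs
    have key : ∀ m : Multiset ℂ, a ∉ m →
        ENNReal.ofReal (m.map fun z => ‖a - z‖⁻¹).sum =
          (m.map fun z => (ENNReal.ofReal ‖a - z‖)⁻¹).sum := by
      intro m
      induction m using Multiset.induction with
      | empty => intro _; simp
      | cons z m ih =>
        intro hz
        rw [Multiset.mem_cons, not_or] at hz
        have hpos : 0 < ‖a - z‖ := norm_pos_iff.mpr (sub_ne_zero.mpr hz.1)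
        have hnn : 0 ≤ (m.map fun z => ‖a - z‖⁻¹).sum := by
          refine Multiset.sum_nonneg ?_
          intro y hy
          rw [Multiset.mem_map] at hy
          obtain ⟨w, -, rfl⟩ := hy
          positivity
        rw [Multiset.map_cons, Multiset.sum_cons, Multiset.map_cons, Multiset.sum_cons,
          ENNReal.ofReal_add (by positivity) hnn, ih hz.2, ENNReal.ofReal_inv_of_pos hpos]
    rw [← key _ hs, ← ENNReal.ofReal_natCast]
    have e : ((P.natDegree - 1 : ℕ) : ℝ) = N := by rw [hN]; simp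
    rw [e]
    exact (ENNReal.ofReal_lt_ofReal_iff (lt_of_le_of_lt (Nat.cast_nonneg N) h)).mpr h

end Pool.Agent.Lib.MP_172a45_an.F
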