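import Pool.Agent.Lib.MP_172a45_an.H13.Glue

set_option autoImplicit false

/-!
# The frame of a counterexample (all degrees)

`Fr N a ζ z` : `0 < a < 1`, `ζ` the critical points, `z` the other zeros of a polynomial of degree
`N + 1` with the zero `a`, all in the closed unit disc, `∑ 1/|a - ζ k| = N`.
Every counterexample of Q1 with `0 < |a| < 1` gives one (rotation and scaling).
-/

namespace Pool.Agent.Lib.MP_172a45_an.F

open Polynomial Finset
open Pool.Agent.Lib.MP_172a45_an.H13 (exists_fin_enum)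

/-- normalised counterexample -/
structure Fr (N : ℕ) (a : ℝ) (ζ z : Fin N → ℂ) : Prop where
  a0 : 0 < a
  a1 : a < 1
  hζ : ∀ k, ‖ζ k‖ ≤ 1
  hz : ∀ j, ‖z j‖ ≤ 1
  neζ : ∀ k, (a : ℂ) - ζ k ≠ 0
  nez : ∀ j, (a : ℂ) - z j ≠ 0
  sum : ∑ k, ‖((a : ℂ) - ζ k)⁻¹‖ = N
  der : ∀ w : ℂ, HasDerivAt (fun w : ℂ => (w - a) * ∏ j, (w - z j))
    ((N + 1) * ∏ k, (w - ζ k)) w

open scoped Classical in
/-- rotation -/
theorem exists_rot (P : ℂ[X]) {N : ℕ} (hN : P.natDegree = N + 1) (hN1 : 1 ≤ N)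
    (hroots : ∀ z ∈ P.roots, ‖z‖ ≤ 1) (b : ℂ) (hb : b ∈ P.roots) (hs : b ∉ P.derivative.roots)
    (hr0 : 0 < ‖b‖) :
    ∃ ζ z : Fin N → ℂ, (∀ k, ‖ζ k‖ ≤ 1) ∧ (∀ j, ‖z j‖ ≤ 1) ∧ (∀ k, (‖b‖ : ℂ) - ζ k ≠ 0) ∧
      (∀ j, (‖b‖ : ℂ) - z j ≠ 0) ∧
      (∑ k, ‖((‖b‖ : ℂ) - ζ k)⁻¹‖ = (P.derivative.roots.map fun z => ‖b - z‖⁻¹).sum) ∧
      (∀ w : ℂ, HasDerivAt (fun w : ℂ => (w - (‖b‖ : ℂ)) * ∏ j, (w - z j))
        ((N + 1) * ∏ k, (w - ζ k)) w) := by
  have hP0 : P ≠ 0 := by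
    rintro rfl
    simp at hN
  have hrc : (‖b‖ : ℂ) ≠ 0 := by exact_mod_cast hr0.ne'
  obtain ⟨ζ0, hζ0⟩ := exists_fin_enum P.derivative.roots (N := N) (by
    rw [H73.card_critical]; omega)
  have hcard : (P.roots.erase b).card = N := by
    rw [Multiset.card_erase_of_mem hb, ← (IsAlgClosed.splits P).natDegree_eq_card_roots, hN]
    rfl
  obtain ⟨z0, hz0⟩ := exists_fin_enum (P.roots.erase b) hcard
  have hmem : ∀ k, ζ0 k ∈ P.derivative.roots := by
    intro k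
    rw [hζ0]
    exact Multiset.mem_map_of_mem _ (by simp)
  have hmemz : ∀ j, z0 j ∈ P.roots := by
    intro j
    refine Multiset.mem_of_mem_erase (b := b) ?_
    rw [hz0]
    exact Multiset.mem_map_of_mem _ (by simp)
  have hne : ∀ k, b - ζ0 k ≠ 0 := by
    intro k h0
    rw [sub_eq_zero] at h0
    exact hs (h0 ▸ hmem k)
  have hle : ∀ k, ‖ζ0 k‖ ≤ 1 := fun k =>
    H73.critical_norm_le (by omega) (fun w hw => hroots w ((mem_roots hP0).2 hw)) (hmem k)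
  have hlez : ∀ j, ‖z0 j‖ ≤ 1 := fun j => hroots _ (hmemz j)
  have hlc : P.leadingCoeff ≠ 0 := leadingCoeff_ne_zero.mpr hP0
  have hD : ∀ w, P.derivative.eval w = P.leadingCoeff * (N + 1) * ∏ k, (w - ζ0 k) := by
    intro w
    rw [(IsAlgClosed.splits P.derivative).eval_eq_prod_roots, leadingCoeff_derivative, hN]
    conv_lhs => rw [hζ0, Multiset.map_map]
    push_cast
    rfl
  have hPe : ∀ w, P.eval w = P.leadingCoeff * ((w - b) * ∏ j, (w - z0 j)) := by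
    intro w
    rw [(IsAlgClosed.splits P).eval_eq_prod_roots, ← Multiset.cons_erase hb, Multiset.map_cons,
      Multiset.prod_cons]
    conv_lhs => rw [hz0, Multiset.map_map]
    rfl
  -- the zero is simple
  have hnez0 : ∀ j, b - z0 j ≠ 0 := by
    have h1 : P.derivative.eval b ≠ 0 := by
      rw [hD]
      refine mul_ne_zero (mul_ne_zero hlc ?_) (Finset.prod_ne_zero_iff.mpr fun k _ => hne k)
      exact_mod_cast Nat.succ_ne_zero N
    have h2 : P.derivative.eval b = P.leadingCoeff * ∏ j, (b - z0 j) := by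
      have h3 : DifferentiableAt ℂ (fun w => ∏ j, (w - z0 j)) b := by fun_prop
      have h4 : HasDerivAt (fun w => P.leadingCoeff * ((w - b) * ∏ j, (w - z0 j)))
          (P.leadingCoeff * (1 * ∏ j, (b - z0 j) + (b - b) * deriv (fun w => ∏ j, (w - z0 j)) b))
          b := (((hasDerivAt_id b).sub_const b).mul h3.hasDerivAt).const_mul _
      have h5 : (fun w => P.eval w) = fun w => P.leadingCoeff * ((w - b) * ∏ j, (w - z0 j)) :=
        funext hPe
      have h6 := P.hasDerivAt b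
      rw [h5] at h6
      rw [h6.unique h4]
      ring
    intro j h0
    apply h1
    rw [h2, Finset.prod_eq_zero (Finset.mem_univ j) h0, mul_zero]
  -- rotation
  obtain ⟨u, hu⟩ : ∃ u : ℂ, u = b / ‖b‖ := ⟨_, rfl⟩
  have hun : ‖u‖ = 1 := by
    rw [hu, norm_div, Complex.norm_real, norm_norm, div_self hr0.ne']
  have hu0 : u ≠ 0 := by
    intro h
    rw [h, norm_zero] at hun
    exact zero_ne_one hun
  have hbu : b = ‖b‖ * u := by
    rw [hu, mul_div_cancel₀ _ hrc]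
  have eqd : ∀ c : ℂ, (‖b‖ : ℂ) - c / u = (b - c) / u := by
    intro c
    rw [sub_div]
    congr 1
    rw [eq_div_iff hu0]
    exact hbu.symm
  have hdiv : ∀ c : ℂ, ‖c / u‖ = ‖c‖ := by
    intro c
    rw [norm_div, hun, div_one]
  have hneζ : ∀ k, (‖b‖ : ℂ) - ζ0 k / u ≠ 0 := by
    intro k
    rw [eqd]
    exact div_ne_zero (hne k) hu0
  have hnez : ∀ j, (‖b‖ : ℂ) - z0 j / u ≠ 0 := by
    intro j
    rw [eqd]
    exact div_ne_zero (hnez0 j) hu0
  have hnorm : ∀ k, ‖((‖b‖ : ℂ) - ζ0 k / u)⁻¹‖ = ‖b - ζ0 k‖⁻¹ := by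
    intro k
    rw [norm_inv, eqd, hdiv]
  have hsum : (P.derivative.roots.map fun z => ‖b - z‖⁻¹).sum = ∑ k, ‖b - ζ0 k‖⁻¹ := by
    conv_lhs => rw [hζ0, Multiset.map_map]
    rfl
  have der : ∀ w, HasDerivAt (fun w => (w - (‖b‖ : ℂ)) * ∏ j, (w - z0 j / u))
      ((N + 1) * ∏ k, (w - ζ0 k / u)) w := by
    intro w
    obtain ⟨κ, hκ⟩ : ∃ κ : ℂ, κ = (P.leadingCoeff * u ^ (N + 1))⁻¹ := ⟨_, rfl⟩
    have h1 : HasDerivAt (fun w : ℂ => u * w) (u * 1) w := (hasDerivAt_id w).const_mul u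
    have h2 := ((P.hasDerivAt (u * w)).comp w h1).const_mul κ
    have e1 : (fun w => κ * ((fun x => P.eval x) ∘ fun w : ℂ => u * w) w) =
        fun w => (w - (‖b‖ : ℂ)) * ∏ j, (w - z0 j / u) := by
      funext s
      simp only [Function.comp]
      rw [hPe, hκ]
      have h3 : ∏ j, (u * s - z0 j) = u ^ N * ∏ j, (s - z0 j / u) := by
        have : ∀ j, u * s - z0 j = u * (s - z0 j / u) := by
          intro j
          field_simp
        simp only [this]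
        rw [Finset.prod_mul_distrib]
        simp
      have h4 : u * s - b = u * (s - ‖b‖) := by
        linear_combination (-1 : ℂ) * hbu
      rw [h3, h4, pow_succ]
      field_simp
    have h5 : κ * (P.derivative.eval (u * w) * (u * 1)) = (N + 1) * ∏ k, (w - ζ0 k / u) := by
      rw [hD, hκ]
      have h3 : ∏ k, (u * w - ζ0 k) = u ^ N * ∏ k, (w - ζ0 k / u) := by
        have : ∀ k, u * w - ζ0 k = u * (w - ζ0 k / u) := by
          intro k
          field_simp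
        simp only [this]
        rw [Finset.prod_mul_distrib]
        simp
      rw [h3, pow_succ]
      field_simp
    rw [← h5, ← e1]
    exact h2
  refine ⟨fun k => ζ0 k / u, fun j => z0 j / u, ?_, ?_, hneζ, hnez, ?_, der⟩
  · intro k
    rw [hdiv]
    exact hle k
  · intro j
    rw [hdiv]
    exact hlez j
  · rw [hsum]
    exact Finset.sum_congr rfl fun k _ => hnorm k

open scoped Classical in
/-- every counterexample with `0 < |b| < 1` gives a normalised one -/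
theorem exists_frame (P : ℂ[X]) {N : ℕ} (hN : P.natDegree = N + 1) (hN1 : 1 ≤ N)
    (hroots : ∀ z ∈ P.roots, ‖z‖ ≤ 1) (b : ℂ) (hb : b ∈ P.roots) (hs : b ∉ P.derivative.roots)
    (hr0 : 0 < ‖b‖) (hr1 : ‖b‖ < 1)
    (hcon : (P.derivative.roots.map fun z => ‖b - z‖⁻¹).sum ≤ N) :
    ∃ (a : ℝ) (ζ z : Fin N → ℂ), Fr N a ζ z := by
  obtain ⟨ζ, z, h1, h2, h3, h4, h5, h6⟩ := exists_rot P hN hN1 hroots b hb hs hr0
  set r := ‖b‖ with hr
  have hN0 : (0 : ℝ) < N := by exact_mod_cast hN1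
  set μ : ℝ := (∑ k, ‖((r : ℂ) - ζ k)⁻¹‖) / N with hμ
  have hμ1 : μ ≤ 1 := by
    rw [hμ, div_le_one hN0, h5]
    exact hcon
  have : Nonempty (Fin N) := ⟨⟨0, hN1⟩⟩
  have hμ0 : 0 < μ := by
    refine div_pos (Finset.sum_pos (fun k _ => ?_) Finset.univ_nonempty) hN0
    exact norm_pos_iff.mpr (inv_ne_zero (h3 k))
  have hμc : (μ : ℂ) ≠ 0 := by exact_mod_cast hμ0.ne'
  have hnμ : ‖(μ : ℂ)‖ = μ := by rw [Complex.norm_real, Real.norm_of_nonneg hμ0.le]
  have ed : ∀ c : ℂ, ((μ * r : ℝ) : ℂ) - μ * c = μ * (r - c) := fun c => by push_cast; ring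
  refine ⟨μ * r, fun k => μ * ζ k, fun j => μ * z j, mul_pos hμ0 hr0, ?_, ?_, ?_, ?_, ?_, ?_, ?_⟩
  · calc μ * r ≤ 1 * r := mul_le_mul_of_nonneg_right hμ1 hr0.le
      _ < 1 := by rw [one_mul]; exact hr1
  · intro k
    rw [norm_mul, hnμ]
    exact mul_le_one₀ hμ1 (norm_nonneg _) (h1 k)
  · intro j
    rw [norm_mul, hnμ]
    exact mul_le_one₀ hμ1 (norm_nonneg _) (h2 j)
  · intro k
    rw [ed]
    exact mul_ne_zero hμc (h3 k)
  · intro j
    rw [ed]
    exact mul_ne_zero hμc (h4 j)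
  · have e1 : ∀ k, ‖(((μ * r : ℝ) : ℂ) - μ * ζ k)⁻¹‖ = μ⁻¹ * ‖((r : ℂ) - ζ k)⁻¹‖ := fun k => by
      rw [ed, mul_inv, norm_mul, norm_inv (μ : ℂ), hnμ]
    simp only [e1]
    rw [← Finset.mul_sum]
    have e2 : ∑ k, ‖((r : ℂ) - ζ k)⁻¹‖ = μ * N := by
      rw [hμ, div_mul_cancel₀ _ hN0.ne']
    rw [e2, ← mul_assoc, inv_mul_cancel₀ hμ0.ne', one_mul]
  · intro w
    have g1 : HasDerivAt (fun w : ℂ => (μ : ℂ)⁻¹ * w) ((μ : ℂ)⁻¹ * 1) w :=
      (hasDerivAt_id w).const_mul _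
    have g2 := ((h6 ((μ : ℂ)⁻¹ * w)).comp w g1).const_mul ((μ : ℂ) ^ (N + 1))
    have e1 : (fun w : ℂ => (μ : ℂ) ^ (N + 1) * ((fun w => (w - (r : ℂ)) * ∏ j, (w - z j)) ∘
        fun w : ℂ => (μ : ℂ)⁻¹ * w) w) =
        fun w => (w - ((μ * r : ℝ) : ℂ)) * ∏ j, (w - μ * z j) := by
      funext s
      simp only [Function.comp]
      have h3 : ∏ j, (s - μ * z j) = (μ : ℂ) ^ N * ∏ j, ((μ : ℂ)⁻¹ * s - z j) := by
        have : ∀ j, s - μ * z j = μ * ((μ : ℂ)⁻¹ * s - z j) := by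
          intro j
          field_simp
        simp only [this]
        rw [Finset.prod_mul_distrib]
        simp
      rw [h3, pow_succ]
      push_cast
      field_simp
    have e2 : (μ : ℂ) ^ (N + 1) * (((N + 1) * ∏ k, ((μ : ℂ)⁻¹ * w - ζ k)) * ((μ : ℂ)⁻¹ * 1)) =
        (N + 1) * ∏ k, (w - μ * ζ k) := by
      have h3 : ∏ k, (w - μ * ζ k) = (μ : ℂ) ^ N * ∏ k, ((μ : ℂ)⁻¹ * w - ζ k) := by
        have : ∀ k, w - μ * ζ k = μ * ((μ : ℂ)⁻¹ * w - ζ k) := by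
          intro k
          field_simp
        simp only [this]
        rw [Finset.prod_mul_distrib]
        simp
      rw [h3, pow_succ]
      generalize ∏ k, ((μ : ℂ)⁻¹ * w - ζ k) = X
      field_simp
    rw [← e2, ← e1]
    exact g2

end Pool.Agent.Lib.MP_172a45_an.F
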