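import Pool.Agent.Lib.MP_172a45_an.F.Red

set_option autoImplicit false

/-!
# helper5's hybrid functional `XX_S`: one index is kept out of the pair sum
-/

namespace Pool.Agent.Lib.MP_172a45_an.F

open Finset Filter Topology

section ident

variable {M : ℕ} (y0 : ℂ) (y : Fin M → ℂ)

/-- the hybrid identity: multiplier `1 - s m`, `m = (1/M) ∑ y` -/
theorem XXS_ident (hM : 0 < M) (m : ℂ) (hm : (M : ℂ) * m = ∑ k, y k) :
    (1 : ℂ) = (1 - m) * ((1 - y0) * qq y 1) +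
      (y0 + (∑ k, y k) + m) * (∫ s in (0:ℝ)..1, (1 - s * y0) * qq y s) +
      ∫ s in (0:ℝ)..1, (s : ℂ) * (y0 * (y0 - m) * qq y s +
        (1 - s * y0) / (2 * M) * ∑ k, ∑ j, (y k - y j) ^ 2 * q2 y k j s) := by
  have hM0 : (M : ℂ) ≠ 0 := by exact_mod_cast hM.ne'
  set F : ℝ → ℂ := fun s => (1 - s * m) * ((1 - s * y0) * qq y s) with hF
  set Q : ℝ → ℂ := fun s => (1 - s * y0) * qq y s with hQ
  set R : ℝ → ℂ := fun s => (s : ℂ) * (y0 * (y0 - m) * qq y s +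
        (1 - s * y0) / (2 * M) * ∑ k, ∑ j, (y k - y j) ^ 2 * q2 y k j s) with hR
  have hd : ∀ s ∈ Set.uIcc (0:ℝ) 1,
      HasDerivAt F (-((y0 + (∑ k, y k) + m) * Q s + R s)) s := by
    intro s _
    have h0 : HasDerivAt (fun s : ℝ => (s : ℂ)) 1 s := Complex.ofRealCLM.hasDerivAt
    have h1 : HasDerivAt (fun s : ℝ => 1 - (s : ℂ) * m) (-(1 * m)) s := (h0.mul_const m).const_sub 1
    have h2 : HasDerivAt (fun s : ℝ => 1 - (s : ℂ) * y0) (-(1 * y0)) s :=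
      (h0.mul_const y0).const_sub 1
    have h3 := h1.mul (h2.mul (qq_deriv y s))
    refine h3.congr_deriv ?_
    have h4 := sum_sq_aux y m hm s
    have h5 : ∑ k, y k * (y k - m) * q1 y k s =
        ∑ k, y k ^ 2 * q1 y k s - m * ∑ k, y k * q1 y k s := by
      rw [Finset.mul_sum, ← Finset.sum_sub_distrib]
      exact Finset.sum_congr rfl fun k _ => by ring
    have h6 : (∑ k, y k) * qq y s = ∑ k, y k * q1 y k s - s * ∑ k, y k ^ 2 * q1 y k s := by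
      rw [Finset.sum_mul, Finset.mul_sum, ← Finset.sum_sub_distrib]
      refine Finset.sum_congr rfl fun k _ => ?_
      rw [qq_eq y k]
      ring
    rw [h5] at h4
    have h7 : (1 - (s : ℂ) * y0) / (2 * M) * ∑ k, ∑ j, (y k - y j) ^ 2 * q2 y k j s =
        (1 - (s : ℂ) * y0) * (∑ k, y k ^ 2 * q1 y k s - m * ∑ k, y k * q1 y k s) := by
      have : ∑ k, ∑ j, (y k - y j) ^ 2 * q2 y k j s =
          2 * M * (∑ k, y k ^ 2 * q1 y k s - m * ∑ k, y k * q1 y k s) := by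
        linear_combination (-2 : ℂ) * h4
      rw [this]
      field_simp
    rw [hR]
    simp only
    rw [h7, hQ]
    simp only [Pi.mul_apply]
    linear_combination (1 - (s : ℂ) * y0) * h6
  have hQc : Continuous Q := by
    rw [hQ]
    exact (by fun_prop : Continuous fun s : ℝ => 1 - (s : ℂ) * y0).mul (qq_cont y)
  have hRc : Continuous R := by
    rw [hR]
    refine Complex.continuous_ofReal.mul ((continuous_const.mul (qq_cont y)).add
      (Continuous.mul (by fun_prop) ?_))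
    exact continuous_finsetSum _ fun k _ => continuous_finsetSum _ fun j _ =>
      continuous_const.mul (q2_cont y k j)
  have h := intervalIntegral.integral_eq_sub_of_hasDerivAt hd
    (Continuous.intervalIntegrable (by fun_prop) _ _)
  rw [intervalIntegral.integral_neg,
    intervalIntegral.integral_add (f := fun s => (y0 + (∑ k, y k) + m) * Q s)
      ((continuous_const.mul hQc).intervalIntegrable _ _) (hRc.intervalIntegrable _ _),
    intervalIntegral.integral_const_mul] at h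
  have hF1 : F 1 = (1 - m) * ((1 - y0) * qq y 1) := by
    rw [hF]; simp
  have hF0 : F 0 = 1 := by
    rw [hF]
    simp only [Complex.ofReal_zero, zero_mul, sub_zero, one_mul]
    exact qq_zero y
  rw [hF1, hF0] at h
  linear_combination h

end ident

/-- the real version, for `c = 1 - y` -/
theorem XXS_real {M : ℕ} (hM : 0 < M) (c0 : ℝ) (c : Fin M → ℝ) (κ : ℝ)
    (hκ : (M : ℝ) * κ = ∑ k, c k) :
    (1 : ℝ) = κ * (c0 * ∏ k, c k) +
      ((M + 1) * (1 - κ) - (c0 - 1)) *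
        (∫ s in (0:ℝ)..1, (1 - s + s * c0) * ∏ k, (1 - s + s * c k)) +
      ∫ s in (0:ℝ)..1, s * ((c0 - 1) * (c0 - κ) * ∏ k, (1 - s + s * c k) +
        (1 - s + s * c0) / (2 * M) * ∑ k, ∑ j, (c k - c j) ^ 2 *
          ∏ l ∈ (univ.erase k).erase j, (1 - s + s * c l)) := by
  have h := XXS_ident ((1 - c0 : ℝ) : ℂ) (fun k => ((1 - c k : ℝ) : ℂ)) hM ((1 - κ : ℝ) : ℂ) (by
    push_cast
    rw [Finset.sum_sub_distrib]
    have : ((∑ k, c k : ℝ) : ℂ) = ((M * κ : ℝ) : ℂ) := by rw [hκ]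
    push_cast at this
    rw [this]
    simp
    ring)
  have e1 : ∀ s : ℝ, qq (fun k => ((1 - c k : ℝ) : ℂ)) s = ((∏ k, (1 - s + s * c k) : ℝ) : ℂ) :=
    fun s => by
    unfold qq; push_cast
    exact Finset.prod_congr rfl fun k _ => by ring
  have e2 : ∀ (s : ℝ) (k j : Fin M), q2 (fun k => ((1 - c k : ℝ) : ℂ)) k j s =
      ((∏ l ∈ (univ.erase k).erase j, (1 - s + s * c l) : ℝ) : ℂ) := fun s k j => by
    unfold q2; push_cast
    exact Finset.prod_congr rfl fun l _ => by ring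
  have e3 : qq (fun k => ((1 - c k : ℝ) : ℂ)) 1 = ((∏ k, c k : ℝ) : ℂ) := by
    have := e1 1
    rw [Complex.ofReal_one] at this
    rw [this]
    congr 1
    exact Finset.prod_congr rfl fun k _ => by ring
  have e4 : ∀ s : ℝ, (1 - (s : ℂ) * ((1 - c0 : ℝ) : ℂ)) * qq (fun k => ((1 - c k : ℝ) : ℂ)) s =
      (((1 - s + s * c0) * ∏ k, (1 - s + s * c k) : ℝ) : ℂ) := fun s => by
    rw [e1]; push_cast; ring
  have e5 : ∀ s : ℝ, (s : ℂ) * (((1 - c0 : ℝ) : ℂ) * (((1 - c0 : ℝ) : ℂ) - ((1 - κ : ℝ) : ℂ)) *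
      qq (fun k => ((1 - c k : ℝ) : ℂ)) s +
        (1 - (s : ℂ) * ((1 - c0 : ℝ) : ℂ)) / (2 * M) *
        ∑ k, ∑ j, (((1 - c k : ℝ) : ℂ) - ((1 - c j : ℝ) : ℂ)) ^ 2 *
          q2 (fun k => ((1 - c k : ℝ) : ℂ)) k j s) =
      ((s * ((c0 - 1) * (c0 - κ) * ∏ k, (1 - s + s * c k) +
        (1 - s + s * c0) / (2 * M) * ∑ k, ∑ j, (c k - c j) ^ 2 *
          ∏ l ∈ (univ.erase k).erase j, (1 - s + s * c l)) : ℝ) : ℂ) := fun s => by
    simp only [e1, e2]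
    push_cast
    have e6 : ∀ k j : Fin M, ((1 : ℂ) - c k - (1 - c j)) ^ 2 = ((c k : ℂ) - c j) ^ 2 :=
      fun k j => by ring
    simp only [e6]
    ring
  simp only [e4, e5] at h
  rw [intervalIntegral.integral_ofReal, intervalIntegral.integral_ofReal, e3] at h
  have e7 : (((1 - c0 : ℝ) : ℂ) + (∑ k, ((1 - c k : ℝ) : ℂ)) + ((1 - κ : ℝ) : ℂ)) =
      (((M + 1) * (1 - κ) - (c0 - 1) : ℝ) : ℂ) := by
    push_cast
    rw [Finset.sum_sub_distrib]
    have : ((∑ k, c k : ℝ) : ℂ) = ((M * κ : ℝ) : ℂ) := by rw [hκ]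
    push_cast at this
    rw [this]
    simp
    ring
  rw [e7] at h
  have h' : (1 : ℝ) = (1 - (1 - κ)) * ((1 - (1 - c0)) * ∏ k, c k) +
      ((M + 1) * (1 - κ) - (c0 - 1)) *
        (∫ s in (0:ℝ)..1, (1 - s + s * c0) * ∏ k, (1 - s + s * c k)) +
      ∫ s in (0:ℝ)..1, s * ((c0 - 1) * (c0 - κ) * ∏ k, (1 - s + s * c k) +
        (1 - s + s * c0) / (2 * M) * ∑ k, ∑ j, (c k - c j) ^ 2 *
          ∏ l ∈ (univ.erase k).erase j, (1 - s + s * c l)) := by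
    exact_mod_cast h
  have e8 : (1 - (1 - κ)) * ((1 - (1 - c0)) * ∏ k, c k) = κ * (c0 * ∏ k, c k) := by ring
  rw [e8] at h'
  exact h'

namespace Fr

variable {N : ℕ} {a : ℝ} {ζ z : Fin N → ℂ}

/-- frames are symmetric in the critical points -/
theorem perm (h : Fr N a ζ z) (σ : Equiv.Perm (Fin N)) : Fr N a (ζ ∘ σ) z where
  a0 := h.a0
  a1 := h.a1
  hζ := fun k => h.hζ (σ k)
  hz := h.hz
  neζ := fun k => h.neζ (σ k)
  nez := h.nez
  sum := by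
    rw [← h.sum]
    exact Equiv.sum_comp σ fun k => ‖((a : ℂ) - ζ k)⁻¹‖
  der := fun w => by
    have e : ∏ k, (w - (ζ ∘ σ) k) = ∏ k, (w - ζ k) := Equiv.prod_comp σ fun k => w - ζ k
    rw [e]
    exact h.der w

end Fr

/-- any index can be moved to `0` -/
theorem exists_max {M : ℕ} {a : ℝ} {ζ z : Fin (M + 1) → ℂ} (h : Fr (M + 1) a ζ z) :
    ∃ ζ' : Fin (M + 1) → ℂ, Fr (M + 1) a ζ' z ∧ ∀ k, ‖Fr.u a ζ' k‖ ≤ ‖Fr.u a ζ' 0‖ := by
  obtain ⟨i, -, hi⟩ := Finset.exists_max_image (univ : Finset (Fin (M + 1)))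
    (fun k => ‖Fr.u a ζ k‖) univ_nonempty
  refine ⟨ζ ∘ Equiv.swap 0 i, h.perm _, fun k => ?_⟩
  have e : Fr.u a (ζ ∘ Equiv.swap 0 i) 0 = Fr.u a ζ i := by
    unfold Fr.u
    simp
  rw [e]
  exact hi _ (Finset.mem_univ _)

namespace Fr

/-- the tail of the critical points -/
noncomputable def ut {M : ℕ} (a : ℝ) (ζ : Fin (M + 1) → ℂ) (k : Fin M) : ℂ := u a ζ k.succ

/-- the hybrid criterion -/
theorem critS {M : ℕ} {a : ℝ} {ζ z : Fin (M + 1) → ℂ} (h : Fr (M + 1) a ζ z) (hM : 0 < M)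
    (hmax : ∀ k, ‖u a ζ k‖ ≤ ‖u a ζ 0‖) :
    1 ≤ ‖1 - (a : ℂ) * ((∑ k, ut a ζ k) / M)‖ *
        (‖1 - (a : ℂ) * u a ζ 0‖ * ∏ k, ‖1 - (a : ℂ) * ut a ζ k‖) +
      a * ∏ k, ‖u a ζ k‖ +
      ∫ s in (0:ℝ)..1, s * (a ^ 2 * (‖u a ζ 0‖ * ‖u a ζ 0 - (∑ k, ut a ζ k) / M‖) *
          ∏ k, ‖1 - (s : ℂ) * a * ut a ζ k‖ +
        ‖1 - (s : ℂ) * a * u a ζ 0‖ / (2 * M) * (a ^ 2 * ∑ k, ∑ j, ‖ut a ζ k - ut a ζ j‖ ^ 2 *
          ∏ l ∈ (univ.erase k).erase j, ‖1 - (s : ℂ) * a * ut a ζ l‖)) := by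
  have ha := h.a0
  have hM0 : (0 : ℝ) < M := by exact_mod_cast hM
  have hMc : (M : ℂ) ≠ 0 := by exact_mod_cast hM.ne'
  set y : Fin M → ℂ := fun k => (a : ℂ) * ut a ζ k with hy
  set m : ℂ := (a : ℂ) * ((∑ k, ut a ζ k) / M) with hm
  have h1 := XXS_ident ((a : ℂ) * u a ζ 0) y hM m (by
    rw [hm, hy, ← Finset.mul_sum]; field_simp)
  -- the norm of the T0 term
  have hmean : ∑ k, ‖ut a ζ k‖ ≤ M := by
    have h2 := h.mean
    rw [Fin.sum_univ_succ] at h2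
    have h3 : (1 : ℝ) ≤ ‖u a ζ 0‖ := by
      by_contra hcon
      push Not at hcon
      have h4 : ∑ k, ‖u a ζ k‖ < ∑ _k : Fin (M + 1), (1 : ℝ) :=
        Finset.sum_lt_sum_of_nonempty univ_nonempty fun k _ => (hmax k).trans_lt hcon
      rw [h.mean] at h4
      simp at h4
    push_cast at h2
    unfold ut
    linarith
  have hT : ‖((a : ℂ) * u a ζ 0 + (∑ k, y k) + m) *
      (∫ s in (0:ℝ)..1, (1 - s * ((a : ℂ) * u a ζ 0)) * qq y s)‖ ≤ a * ∏ k, ‖u a ζ k‖ := by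
    have e : ∀ s : ℝ, (1 - (s : ℂ) * ((a : ℂ) * u a ζ 0)) * qq y s =
        ∏ k, (1 - s * a * u a ζ k) := fun s => by
      rw [Fin.prod_univ_succ]
      unfold qq
      rw [hy]
      congr 1
      · ring
      · exact Finset.prod_congr rfl fun k _ => by unfold ut; ring
    simp only [e]
    have h2 := h.T0
    rw [norm_mul]
    have h3 : ‖(a : ℂ) * u a ζ 0 + (∑ k, y k) + m‖ ≤ a * ((M + 1 : ℕ) + 1) := by
      have h4 : ‖(a : ℂ) * u a ζ 0 + ∑ k, y k‖ ≤ a * (M + 1 : ℕ) := by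
        have e2 : (a : ℂ) * u a ζ 0 + ∑ k, y k = (a : ℂ) * ∑ k, u a ζ k := by
          rw [Fin.sum_univ_succ, hy, mul_add, ← Finset.mul_sum]
          rfl
        rw [e2, norm_mul, Complex.norm_real, Real.norm_of_nonneg ha.le]
        exact mul_le_mul_of_nonneg_left ((norm_sum_le _ _).trans (le_of_eq h.mean)) ha.le
      have h5 : ‖m‖ ≤ a := by
        rw [hm, norm_mul, norm_div, Complex.norm_real, Real.norm_of_nonneg ha.le,
          Complex.norm_natCast]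
        have h6 : ‖∑ k, ut a ζ k‖ / M ≤ 1 := by
          rw [div_le_one hM0]
          exact (norm_sum_le _ _).trans hmean
        nlinarith
      calc ‖(a : ℂ) * u a ζ 0 + (∑ k, y k) + m‖ ≤ ‖(a : ℂ) * u a ζ 0 + ∑ k, y k‖ + ‖m‖ :=
            norm_add_le _ _
        _ ≤ a * (M + 1 : ℕ) + a := add_le_add h4 h5
        _ = _ := by ring
    calc ‖(a : ℂ) * u a ζ 0 + (∑ k, y k) + m‖ * ‖∫ s in (0:ℝ)..1, ∏ k, (1 - (s : ℂ) * a * u a ζ k)‖ ≤
        (a * ((M + 1 : ℕ) + 1)) * ‖∫ s in (0:ℝ)..1, ∏ k, (1 - (s : ℂ) * a * u a ζ k)‖ :=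
          mul_le_mul_of_nonneg_right h3 (norm_nonneg _)
      _ = a * (((M + 1 : ℕ) + 1) * ‖∫ s in (0:ℝ)..1, ∏ k, (1 - (s : ℂ) * a * u a ζ k)‖) := by ring
      _ ≤ _ := mul_le_mul_of_nonneg_left h2 ha.le
  have hq : ∀ s : ℝ, ‖qq y s‖ = ∏ k, ‖1 - (s : ℂ) * a * ut a ζ k‖ := fun s => by
    unfold qq
    rw [norm_prod]
    exact Finset.prod_congr rfl fun k _ => by rw [hy, mul_assoc]
  have hI : ‖∫ s in (0:ℝ)..1, (s : ℂ) * ((a : ℂ) * u a ζ 0 * ((a : ℂ) * u a ζ 0 - m) * qq y s +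
        (1 - s * ((a : ℂ) * u a ζ 0)) / (2 * M) * ∑ k, ∑ j, (y k - y j) ^ 2 * q2 y k j s)‖ ≤
      ∫ s in (0:ℝ)..1, s * (a ^ 2 * (‖u a ζ 0‖ * ‖u a ζ 0 - (∑ k, ut a ζ k) / M‖) *
          ∏ k, ‖1 - (s : ℂ) * a * ut a ζ k‖ +
        ‖1 - (s : ℂ) * a * u a ζ 0‖ / (2 * M) * (a ^ 2 * ∑ k, ∑ j, ‖ut a ζ k - ut a ζ j‖ ^ 2 *
          ∏ l ∈ (univ.erase k).erase j, ‖1 - (s : ℂ) * a * ut a ζ l‖)) := by
    refine norm_int_le (by fun_prop) fun s hs => ?_
    rw [norm_mul, Complex.norm_real, Real.norm_of_nonneg hs.1]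
    refine mul_le_mul_of_nonneg_left ((norm_add_le _ _).trans (add_le_add ?_ ?_)) hs.1
    · rw [norm_mul, hq]
      refine mul_le_mul_of_nonneg_right (le_of_eq ?_)
        (Finset.prod_nonneg fun _ _ => norm_nonneg _)
      rw [hm, ← mul_sub, norm_mul, norm_mul, norm_mul, Complex.norm_real,
        Real.norm_of_nonneg ha.le]
      ring
    · rw [norm_mul, norm_div, norm_mul, Complex.norm_natCast]
      have e2 : ‖(2 : ℂ)‖ = 2 := by simp
      rw [e2]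
      have e3 : ‖1 - (s : ℂ) * ((a : ℂ) * u a ζ 0)‖ = ‖1 - (s : ℂ) * a * u a ζ 0‖ := by
        rw [mul_assoc]
      rw [e3]
      refine mul_le_mul_of_nonneg_left ?_ (by positivity)
      rw [Finset.mul_sum]
      refine (norm_sum_le _ _).trans (Finset.sum_le_sum fun k _ => ?_)
      rw [Finset.mul_sum]
      refine (norm_sum_le _ _).trans (le_of_eq ?_)
      refine Finset.sum_congr rfl fun j _ => ?_
      rw [norm_mul, norm_pow, hy, ← mul_sub, norm_mul, Complex.norm_real,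
        Real.norm_of_nonneg ha.le, mul_pow]
      unfold q2
      rw [norm_prod, mul_assoc]
      congr 2
      exact Finset.prod_congr rfl fun l _ => by rw [mul_assoc]
  have h4 := congrArg norm h1
  rw [norm_one] at h4
  refine h4.le.trans ((norm_add_le _ _).trans ?_)
  have h5 := norm_add_le ((1 - m) * ((1 - (a : ℂ) * u a ζ 0) * qq y 1))
    (((a : ℂ) * u a ζ 0 + (∑ k, y k) + m) *
      (∫ s in (0:ℝ)..1, (1 - s * ((a : ℂ) * u a ζ 0)) * qq y s))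
  have h6 : ‖(1 - m) * ((1 - (a : ℂ) * u a ζ 0) * qq y 1)‖ =
      ‖1 - m‖ * (‖1 - (a : ℂ) * u a ζ 0‖ * ∏ k, ‖1 - (a : ℂ) * ut a ζ k‖) := by
    rw [norm_mul, norm_mul]
    congr 2
    have := hq 1
    simpa using this
  rw [h6] at h5
  linarith

end Fr

end Pool.Agent.Lib.MP_172a45_an.F
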