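import Pool.Agent.Lib.MP_172a45_an.F.LPR

set_option autoImplicit false

/-!
# The `τ`-cell with one explicit index (helper13's jobs of type P)
-/

namespace Pool.Agent.Lib.MP_172a45_an.F

open Finset Real

/-- `AA` is convex in `τ` (it is the modulus of an affine function) -/
theorem AA_convex {y X t0 t1 u : ℝ} (hX0 : 0 ≤ X) (hX2 : X ≤ 2 * (1 + y)) (ht0 : 0 ≤ t0)
    (ht1 : 0 ≤ t1) (hu0 : 0 ≤ u) (hu1 : u ≤ 1) :
    AA y X ((1 - u) * t0 + u * t1) ≤ (1 - u) * AA y X t0 + u * AA y X t1 := by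
  simp only [AA_eq]
  set T := 1 + y with hT
  have h0 : 0 ≤ DD T X t0 := DD_nonneg hX0 ht0
  have h1 : 0 ≤ DD T X t1 := DD_nonneg hX0 ht1
  have hu1' : 0 ≤ 1 - u := by linarith
  have hA := Real.sqrt_nonneg (DD T X t0)
  have hB := Real.sqrt_nonneg (DD T X t1)
  have hA2 := Real.sq_sqrt h0
  have hB2 := Real.sq_sqrt h1
  set A := √(DD T X t0) with hAd
  set B := √(DD T X t1) with hBd
  rw [Real.sqrt_le_left (by positivity)]
  set C := 1 - (T - X) * (t0 + t1) + T ^ 2 * (t0 * t1) with hC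
  have e1 : DD T X ((1 - u) * t0 + u * t1) =
      (1 - u) ^ 2 * DD T X t0 + u ^ 2 * DD T X t1 + 2 * (u * (1 - u)) * C := by
    rw [hC]; unfold DD; ring
  have e2 : DD T X t0 * DD T X t1 - C ^ 2 = (T ^ 2 - (T - X) ^ 2) * (t0 - t1) ^ 2 := by
    rw [hC]; unfold DD; ring
  have h2 : 0 ≤ (T ^ 2 - (T - X) ^ 2) * (t0 - t1) ^ 2 := by
    refine mul_nonneg ?_ (sq_nonneg _)
    nlinarith
  have h3 : C ^ 2 ≤ (A * B) ^ 2 := by
    rw [mul_pow, hA2, hB2]; linarith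
  have h4 : C ≤ A * B := le_trans (le_abs_self C) (abs_le_of_sq_le_sq h3 (mul_nonneg hA hB))
  rw [e1, ← hA2, ← hB2]
  have h5 := mul_le_mul_of_nonneg_left h4 (by positivity : 0 ≤ 2 * (u * (1 - u)))
  nlinarith

/-- splitting off the index `k₀` -/
theorem sum_erase_split {N : ℕ} (k0 : Fin N) (w A : Fin N → ℝ) :
    ∑ k, w k * ∏ l ∈ univ.erase k, A l =
      w k0 * ∏ l ∈ univ.erase k0, A l +
        A k0 * ∑ k ∈ univ.erase k0, w k * ∏ l ∈ (univ.erase k0).erase k, A l := by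
  rw [← Finset.add_sum_erase univ _ (Finset.mem_univ k0), Finset.mul_sum]
  congr 1
  refine Finset.sum_congr rfl fun k hk => ?_
  have hk' : k ≠ k0 := (Finset.mem_erase.1 hk).1
  have h1 : k0 ∈ univ.erase k := Finset.mem_erase.2 ⟨hk'.symm, Finset.mem_univ _⟩
  rw [← Finset.mul_prod_erase (univ.erase k) _ h1, Finset.erase_right_comm]
  ring

/-- the pointwise inequality with an explicit index -/
theorem sum_prod_erase_P {N : ℕ} (k0 : Fin N) (A w : Fin N → ℝ) (hA : ∀ k, 0 ≤ A k)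
    (hw : ∀ k, 0 < w k) {x F : ℝ} (hx : 0 < x) (hF : 0 < F) (hAF : A k0 ≤ F) :
    ∑ k, w k * ∏ l ∈ univ.erase k, A l ≤
      x * Real.exp (-1) * F * Real.exp (w k0 / (x * F) + ∑ l ∈ univ.erase k0, Psi (A l) (w l / x)) := by
  set S := (univ : Finset (Fin N)).erase k0 with hS
  set M : Fin N → ℝ := fun l => max (A l) (w l / x) with hM
  have hM0 : ∀ k, 0 < M k := fun k =>
    lt_of_lt_of_le (div_pos (hw k) hx) (le_max_right _ _)
  have hAM : ∀ k, A k ≤ M k := fun k => le_max_left _ _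
  have hPM : 0 < ∏ l ∈ S, M l := Finset.prod_pos fun l _ => hM0 l
  have h1 : ∏ l ∈ S, A l ≤ ∏ l ∈ S, M l :=
    Finset.prod_le_prod (fun l _ => hA l) fun l _ => hAM l
  have h2 : ∑ k ∈ S, w k * ∏ l ∈ S.erase k, A l ≤ (∏ l ∈ S, M l) * ∑ k ∈ S, w k / M k := by
    rw [Finset.mul_sum]
    refine Finset.sum_le_sum fun k hk => ?_
    have h3 : ∏ l ∈ S.erase k, A l ≤ ∏ l ∈ S.erase k, M l :=
      Finset.prod_le_prod (fun l _ => hA l) fun l _ => hAM l
    have h4 : ∏ l ∈ S, M l = M k * ∏ l ∈ S.erase k, M l := (Finset.mul_prod_erase S _ hk).symm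
    rw [h4]
    have := (hM0 k).ne'
    calc w k * ∏ l ∈ S.erase k, A l ≤ w k * ∏ l ∈ S.erase k, M l :=
          mul_le_mul_of_nonneg_left h3 (hw k).le
      _ = _ := by field_simp
  have h5 : 0 ≤ ∑ k ∈ S, w k / M k := Finset.sum_nonneg fun k _ => (div_pos (hw k) (hM0 k)).le
  rw [sum_erase_split k0]
  have h6 : w k0 * ∏ l ∈ S, A l + A k0 * ∑ k ∈ S, w k * ∏ l ∈ S.erase k, A l ≤
      (∏ l ∈ S, M l) * (w k0 + F * ∑ k ∈ S, w k / M k) := by
    have h7 := mul_le_mul_of_nonneg_left h1 (hw k0).le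
    have h8 : A k0 * ∑ k ∈ S, w k * ∏ l ∈ S.erase k, A l ≤
        F * ((∏ l ∈ S, M l) * ∑ k ∈ S, w k / M k) :=
      mul_le_mul hAF h2 (Finset.sum_nonneg fun k _ => mul_nonneg (hw k).le
        (Finset.prod_nonneg fun l _ => hA l)) hF.le
    nlinarith
  refine h6.trans ?_
  have h9 : w k0 + F * ∑ k ∈ S, w k / M k ≤
      x * F * Real.exp (-1 + (w k0 / (x * F) + (∑ k ∈ S, w k / M k) / x)) := by
    have h10 := Real.add_one_le_exp (-1 + (w k0 / (x * F) + (∑ k ∈ S, w k / M k) / x))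
    have h11 : w k0 + F * ∑ k ∈ S, w k / M k =
        x * F * (-1 + (w k0 / (x * F) + (∑ k ∈ S, w k / M k) / x) + 1) := by
      field_simp
      ring
    rw [h11]
    exact mul_le_mul_of_nonneg_left h10 (by positivity)
  have h12 : Real.exp (∑ l ∈ S, Psi (A l) (w l / x)) =
      (∏ l ∈ S, M l) * Real.exp ((∑ k ∈ S, w k / M k) / x) := by
    rw [Finset.sum_div, Real.exp_sum, Real.exp_sum, ← Finset.prod_mul_distrib]
    refine Finset.prod_congr rfl fun l _ => ?_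
    unfold Psi
    rw [Real.exp_add, Real.exp_log (hM0 l)]
    congr 2
    rw [div_div, div_div, mul_comm]
  calc (∏ l ∈ S, M l) * (w k0 + F * ∑ k ∈ S, w k / M k) ≤
      (∏ l ∈ S, M l) * (x * F * Real.exp (-1 + (w k0 / (x * F) + (∑ k ∈ S, w k / M k) / x))) :=
        mul_le_mul_of_nonneg_left h9 hPM.le
    _ = _ := by
      rw [Real.exp_add (w k0 / (x * F)), h12, Real.exp_add (-1), Real.exp_add (w k0 / (x * F))]
      ring

/-- sums over a finset of the linear bounds on the cell -/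
theorem sum_lin_le_S {N : ℕ} (S : Finset (Fin N)) {T X g al : Fin N → ℝ} {t0 t1 u : ℝ}
    (hal : ∀ l, 0 ≤ al l) (hu0 : 0 ≤ u) (hu1 : u ≤ 1) :
    ∑ l ∈ S, (g l + al l * DD (T l) (X l) ((1 - u) * t0 + u * t1)) ≤
      (1 - u) * ∑ l ∈ S, (g l + al l * DD (T l) (X l) t0) +
        u * ∑ l ∈ S, (g l + al l * DD (T l) (X l) t1) := by
  rw [Finset.mul_sum, Finset.mul_sum, ← Finset.sum_add_distrib]
  refine Finset.sum_le_sum fun l _ => ?_
  have e : (1 - u) * DD (T l) (X l) t0 + u * DD (T l) (X l) t1 -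
      DD (T l) (X l) ((1 - u) * t0 + u * t1) = T l ^ 2 * (u * (1 - u) * (t0 - t1) ^ 2) := by
    unfold DD; ring
  have h1 : 0 ≤ T l ^ 2 * (u * (1 - u) * (t0 - t1) ^ 2) := by
    have : 0 ≤ 1 - u := by linarith
    positivity
  have h2 := mul_nonneg (hal l) h1
  rw [← e] at h2
  nlinarith

/-- the reciprocal of an affine function is convex -/
theorem inv_convex {Fa Fb u : ℝ} (hFa : 0 < Fa) (hFb : 0 < Fb) (hu0 : 0 ≤ u) (hu1 : u ≤ 1) :
    1 / ((1 - u) * Fa + u * Fb) ≤ (1 - u) * (1 / Fa) + u * (1 / Fb) := by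
  have hu1' : 0 ≤ 1 - u := by linarith
  have hF : 0 < (1 - u) * Fa + u * Fb := by
    rcases hu0.eq_or_lt with h | h
    · rw [← h]; simpa using hFa
    · have := mul_nonneg hu1' hFa.le
      have := mul_pos h hFb
      linarith
  rw [div_le_iff₀ hF]
  have e : ((1 - u) * (1 / Fa) + u * (1 / Fb)) * ((1 - u) * Fa + u * Fb) - 1 =
      u * (1 - u) * (Fa - Fb) ^ 2 / (Fa * Fb) := by
    field_simp
    ring
  have h : 0 ≤ u * (1 - u) * (Fa - Fb) ^ 2 / (Fa * Fb) := by positivity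
  linarith

/-- the integral of the product of `τ` and two affine functions -/
theorem int_cubic {t0 t1 Fa Fb Ha Hb : ℝ} (h01 : t0 < t1) :
    ∫ τ in t0..t1, τ * (((t1 - τ) / (t1 - t0) * Fa + (τ - t0) / (t1 - t0) * Fb) *
      ((t1 - τ) / (t1 - t0) * Ha + (τ - t0) / (t1 - t0) * Hb)) =
      (t1 - t0) / 12 * ((3 * t0 + t1) * (Fa * Ha) + (t0 + t1) * (Fa * Hb + Fb * Ha) +
        (t0 + 3 * t1) * (Fb * Hb)) := by
  have hh : t1 - t0 ≠ 0 := by linarith
  have e : ∀ τ : ℝ, τ * (((t1 - τ) / (t1 - t0) * Fa + (τ - t0) / (t1 - t0) * Fb) *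
      ((t1 - τ) / (t1 - t0) * Ha + (τ - t0) / (t1 - t0) * Hb)) =
      ((t1 * Fa - t0 * Fb) * (t1 * Ha - t0 * Hb) / (t1 - t0) ^ 2) * τ +
      ((Fb - Fa) * (t1 * Ha - t0 * Hb) + (t1 * Fa - t0 * Fb) * (Hb - Ha)) / (t1 - t0) ^ 2 *
        τ ^ 2 + ((Fb - Fa) * (Hb - Ha) / (t1 - t0) ^ 2) * τ ^ 3 := by
    intro τ
    field_simp
    ring
  simp only [e]
  have c1 : ∀ c : ℝ, Continuous fun τ : ℝ => c * τ := fun c => by fun_prop
  have c2 : ∀ c : ℝ, Continuous fun τ : ℝ => c * τ ^ 2 := fun c => by fun_prop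
  have c3 : ∀ c : ℝ, Continuous fun τ : ℝ => c * τ ^ 3 := fun c => by fun_prop
  have c12 : ∀ c d : ℝ, Continuous fun τ : ℝ => c * τ + d * τ ^ 2 := fun c d => by fun_prop
  rw [intervalIntegral.integral_add ((c12 _ _).intervalIntegrable _ _)
      ((c3 _).intervalIntegrable _ _),
    intervalIntegral.integral_add ((c1 _).intervalIntegrable _ _)
      ((c2 _).intervalIntegrable _ _), intervalIntegral.integral_const_mul,
    intervalIntegral.integral_const_mul, intervalIntegral.integral_const_mul, integral_id,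
    integral_pow, integral_pow]
  push_cast
  field_simp
  ring

/-- (L5P) the `τ`-cell with an explicit index -/
theorem L5P {N : ℕ} {y X g al : Fin N → ℝ} (k0 : Fin N) {t0 t1 x0 Fa Fb Ha Hb : ℝ}
    (hy : ∀ l, 0 ≤ y l) (hX0 : 0 ≤ X k0) (hX2 : X k0 ≤ 2 * (1 + y k0))
    (ht0 : 0 ≤ t0) (h01 : t0 < t1) (hx0 : 0 < x0) (hal : ∀ l, 0 ≤ al l)
    (hFa : 0 < Fa) (hFb : 0 < Fb) (hHa : 0 < Ha) (hHb : 0 < Hb)
    (hAa : AA (y k0) (X k0) t0 ≤ Fa) (hAb : AA (y k0) (X k0) t1 ≤ Fb)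
    (hlin : ∀ τ, t0 ≤ τ → τ ≤ t1 → ∀ l, l ≠ k0 →
      Psi (AA (y l) (X l) τ) ((1 + y l) ^ 2 / x0) ≤ g l + al l * DD (1 + y l) (X l) τ)
    (ha : (1 + y k0) ^ 2 / (x0 * Fa) +
      ∑ l ∈ univ.erase k0, (g l + al l * DD (1 + y l) (X l) t0) ≤ Real.log Ha)
    (hb : (1 + y k0) ^ 2 / (x0 * Fb) +
      ∑ l ∈ univ.erase k0, (g l + al l * DD (1 + y l) (X l) t1) ≤ Real.log Hb) :
    ∫ τ in t0..t1, τ * ∑ k, (1 + y k) ^ 2 * ∏ l ∈ univ.erase k, AA (y l) (X l) τ ≤
      x0 * Real.exp (-1) * ((t1 - t0) / 12 * ((3 * t0 + t1) * (Fa * Ha) +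
        (t0 + t1) * (Fa * Hb + Fb * Ha) + (t0 + 3 * t1) * (Fb * Hb))) := by
  have hh : 0 < t1 - t0 := sub_pos.2 h01
  have hcont : Continuous fun τ : ℝ => τ * ∑ k, (1 + y k) ^ 2 *
      ∏ l ∈ univ.erase k, AA (y l) (X l) τ := by
    unfold AA
    fun_prop
  have hpt : ∀ τ ∈ Set.Icc t0 t1, τ * ∑ k, (1 + y k) ^ 2 *
      ∏ l ∈ univ.erase k, AA (y l) (X l) τ ≤
      x0 * Real.exp (-1) * (τ * (((t1 - τ) / (t1 - t0) * Fa + (τ - t0) / (t1 - t0) * Fb) *
        ((t1 - τ) / (t1 - t0) * Ha + (τ - t0) / (t1 - t0) * Hb))) := by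
    intro τ hτ
    have hτ0 : 0 ≤ τ := ht0.trans hτ.1
    set u := (τ - t0) / (t1 - t0) with hu
    have hu0 : 0 ≤ u := div_nonneg (sub_nonneg.2 hτ.1) hh.le
    have hu1 : u ≤ 1 := by rw [hu, div_le_one hh]; linarith [hτ.2]
    have hu' : (t1 - τ) / (t1 - t0) = 1 - u := by rw [hu]; field_simp; ring
    have hτu : τ = (1 - u) * t0 + u * t1 := by rw [hu]; field_simp; ring
    rw [hu']
    have hu1' : 0 ≤ 1 - u := by linarith
    set F := (1 - u) * Fa + u * Fb with hF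
    have hFpos : 0 < F := by
      rcases hu0.eq_or_lt with h | h
      · rw [hF, ← h]; simpa using hFa
      · have := mul_nonneg hu1' hFa.le
        have := mul_pos h hFb
        rw [hF]; linarith
    have hAF : AA (y k0) (X k0) τ ≤ F := by
      have h1 := AA_convex hX0 hX2 ht0 (ht0.trans h01.le) hu0 hu1
      rw [← hτu] at h1
      refine h1.trans ?_
      rw [hF]
      exact add_le_add (mul_le_mul_of_nonneg_left hAa hu1') (mul_le_mul_of_nonneg_left hAb hu0)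
    have h1 := sum_prod_erase_P k0 (fun l => AA (y l) (X l) τ) (fun l => (1 + y l) ^ 2)
      (fun l => Real.sqrt_nonneg _) (fun l => by have := hy l; positivity) hx0 hFpos hAF
    have h2 : ∑ l ∈ univ.erase k0, Psi (AA (y l) (X l) τ) ((1 + y l) ^ 2 / x0) ≤
        (1 - u) * ∑ l ∈ univ.erase k0, (g l + al l * DD (1 + y l) (X l) t0) +
        u * ∑ l ∈ univ.erase k0, (g l + al l * DD (1 + y l) (X l) t1) := by
      refine (Finset.sum_le_sum fun l hl => hlin τ hτ.1 hτ.2 l (Finset.mem_erase.1 hl).1).trans ?_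
      have := sum_lin_le_S (univ.erase k0) (T := fun l => 1 + y l) (X := X) (g := g) (al := al)
        (t0 := t0) (t1 := t1) hal hu0 hu1
      rwa [← hτu] at this
    have h3 : (1 + y k0) ^ 2 / (x0 * F) ≤ (1 - u) * ((1 + y k0) ^ 2 / (x0 * Fa)) +
        u * ((1 + y k0) ^ 2 / (x0 * Fb)) := by
      have h4 := inv_convex hFa hFb hu0 hu1
      have h5 := mul_le_mul_of_nonneg_left h4 (by positivity : 0 ≤ (1 + y k0) ^ 2 / x0)
      have e1 : (1 + y k0) ^ 2 / (x0 * F) = (1 + y k0) ^ 2 / x0 * (1 / F) := by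
        field_simp
      have e2 : (1 - u) * ((1 + y k0) ^ 2 / (x0 * Fa)) + u * ((1 + y k0) ^ 2 / (x0 * Fb)) =
          (1 + y k0) ^ 2 / x0 * ((1 - u) * (1 / Fa) + u * (1 / Fb)) := by
        field_simp
      rw [e1, e2]
      exact h5
    have h6 : (1 + y k0) ^ 2 / (x0 * F) +
        ∑ l ∈ univ.erase k0, Psi (AA (y l) (X l) τ) ((1 + y l) ^ 2 / x0) ≤
        (1 - u) * Real.log Ha + u * Real.log Hb := by
      have h7 := mul_le_mul_of_nonneg_left ha hu1'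
      have h8 := mul_le_mul_of_nonneg_left hb hu0
      linarith
    have h9 : Real.exp ((1 + y k0) ^ 2 / (x0 * F) +
        ∑ l ∈ univ.erase k0, Psi (AA (y l) (X l) τ) ((1 + y l) ^ 2 / x0)) ≤
        (1 - u) * Ha + u * Hb := by
      refine (Real.exp_le_exp.2 h6).trans ((exp_comb_le hu1' hu0 (by ring)).trans (le_of_eq ?_))
      rw [Real.exp_log hHa, Real.exp_log hHb]
    calc τ * ∑ k, (1 + y k) ^ 2 * ∏ l ∈ univ.erase k, AA (y l) (X l) τ ≤
        τ * (x0 * Real.exp (-1) * F * ((1 - u) * Ha + u * Hb)) :=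
          mul_le_mul_of_nonneg_left (h1.trans (mul_le_mul_of_nonneg_left h9 (by positivity))) hτ0
      _ = _ := by ring
  have hc2 : Continuous fun τ : ℝ => x0 * Real.exp (-1) *
      (τ * (((t1 - τ) / (t1 - t0) * Fa + (τ - t0) / (t1 - t0) * Fb) *
        ((t1 - τ) / (t1 - t0) * Ha + (τ - t0) / (t1 - t0) * Hb))) := by
    fun_prop
  have hint := intervalIntegral.integral_mono_on (μ := MeasureTheory.volume) h01.le
    (hcont.intervalIntegrable t0 t1) (hc2.intervalIntegrable t0 t1) hpt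
  refine hint.trans (le_of_eq ?_)
  rw [intervalIntegral.integral_const_mul, int_cubic h01]

/-- (L5P') the product over a set of indices -/
theorem L5S' {N : ℕ} (S : Finset (Fin N)) {y X g al : Fin N → ℝ} {t0 t1 τ Ga Gb : ℝ}
    (h01 : t0 < t1) (h0 : t0 ≤ τ) (h1 : τ ≤ t1) (hal : ∀ l, 0 ≤ al l)
    (hGa : 0 < Ga) (hGb : 0 < Gb)
    (hlin : ∀ l ∈ S, 0 < DD (1 + y l) (X l) τ → 1 / 2 * Real.log (DD (1 + y l) (X l) τ) ≤
      g l + al l * DD (1 + y l) (X l) τ)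
    (ha : ∑ l ∈ S, (g l + al l * DD (1 + y l) (X l) t0) ≤ Real.log Ga)
    (hb : ∑ l ∈ S, (g l + al l * DD (1 + y l) (X l) t1) ≤ Real.log Gb) :
    ∏ l ∈ S, AA (y l) (X l) τ ≤ max Ga Gb := by
  have hh : 0 < t1 - t0 := sub_pos.2 h01
  have hGM : 0 < max Ga Gb := lt_max_of_lt_left hGa
  by_cases hpos : ∀ l ∈ S, 0 < DD (1 + y l) (X l) τ
  · have e : ∏ l ∈ S, AA (y l) (X l) τ =
        Real.exp (∑ l ∈ S, 1 / 2 * Real.log (DD (1 + y l) (X l) τ)) := by
      rw [Real.exp_sum]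
      refine Finset.prod_congr rfl fun l hl => ?_
      rw [AA_eq, one_div, mul_comm, ← div_eq_mul_inv, ← Real.log_sqrt (hpos l hl).le,
        Real.exp_log (Real.sqrt_pos.2 (hpos l hl))]
    rw [e, ← Real.le_log_iff_exp_le hGM]
    set u := (τ - t0) / (t1 - t0) with hu
    have hu0 : 0 ≤ u := div_nonneg (sub_nonneg.2 h0) hh.le
    have hu1 : u ≤ 1 := by rw [hu, div_le_one hh]; linarith
    have hτu : τ = (1 - u) * t0 + u * t1 := by rw [hu]; field_simp; ring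
    have hu1' : 0 ≤ 1 - u := by linarith
    have h2 := sum_lin_le_S S (T := fun l => 1 + y l) (X := X) (g := g) (al := al)
        (t0 := t0) (t1 := t1) hal hu0 hu1
    rw [← hτu] at h2
    have h3 := Finset.sum_le_sum fun l hl => hlin l hl (hpos l hl)
    have h4 := mul_le_mul_of_nonneg_left (ha.trans (Real.log_le_log hGa (le_max_left Ga Gb))) hu1'
    have h5 := mul_le_mul_of_nonneg_left (hb.trans (Real.log_le_log hGb (le_max_right Ga Gb))) hu0
    linarith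
  · push Not at hpos
    obtain ⟨l, hlS, hl⟩ := hpos
    have h2 : AA (y l) (X l) τ = 0 := by
      rw [AA_eq, Real.sqrt_eq_zero']; exact hl
    rw [Finset.prod_eq_zero hlS h2]
    exact hGM.le

end Pool.Agent.Lib.MP_172a45_an.F
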