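import Pool.Agent.Lib.MP_172a45_an.F.Vec

set_option autoImplicit false

/-!
# Real lemmas for the LP certificates (helper13)
-/

namespace Pool.Agent.Lib.MP_172a45_an.F

open Finset Real

/-! ### logarithm bounds -/

/-- `log x ≤ q` from a partial sum of `exp q` -/
theorem log_le_of_sum {x q : ℝ} (n : ℕ) (hx : 0 < x) (hq : 0 ≤ q)
    (h : x ≤ ∑ i ∈ Finset.range n, q ^ i / (i.factorial : ℝ)) : Real.log x ≤ q := by
  rw [Real.log_le_iff_le_exp hx]
  exact h.trans (Real.sum_le_exp_of_nonneg hq n)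

/-- tangent line of the logarithm -/
theorem log_le_tangent {x p q : ℝ} (hx : 0 < x) (hp : 0 < p) (hq : Real.log p ≤ q) :
    Real.log x ≤ q + (x - p) / p := by
  have h1 := Real.log_le_sub_one_of_pos (div_pos hx hp)
  rw [Real.log_div hx.ne' hp.ne'] at h1
  have e : x / p - 1 = (x - p) / p := by field_simp
  linarith

/-- `log x ≤ L - 1 + δ x` for `L ≥ -log δ` -/
theorem log_le_del {x del L : ℝ} (hx : 0 < x) (hd : 0 < del) (hL : -Real.log del ≤ L) :
    Real.log x ≤ L - 1 + del * x := by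
  have h1 := Real.log_le_sub_one_of_pos (mul_pos hd hx)
  rw [Real.log_mul hd.ne' hx.ne'] at h1
  linarith

theorem mono_aux {f f' : ℝ → ℝ} {I : Set ℝ} (hI : Convex ℝ I) (hf : ∀ x ∈ I, HasDerivAt f (f' x) x)
    (h0 : ∀ x ∈ I, 0 ≤ f' x) : MonotoneOn f I := by
  refine monotoneOn_of_deriv_nonneg hI (fun x hx => (hf x hx).continuousAt.continuousWithinAt)
    (fun x hx => (hf x (interior_subset hx)).differentiableAt.differentiableWithinAt)
    fun x hx => ?_
  rw [(hf x (interior_subset hx)).deriv]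
  exact h0 x (interior_subset hx)

/-- (C1) -/
theorem log_le_C1 {r : ℝ} (hr : 1 ≤ r) : Real.log r ≤ r ^ 2 / 6 + 1 / 2 - 2 / (3 * r) := by
  have hm : MonotoneOn (fun x : ℝ => x ^ 2 / 6 + 1 / 2 - 2 / (3 * x) - Real.log x) (Set.Ici 1) := by
    refine mono_aux (f' := fun x => 2 * x / 6 + 2 / (3 * x ^ 2) - 1 / x) (convex_Ici 1) ?_ ?_
    · intro x hx
      have hx1 : (1:ℝ) ≤ x := hx
      have hx0 : x ≠ 0 := by linarith
      have h1 : HasDerivAt (fun x : ℝ => x ^ 2 / 6 + 1 / 2) (2 * x / 6) x := by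
        have := (((hasDerivAt_id x).pow 2).div_const 6).add_const (1/2 : ℝ)
        refine this.congr_deriv ?_
        simp
      have h2 : HasDerivAt (fun x : ℝ => 2 / (3 * x)) (-(2 / (3 * x ^ 2))) x := by
        have := ((hasDerivAt_id x).const_mul (3:ℝ)).inv (by simpa using hx0)
        have h3 := this.const_mul (2:ℝ)
        refine h3.congr_deriv ?_
        simp only [id]
        field_simp
      have h3 := (h1.sub h2).sub (Real.hasDerivAt_log hx0)
      refine h3.congr_deriv ?_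
      rw [one_div]
      ring
    · intro x hx
      have hx1 : (1:ℝ) ≤ x := hx
      have hx0 : 0 < x := by linarith
      have e : 2 * x / 6 + 2 / (3 * x ^ 2) - 1 / x = (x - 1) ^ 2 * (x + 2) / (3 * x ^ 2) := by
        field_simp
        ring
      rw [e]
      positivity
  have h := hm (Set.mem_Ici.2 le_rfl) (Set.mem_Ici.2 hr) hr
  simp only [Real.log_one] at h
  norm_num at h
  linarith

/-- (C2) -/
theorem log_le_C2 {r : ℝ} (hr0 : 0 < r) (hr : r ≤ 1) :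
    Real.log r ≤ 3 / 2 * (r ^ 2 - 1) / (1 + r + r ^ 2) := by
  have hm : MonotoneOn (fun x : ℝ => Real.log x - 3 / 2 * (x ^ 2 - 1) / (1 + x + x ^ 2))
      (Set.Ioi 0) := by
    refine mono_aux (f' := fun x => x⁻¹ - (3 / 2 * (2 * x) * (1 + x + x ^ 2) -
      3 / 2 * (x ^ 2 - 1) * (1 + 2 * x)) / (1 + x + x ^ 2) ^ 2) (convex_Ioi 0) ?_ ?_
    · intro x hx
      have hx0 : (0:ℝ) < x := hx
      have h1 : HasDerivAt (fun x : ℝ => 3 / 2 * (x ^ 2 - 1)) (3 / 2 * (2 * x)) x := by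
        have := (((hasDerivAt_id x).pow 2).sub_const 1).const_mul (3/2 : ℝ)
        refine this.congr_deriv ?_
        simp
      have h2 : HasDerivAt (fun x : ℝ => 1 + x + x ^ 2) (1 + 2 * x) x := by
        have := ((hasDerivAt_id x).const_add 1).add ((hasDerivAt_id x).pow 2)
        refine this.congr_deriv ?_
        simp
      exact (Real.hasDerivAt_log hx0.ne').sub (h1.div h2 (by positivity))
    · intro x hx
      have hx0 : (0:ℝ) < x := hx
      have e : x⁻¹ - (3 / 2 * (2 * x) * (1 + x + x ^ 2) -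
          3 / 2 * (x ^ 2 - 1) * (1 + 2 * x)) / (1 + x + x ^ 2) ^ 2 =
          (x - 1) ^ 2 * (2 * x ^ 2 + 5 * x + 2) / (2 * x * (1 + x + x ^ 2) ^ 2) := by
        have : 1 + x + x ^ 2 ≠ 0 := by positivity
        field_simp
        ring
      rw [e]
      positivity
  have h := hm (Set.mem_Ioi.2 hr0) (Set.mem_Ioi.2 zero_lt_one) hr
  simp only [Real.log_one] at h
  norm_num at h
  linarith

theorem log_two_fifths : Real.log (2 / 5) ≤ -(9 / 10) := by
  have h1 : Real.log (2 / 5) = -Real.log (5 / 2) := by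
    rw [← Real.log_inv]; norm_num
  rw [h1]
  have h2 : 9 / 10 ≤ Real.log (5 / 2) := by
    rw [Real.le_log_iff_exp_le (by norm_num)]
    have h3 := Real.exp_bound' (x := 9 / 10) (by norm_num) (by norm_num) (n := 6) (by norm_num)
    refine h3.trans ?_
    norm_num [Finset.sum_range_succ, Nat.factorial]
  linarith

/-- the basic inequality behind (L1a) -/
theorem log_le_om {r om : ℝ} (hr0 : 0 < r) (_hom0 : 0 ≤ om) (hr : om ≤ r)
    (h : om ≤ 2 / 5 ∨ (om ≤ 2 / 3 ∧ om ≤ (1 - om) * (r ^ 2 + r))) :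
    Real.log r ≤ (r ^ 2 - 1) / 2 - om * ((r - 1) ^ 2 * (r + 2) / (2 * r)) := by
  have hcoef : 0 ≤ (r - 1) ^ 2 * (r + 2) / (2 * r) := by positivity
  rcases le_total 1 r with h1 | h1
  · -- r ≥ 1
    have hom : om ≤ 2 / 3 := by
      rcases h with h | ⟨h, -⟩ <;> linarith
    have h2 := log_le_C1 h1
    have h3 := mul_le_mul_of_nonneg_right hom hcoef
    have e : (r ^ 2 - 1) / 2 - 2 / 3 * ((r - 1) ^ 2 * (r + 2) / (2 * r)) =
        r ^ 2 / 6 + 1 / 2 - 2 / (3 * r) := by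
      field_simp
      ring
    linarith
  · -- r ≤ 1
    have key : om ≤ (r ^ 2 + r) / (1 + r + r ^ 2) → Real.log r ≤
        (r ^ 2 - 1) / 2 - om * ((r - 1) ^ 2 * (r + 2) / (2 * r)) := by
      intro hom
      have h2 := log_le_C2 hr0 h1
      have h3 := mul_le_mul_of_nonneg_right hom hcoef
      have e : (r ^ 2 - 1) / 2 - (r ^ 2 + r) / (1 + r + r ^ 2) *
          ((r - 1) ^ 2 * (r + 2) / (2 * r)) = 3 / 2 * (r ^ 2 - 1) / (1 + r + r ^ 2) := by
        have : 1 + r + r ^ 2 ≠ 0 := by positivity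
        field_simp
        ring
      linarith
    rcases h with h | ⟨-, h⟩
    · rcases le_total (2 / 3) (r ^ 2 + r) with h2 | h2
      · refine key ?_
        rw [le_div_iff₀ (by positivity)]
        nlinarith
      · -- r ≤ .46
        have hr46 : r ≤ 46 / 100 := by nlinarith
        have h3 := log_le_tangent hr0 (by norm_num : (0:ℝ) < 2 / 5) log_two_fifths
        have h4 : -(9 / 10) + (r - 2 / 5) / (2 / 5) = 5 / 2 * r - 19 / 10 := by ring
        rw [h4] at h3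
        rcases le_total r (2 / 5) with h5 | h5
        · -- om ≤ r
          have h6 := mul_le_mul_of_nonneg_right hr hcoef
          have e : (r ^ 2 - 1) / 2 - r * ((r - 1) ^ 2 * (r + 2) / (2 * r)) =
              -((1 - r) * (3 - r ^ 2)) / 2 := by
            field_simp
            ring
          have h7 : 5 / 2 * r - 19 / 10 ≤ -((1 - r) * (3 - r ^ 2)) / 2 := by
            nlinarith [sq_nonneg r, mul_pos hr0 hr0]
          linarith
        · have h6 := mul_le_mul_of_nonneg_right h hcoef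
          have e : (r ^ 2 - 1) / 2 - 2 / 5 * ((r - 1) ^ 2 * (r + 2) / (2 * r)) -
              (5 / 2 * r - 19 / 10) = (3 / 10 * r ^ 3 - 5 / 2 * r ^ 2 + 2 * r - 2 / 5) / r := by
            field_simp
            ring
          have h7 : 0 ≤ (3 / 10 * r ^ 3 - 5 / 2 * r ^ 2 + 2 * r - 2 / 5) / r := by
            refine div_nonneg ?_ hr0.le
            nlinarith [mul_nonneg (sub_nonneg.2 h5) (sub_nonneg.2 hr46),
              mul_nonneg (mul_nonneg (sub_nonneg.2 h5) (sub_nonneg.2 hr46)) hr0.le]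
          linarith
    · refine key ?_
      rw [le_div_iff₀ (by positivity)]
      nlinarith

/-- (L1a) -/
theorem L1a {r w A rm : ℝ} (hr : 0 < r) (hw : 0 < w) (_hA : 0 ≤ A) (hrm0 : 0 ≤ rm)
    (hrm : rm ≤ A * r)
    (h : w * r ≤ 2 / 5 ∨ (w * r ≤ 2 / 3 ∧ w * r ≤ rm ∧ w * r ≤ (1 - w * r) * (rm ^ 2 + rm))) :
    Psi A w ≤ -Real.log r - 1 / 2 + 3 / 2 * r * w + 1 / 2 * r ^ 2 * (1 - w * r) * A ^ 2 := by
  set om := w * r with hom
  have hom0 : 0 < om := mul_pos hw hr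
  rcases le_total w A with hwA | hwA
  · have hA0 : 0 < A := hw.trans_le hwA
    unfold Psi
    rw [max_eq_left hwA]
    have hρ : 0 < A * r := mul_pos hA0 hr
    have h1 : om ≤ A * r := mul_le_mul_of_nonneg_right hwA hr.le
    have h2 := log_le_om hρ hom0.le h1 (by
      rcases h with h | ⟨h3, h4, h5⟩
      · exact Or.inl h
      · right
        refine ⟨h3, h5.trans ?_⟩
        refine mul_le_mul_of_nonneg_left ?_ (by linarith)
        nlinarith)
    rw [Real.log_mul hA0.ne' hr.ne'] at h2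
    have e1 : w / A = om / (A * r) := by
      rw [hom]; field_simp
    rw [e1]
    set ρ := A * r with hρd
    have e2 : -Real.log r - 1 / 2 + 3 / 2 * r * w + 1 / 2 * r ^ 2 * (1 - om) * A ^ 2 =
        -Real.log r + ((ρ ^ 2 - 1) / 2 - om * ((ρ - 1) ^ 2 * (ρ + 2) / (2 * ρ))) + om / ρ := by
      have e3 : 3 / 2 * r * w = 3 / 2 * om := by rw [hom]; ring
      have e4 : 1 / 2 * r ^ 2 * (1 - om) * A ^ 2 = 1 / 2 * (1 - om) * ρ ^ 2 := by rw [hρd]; ring
      rw [e3, e4]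
      field_simp
      ring
    rw [e2]
    linarith
  · unfold Psi
    rw [max_eq_right hwA, div_self hw.ne']
    have h1 : Real.log w = Real.log om - Real.log r := by
      rw [hom, Real.log_mul hw.ne' hr.ne']; ring
    have hpos : 0 ≤ 1 / 2 * r ^ 2 * (1 - om) * A ^ 2 := by
      have : 0 ≤ 1 - om := by rcases h with h | ⟨h, -⟩ <;> linarith
      positivity
    have e3 : 3 / 2 * r * w = 3 / 2 * om := by rw [hom]; ring
    rcases h with h | ⟨h3, h4, h5⟩
    · -- om ≤ 2/5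
      have h2 := log_le_tangent hom0 (by norm_num : (0:ℝ) < 2 / 5) log_two_fifths
      have h6 : Real.log om ≤ 3 / 2 * om - 3 / 2 := by
        have h7 : -(9 / 10) + (om - 2 / 5) / (2 / 5) = 5 / 2 * om - 19 / 10 := by ring
        rw [h7] at h2
        linarith
      linarith
    · -- then `ρ ≥ om`, so `A ≥ w`
      have h6 : w * r ≤ A * r := h4.trans hrm
      have h7 : w ≤ A := le_of_mul_le_mul_right h6 hr
      have h8 : A = w := le_antisymm hwA h7
      have h2 := log_le_om hom0 hom0.le le_rfl (Or.inr ⟨h3, h5.trans (by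
        refine mul_le_mul_of_nonneg_left ?_ (by linarith)
        have : rm ≤ om := by rw [hom, ← h8]; exact hrm
        nlinarith)⟩)
      have e4 : 1 / 2 * r ^ 2 * (1 - om) * A ^ 2 = 1 / 2 * (1 - om) * om ^ 2 := by
        rw [h8, hom]; ring
      have e5 : (om ^ 2 - 1) / 2 - om * ((om - 1) ^ 2 * (om + 2) / (2 * om)) + 1 =
          -1 / 2 + 3 / 2 * om + 1 / 2 * (1 - om) * om ^ 2 := by
        field_simp
        ring
      rw [e3, e4]
      linarith

/-- (L1a') -/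
theorem L1a' {r w A rm w0 m : ℝ} (hr : 0 < r) (hw : 0 < w) (hA : 0 ≤ A) (hrm0 : 0 ≤ rm)
    (hrm : rm ≤ A * r)
    (h : w * r ≤ 2 / 5 ∨ (w * r ≤ 2 / 3 ∧ w * r ≤ rm ∧ w * r ≤ (1 - w * r) * (rm ^ 2 + rm)))
    (hw0 : w0 ≤ w) (hm0 : 0 ≤ m) (hm : m ≤ A) :
    Psi A w ≤ -Real.log r - 1 / 2 + 3 / 2 * r * w + 1 / 2 * r ^ 2 * (1 - w0 * r) * A ^ 2 -
      1 / 2 * r ^ 3 * (w - w0) * m ^ 2 := by
  have h1 := L1a hr hw hA hrm0 hrm h
  have h2 : m ^ 2 ≤ A ^ 2 := pow_le_pow_left₀ hm0 hm 2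
  have h3 : 0 ≤ 1 / 2 * r ^ 3 * (w - w0) := mul_nonneg (by positivity) (by linarith)
  have h4 := mul_le_mul_of_nonneg_left h2 h3
  have e : 1 / 2 * r ^ 2 * (1 - w * r) * A ^ 2 =
      1 / 2 * r ^ 2 * (1 - w0 * r) * A ^ 2 - 1 / 2 * r ^ 3 * (w - w0) * A ^ 2 := by ring
  linarith

theorem L1b_piece {p q r : ℝ} (hp : 0 < p) (hq : Real.log p ≤ q) (hr : 0 < r)
    (h : 0 ≤ 51 / 1000 * r ^ 3 + 2 * r - 1 - q * r - r ^ 2 / p) :
    Real.log r + 1 / r - 1 ≤ 51 / 1000 * r ^ 2 := by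
  have h1 := log_le_tangent hr hp hq
  have h2 : 51 / 1000 * r ^ 2 - (q + (r - p) / p + 1 / r - 1) =
      (51 / 1000 * r ^ 3 + 2 * r - 1 - q * r - r ^ 2 / p) / r := by
    field_simp
    ring
  have h3 : 0 ≤ (51 / 1000 * r ^ 3 + 2 * r - 1 - q * r - r ^ 2 / p) / r := div_nonneg h hr.le
  linarith


/-- the scalar inequality behind (L1b) -/
theorem L1b_real {r : ℝ} (hr : 1 ≤ r) : Real.log r + 1 / r - 1 ≤ 51 / 1000 * r ^ 2 := by
  have hr0 : 0 < r := by linarith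
  have hq : ∀ (p q : ℝ), 0 < p → 0 ≤ q → p ≤ ∑ i ∈ Finset.range 8, q ^ i / (i.factorial : ℝ) →
      Real.log p ≤ q := fun p q hp hq h => log_le_of_sum 8 hp hq h
  rcases le_total r (3/2) with h1 | h1
  · refine L1b_piece (p := 5/4) (q := 2233/10000) (by norm_num) (hq _ _ (by norm_num) (by norm_num)
      (by norm_num [Finset.sum_range_succ, Nat.factorial])) hr0 ?_
    nlinarith [mul_nonneg (sub_nonneg.2 hr) (sub_nonneg.2 h1), sq_nonneg (r - 5/4),
      mul_nonneg (mul_nonneg (sub_nonneg.2 hr) (sub_nonneg.2 h1)) hr0.le]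
  rcases le_total r (17/10) with h2 | h2
  · refine L1b_piece (p := 8/5) (q := 4701/10000) (by norm_num) (hq _ _ (by norm_num) (by norm_num)
      (by norm_num [Finset.sum_range_succ, Nat.factorial])) hr0 ?_
    nlinarith [mul_nonneg (sub_nonneg.2 h1) (sub_nonneg.2 h2), sq_nonneg (r - 8/5),
      mul_nonneg (mul_nonneg (sub_nonneg.2 h1) (sub_nonneg.2 h2)) hr0.le]
  rcases le_total r (203/100) with h3 | h3
  · refine L1b_piece (p := 37/20) (q := 6153/10000) (by norm_num) (hq _ _ (by norm_num) (by norm_num)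
      (by norm_num [Finset.sum_range_succ, Nat.factorial])) hr0 ?_
    nlinarith [mul_nonneg (sub_nonneg.2 h2) (sub_nonneg.2 h3), sq_nonneg (r - 37/20),
      mul_nonneg (mul_nonneg (sub_nonneg.2 h2) (sub_nonneg.2 h3)) hr0.le]
  rcases le_total r (227/100) with h4 | h4
  · refine L1b_piece (p := 43/20) (q := 76550/100000) (by norm_num) (hq _ _ (by norm_num) (by norm_num)
      (by norm_num [Finset.sum_range_succ, Nat.factorial])) hr0 ?_
    nlinarith [mul_nonneg (sub_nonneg.2 h3) (sub_nonneg.2 h4), sq_nonneg (r - 43/20),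
      mul_nonneg (mul_nonneg (sub_nonneg.2 h3) (sub_nonneg.2 h4)) hr0.le]
  rcases le_total r (5/2) with h5 | h5
  · refine L1b_piece (p := 2386/1000) (q := 86965/100000) (by norm_num) (hq _ _ (by norm_num) (by norm_num)
      (by norm_num [Finset.sum_range_succ, Nat.factorial])) hr0 ?_
    nlinarith [mul_nonneg (sub_nonneg.2 h4) (sub_nonneg.2 h5), sq_nonneg (r - 2386/1000),
      mul_nonneg (mul_nonneg (sub_nonneg.2 h4) (sub_nonneg.2 h5)) hr0.le]
  rcases le_total r (11/4) with h6 | h6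
  · refine L1b_piece (p := 13/5) (q := 95555/100000) (by norm_num) (hq _ _ (by norm_num) (by norm_num)
      (by norm_num [Finset.sum_range_succ, Nat.factorial])) hr0 ?_
    nlinarith [mul_nonneg (sub_nonneg.2 h5) (sub_nonneg.2 h6), sq_nonneg (r - 13/5),
      mul_nonneg (mul_nonneg (sub_nonneg.2 h5) (sub_nonneg.2 h6)) hr0.le]
  rcases le_total r 3 with h7 | h7
  · refine L1b_piece (p := 57/20) (q := 104740/100000) (by norm_num) (hq _ _ (by norm_num) (by norm_num)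
      (by norm_num [Finset.sum_range_succ, Nat.factorial])) hr0 ?_
    nlinarith [mul_nonneg (sub_nonneg.2 h6) (sub_nonneg.2 h7), sq_nonneg (r - 57/20),
      mul_nonneg (mul_nonneg (sub_nonneg.2 h6) (sub_nonneg.2 h7)) hr0.le]
  · refine L1b_piece (p := 7/2) (q := 12531/10000) (by norm_num) (hq _ _ (by norm_num) (by norm_num)
      (by norm_num [Finset.sum_range_succ, Nat.factorial])) hr0 ?_
    nlinarith [mul_nonneg (sub_nonneg.2 h7) (sub_nonneg.2 h7), sq_nonneg (r - 7/2),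
      mul_nonneg (mul_nonneg (sub_nonneg.2 h7) (sub_nonneg.2 h7)) hr0.le]

/-- (L1b) -/
theorem L1b {A w : ℝ} (hw : 0 < w) (_hA : 0 ≤ A) :
    Psi A w ≤ Real.log w + 1 + 51 / 1000 * (A ^ 2 / w ^ 2) := by
  unfold Psi
  rcases le_total w A with h | h
  · rw [max_eq_left h]
    have hA0 : 0 < A := hw.trans_le h
    have h1 : 1 ≤ A / w := by rwa [le_div_iff₀ hw, one_mul]
    have h2 := L1b_real h1
    rw [Real.log_div hA0.ne' hw.ne'] at h2
    have e : 1 / (A / w) = w / A := by rw [one_div_div]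
    rw [e, div_pow] at h2
    linarith
  · rw [max_eq_right h, div_self hw.ne']
    have : 0 ≤ 51 / 1000 * (A ^ 2 / w ^ 2) := by positivity
    linarith


theorem Psi_le {A w : ℝ} (hw : 0 < w) (hA : 0 < A) : Psi A w ≤ Real.log A + w / A := by
  unfold Psi
  rcases le_total w A with h | h
  · rw [max_eq_left h]
  · rw [max_eq_right h, div_self hw.ne']
    have h1 := Real.log_le_sub_one_of_pos (div_pos hw hA)
    rw [Real.log_div hw.ne' hA.ne'] at h1
    linarith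

/-- (L1c) -/
theorem L1c {A w m s : ℝ} (hw : 0 < w) (hm : 0 < m) (hmA : m ≤ A) (hs : 2 / 27 ≤ s * w ^ 2) :
    Psi A w ≤ Real.log m + w / m + s * (A ^ 2 - m ^ 2) := by
  have hA : 0 < A := hm.trans_le hmA
  have hs0 : 0 ≤ s := by
    by_contra h
    push Not at h
    nlinarith [sq_nonneg w]
  refine (Psi_le hw hA).trans ?_
  have hmono : MonotoneOn (fun x : ℝ => s * x ^ 2 - Real.log x - w / x) (Set.Ioi 0) := by
    refine mono_aux (f' := fun x => s * (2 * x) - x⁻¹ + w / x ^ 2) (convex_Ioi 0) ?_ ?_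
    · intro x hx
      have hx0 : (0:ℝ) < x := hx
      have h1 : HasDerivAt (fun x : ℝ => s * x ^ 2) (s * (2 * x)) x := by
        have := ((hasDerivAt_id x).pow 2).const_mul s
        refine this.congr_deriv ?_
        simp
      have h2 : HasDerivAt (fun x : ℝ => w / x) (-(w / x ^ 2)) x := by
        have := (hasDerivAt_inv hx0.ne').const_mul w
        refine this.congr_deriv ?_
        field_simp
      have h3 := (h1.sub (Real.hasDerivAt_log hx0.ne')).sub h2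
      refine h3.congr_deriv ?_
      ring
    · intro x hx
      have hx0 : (0:ℝ) < x := hx
      have e : s * (2 * x) - x⁻¹ + w / x ^ 2 = (2 * s * x ^ 3 - x + w) / x ^ 2 := by
        field_simp
      rw [e]
      refine div_nonneg ?_ (by positivity)
      -- `z = x / w`
      have h1 : 0 ≤ 4 / 27 * w * ((x / w - 3 / 2) ^ 2 * (x / w + 3)) := by positivity
      have e2 : 4 / 27 * w * ((x / w - 3 / 2) ^ 2 * (x / w + 3)) =
          4 / 27 * (x ^ 3 / w ^ 2) - x + w := by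
        field_simp
        ring
      rw [e2] at h1
      have h3 : 4 / 27 * (x ^ 3 / w ^ 2) ≤ 2 * s * x ^ 3 := by
        have h4 : 2 / 27 / w ^ 2 ≤ s := by rwa [div_le_iff₀ (by positivity)]
        have h5 : 0 ≤ x ^ 3 := by positivity
        calc 4 / 27 * (x ^ 3 / w ^ 2) = 2 * (2 / 27 / w ^ 2) * x ^ 3 := by ring
          _ ≤ _ := by nlinarith
      linarith
  have h := hmono (Set.mem_Ioi.2 hm) (Set.mem_Ioi.2 hA) hmA
  simp only at h
  linarith

/-- (L2) -/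
theorem L2 {z : ℝ} (hz : 0 ≤ z) : Real.log (1 + z) ≤ z * (6 + z) / (6 + 4 * z) := by
  have hmono : MonotoneOn (fun x : ℝ => x * (6 + x) / (6 + 4 * x) - Real.log (1 + x))
      (Set.Ici 0) := by
    refine mono_aux (f' := fun x => ((6 + 2 * x) * (6 + 4 * x) - x * (6 + x) * 4) /
      (6 + 4 * x) ^ 2 - 1 / (1 + x)) (convex_Ici 0) ?_ ?_
    · intro x hx
      have hx0 : (0:ℝ) ≤ x := hx
      have h1 : HasDerivAt (fun x : ℝ => x * (6 + x)) (6 + 2 * x) x := by
        have := (hasDerivAt_id x).mul ((hasDerivAt_id x).const_add 6)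
        refine this.congr_deriv ?_
        simp only [id]
        ring
      have h2 : HasDerivAt (fun x : ℝ => 6 + 4 * x) 4 x := by
        have := ((hasDerivAt_id x).const_mul (4:ℝ)).const_add 6
        refine this.congr_deriv ?_
        ring
      have h3 : HasDerivAt (fun x : ℝ => Real.log (1 + x)) (1 / (1 + x)) x :=
        ((hasDerivAt_id x).const_add 1).log (by simp only [id]; linarith)
      exact (h1.div h2 (by linarith)).sub h3
    · intro x hx
      have hx0 : (0:ℝ) ≤ x := hx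
      have e : ((6 + 2 * x) * (6 + 4 * x) - x * (6 + x) * 4) /
          (6 + 4 * x) ^ 2 - 1 / (1 + x) = 4 * x ^ 3 / ((6 + 4 * x) ^ 2 * (1 + x)) := by
        have h1 : 6 + 4 * x ≠ 0 := by linarith
        have h2 : 1 + x ≠ 0 := by linarith
        field_simp
        ring
      rw [e]
      positivity
  have h := hmono (Set.mem_Ici.2 le_rfl) (Set.mem_Ici.2 hz) hz
  simp only [add_zero, Real.log_one] at h
  norm_num at h
  linarith

/-- `½ log E ≤ log(1+by) - a b X g` -/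
theorem half_log_E {b y X g b1 : ℝ} (hb0 : 0 < b) (hb1 : b ≤ b1) (hb1' : b1 < 1) (hy : 0 ≤ y)
    (hX : 0 ≤ X) (hE : 0 < (1 + b * y) ^ 2 - 2 * (1 - b) * b * X) (_hg0 : 0 ≤ g)
    (hg : g * (1 + b1 * y) ^ 2 ≤ 1) :
    1 / 2 * Real.log ((1 + b * y) ^ 2 - 2 * (1 - b) * b * X) ≤
      Real.log (1 + b * y) - (1 - b) * b * X * g := by
  have hp : 0 < 1 + b * y := by positivity
  have e : (1 + b * y) ^ 2 - 2 * (1 - b) * b * X =
      (1 + b * y) ^ 2 * (1 - 2 * (1 - b) * b * X / (1 + b * y) ^ 2) := by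
    field_simp
  have hq : 0 < 1 - 2 * (1 - b) * b * X / (1 + b * y) ^ 2 := by
    rw [e] at hE
    exact (pos_iff_pos_of_mul_pos hE).1 (by positivity)
  have h1 := Real.log_le_sub_one_of_pos hq
  rw [e, Real.log_mul (by positivity) hq.ne', Real.log_pow]
  have h2 : g ≤ 1 / (1 + b * y) ^ 2 := by
    rw [le_div_iff₀ (by positivity)]
    refine le_trans (mul_le_mul_of_nonneg_left ?_ _hg0) hg
    have : b * y ≤ b1 * y := mul_le_mul_of_nonneg_right hb1 hy
    nlinarith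
  have h3 : (1 - b) * b * X * g ≤ (1 - b) * b * X * (1 / (1 + b * y) ^ 2) := by
    refine mul_le_mul_of_nonneg_left h2 ?_
    have : 0 ≤ 1 - b := by linarith
    positivity
  have e2 : 2 * (1 - b) * b * X / (1 + b * y) ^ 2 =
      2 * ((1 - b) * b * X * (1 / (1 + b * y) ^ 2)) := by ring
  push_cast
  linarith

/-- (L3a) -/
theorem L3a {b b1 y X g xi l : ℝ} (hb0 : 0 < b) (hb1 : b ≤ b1) (hb1' : b1 < 1) (hy : 0 ≤ y)
    (hX : 0 ≤ X) (hE : 0 < (1 + b * y) ^ 2 - 2 * (1 - b) * b * X) (hg0 : 0 ≤ g)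
    (hg : g * (1 + b1 * y) ^ 2 ≤ 1) (hxi0 : 0 ≤ xi) (hxi : xi * b1 ≤ 1 - b1) :
    -((b * y - 1 / 2 * Real.log ((1 + b * y) ^ 2 - 2 * (1 - b) * b * X)) / b ^ 2) ≤
      18 * l ^ 2 + (12 * l ^ 2 * b1 - 6 * l) * y - xi * g * X := by
  have h1 := half_log_E hb0 hb1 hb1' hy hX hE hg0 hg
  have hby : 0 ≤ b * y := by positivity
  have h2 := L2 hby
  have hb2 : 0 < b ^ 2 := by positivity
  have hc : 0 < 6 + 4 * (b * y) := by linarith
  have h3 : -(b * y - 1 / 2 * Real.log ((1 + b * y) ^ 2 - 2 * (1 - b) * b * X)) ≤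
      -(3 * (b * y) ^ 2 / (6 + 4 * (b * y))) - (1 - b) * b * X * g := by
    have e : b * y * (6 + b * y) / (6 + 4 * (b * y)) =
        b * y - 3 * (b * y) ^ 2 / (6 + 4 * (b * y)) := by
      field_simp
      ring
    linarith
  have h4 : -((b * y - 1 / 2 * Real.log ((1 + b * y) ^ 2 - 2 * (1 - b) * b * X)) / b ^ 2) ≤
      -(3 * y ^ 2 / (6 + 4 * (b * y))) - (1 - b) / b * X * g := by
    rw [← neg_div, div_le_iff₀ hb2]
    refine h3.trans (le_of_eq ?_)
    field_simp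
  refine h4.trans ?_
  have h5 : -(3 * y ^ 2 / (6 + 4 * (b * y))) ≤ 18 * l ^ 2 + (12 * l ^ 2 * b - 6 * l) * y := by
    have h6 : 0 ≤ 3 * (y - l * (6 + 4 * (b * y))) ^ 2 / (6 + 4 * (b * y)) := by positivity
    have e : 3 * (y - l * (6 + 4 * (b * y))) ^ 2 / (6 + 4 * (b * y)) =
        3 * y ^ 2 / (6 + 4 * (b * y)) + 18 * l ^ 2 + (12 * l ^ 2 * b - 6 * l) * y := by
      field_simp
      ring
    linarith
  have h7 : 12 * l ^ 2 * b * y ≤ 12 * l ^ 2 * b1 * y := by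
    refine mul_le_mul_of_nonneg_right (mul_le_mul_of_nonneg_left hb1 (by positivity)) hy
  have h8 : xi ≤ (1 - b) / b := by
    rw [le_div_iff₀ hb0]
    have : xi * b ≤ xi * b1 := mul_le_mul_of_nonneg_left hb1 hxi0
    linarith
  have h9 : xi * g * X ≤ (1 - b) / b * X * g := by
    have := mul_le_mul_of_nonneg_right h8 (mul_nonneg hg0 hX)
    nlinarith
  nlinarith

/-- (L3b), first version -/
theorem L3b {b b0 b1 be y X del L : ℝ} (hb00 : 0 < b0) (hb0 : b0 ≤ b) (hb1 : b ≤ b1)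
    (hb1' : b1 < 1) (hbe : 1 ≤ be * b0) (hX : 0 ≤ X)
    (hE : 0 < (1 + b * y) ^ 2 - 2 * (1 - b) * b * X) (hdel : 0 < del) (hL : -Real.log del ≤ L) :
    1 / (2 * b) * Real.log ((1 + b * y) ^ 2 - 2 * (1 - b) * b * X) ≤
      (L - 1 + del) * be / 2 + del * (2 * y + b1 * y ^ 2 - 2 * (1 - b1) * X) / 2 := by
  have hb : 0 < b := hb00.trans_le hb0
  have h1 := log_le_del hE hdel hL
  have hL1 : 0 ≤ L - 1 + del := by
    have := Real.log_le_sub_one_of_pos hdel
    linarith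
  have h2 : 1 / b ≤ be := by
    rw [div_le_iff₀ hb]
    have hbe0 : 0 ≤ be := by
      by_contra h
      push Not at h
      nlinarith
    nlinarith
  have h3 : 1 / (2 * b) * Real.log ((1 + b * y) ^ 2 - 2 * (1 - b) * b * X) ≤
      1 / (2 * b) * (L - 1 + del * ((1 + b * y) ^ 2 - 2 * (1 - b) * b * X)) :=
    mul_le_mul_of_nonneg_left h1 (by positivity)
  have e : 1 / (2 * b) * (L - 1 + del * ((1 + b * y) ^ 2 - 2 * (1 - b) * b * X)) =
      (L - 1 + del) * (1 / b) / 2 + del * (2 * y + b * y ^ 2 - 2 * (1 - b) * X) / 2 := by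
    field_simp
    ring
  have h4 : (L - 1 + del) * (1 / b) ≤ (L - 1 + del) * be := mul_le_mul_of_nonneg_left h2 hL1
  have h5 : del * (2 * y + b * y ^ 2 - 2 * (1 - b) * X) ≤
      del * (2 * y + b1 * y ^ 2 - 2 * (1 - b1) * X) := by
    refine mul_le_mul_of_nonneg_left ?_ hdel.le
    nlinarith [mul_nonneg (sub_nonneg.2 hb1) (sq_nonneg y), mul_nonneg (sub_nonneg.2 hb1) hX]
  linarith

/-- (L3b), second version -/
theorem L3b' {b b0 b1 be y X del L g : ℝ} (hb00 : 0 < b0) (hb0 : b0 ≤ b) (hb1 : b ≤ b1)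
    (hb1' : b1 < 1) (hbe : 1 ≤ be * b0) (hy : 0 ≤ y) (hX : 0 ≤ X)
    (hE : 0 < (1 + b * y) ^ 2 - 2 * (1 - b) * b * X) (hdel : 0 < del) (hL : -Real.log del ≤ L)
    (hg0 : 0 ≤ g) (hg : g * (1 + b1 * y) ^ 2 ≤ 1) :
    1 / (2 * b) * Real.log ((1 + b * y) ^ 2 - 2 * (1 - b) * b * X) ≤
      (L - 1 + del) * be + del * y - (1 - b1) * g * X := by
  have hb : 0 < b := hb00.trans_le hb0
  have h0 := half_log_E hb hb1 hb1' hy hX hE hg0 hg
  have hp : 0 < 1 + b * y := by positivity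
  have h1 := log_le_del hp hdel hL
  have hL1 : 0 ≤ L - 1 + del := by
    have := Real.log_le_sub_one_of_pos hdel
    linarith
  have h2 : 1 / b ≤ be := by
    rw [div_le_iff₀ hb]
    have hbe0 : 0 ≤ be := by
      by_contra h
      push Not at h
      nlinarith
    nlinarith
  have h3 : 1 / (2 * b) * Real.log ((1 + b * y) ^ 2 - 2 * (1 - b) * b * X) ≤
      1 / b * (L - 1 + del * (1 + b * y) - (1 - b) * b * X * g) := by
    have e : 1 / (2 * b) * Real.log ((1 + b * y) ^ 2 - 2 * (1 - b) * b * X) =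
        1 / b * (1 / 2 * Real.log ((1 + b * y) ^ 2 - 2 * (1 - b) * b * X)) := by
      field_simp
    rw [e]
    exact mul_le_mul_of_nonneg_left (by linarith) (by positivity)
  have e : 1 / b * (L - 1 + del * (1 + b * y) - (1 - b) * b * X * g) =
      (L - 1 + del) * (1 / b) + del * y - (1 - b) * X * g := by
    field_simp
    ring
  have h4 : (L - 1 + del) * (1 / b) ≤ (L - 1 + del) * be := mul_le_mul_of_nonneg_left h2 hL1
  have h5 : (1 - b1) * g * X ≤ (1 - b) * X * g := by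
    nlinarith [mul_nonneg (sub_nonneg.2 hb1) (mul_nonneg hg0 hX)]
  linarith

/-- (L3c) -/
theorem L3c {y del L : ℝ} (hy : 0 ≤ y) (hdel : 0 < del) (hL : -Real.log del ≤ L) :
    Real.log (1 + y) ≤ L - 1 + del * (1 + y) :=
  log_le_del (by linarith) hdel hL

/-- a convex quadratic -/
theorem quad_le {α β γ y0 y1 y : ℝ} (hα : 0 ≤ α) (h0 : α * y0 ^ 2 + β * y0 + γ ≤ 0)
    (h1 : α * y1 ^ 2 + β * y1 + γ ≤ 0) (hy0 : y0 ≤ y) (hy1 : y ≤ y1) :
    α * y ^ 2 + β * y + γ ≤ 0 := by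
  rcases (hy0.trans hy1).eq_or_lt with h | h
  · have : y = y0 := le_antisymm (by linarith) hy0
    rw [this]; exact h0
  · have e : (α * y ^ 2 + β * y + γ) * (y1 - y0) = (α * y0 ^ 2 + β * y0 + γ) * (y1 - y) +
        (α * y1 ^ 2 + β * y1 + γ) * (y - y0) - α * ((y1 - y) * (y - y0) * (y1 - y0)) := by ring
    have h2 : (α * y ^ 2 + β * y + γ) * (y1 - y0) ≤ 0 := by
      rw [e]
      have h3 := mul_nonneg hα (mul_nonneg (mul_nonneg (sub_nonneg.2 hy1) (sub_nonneg.2 hy0))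
        (sub_nonneg.2 h.le))
      nlinarith [mul_nonneg (neg_nonneg.2 h0) (sub_nonneg.2 hy1),
        mul_nonneg (neg_nonneg.2 h1) (sub_nonneg.2 hy0)]
    by_contra hcon
    push Not at hcon
    nlinarith [mul_pos hcon (sub_pos.2 h)]

/-- (L4) -/
theorem L4 {Al B M kap b1 c2 c1 c0 tau y0 y1 y : ℝ} (hAl : 0 ≤ Al) (hB : 0 ≤ B) (hM : 0 ≤ M)
    (hkap : 0 ≤ kap) (hb1 : 0 ≤ b1) (hc2 : 0 ≤ c2)
    (h0 : Al * (1 - tau * (1 + y0)) ^ 2 + B * (1 + y0) ^ 2 + c2 * y0 ^ 2 + c1 * y0 + c0 +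
      M * kap * (y0 + b1 * y0 ^ 2 / 2) ≤ 0)
    (h1 : Al * (1 - tau * (1 + y1)) ^ 2 + B * (1 + y1) ^ 2 + c2 * y1 ^ 2 + c1 * y1 + c0 +
      M * kap * (y1 + b1 * y1 ^ 2 / 2) ≤ 0) (hy0 : y0 ≤ y) (hy1 : y ≤ y1) :
    Al * (1 - tau * (1 + y)) ^ 2 + B * (1 + y) ^ 2 + c2 * y ^ 2 + c1 * y + c0 +
      M * kap * (y + b1 * y ^ 2 / 2) ≤ 0 := by
  have e : ∀ y : ℝ, Al * (1 - tau * (1 + y)) ^ 2 + B * (1 + y) ^ 2 + c2 * y ^ 2 + c1 * y + c0 +
      M * kap * (y + b1 * y ^ 2 / 2) = (Al * tau ^ 2 + B + c2 + M * kap * b1 / 2) * y ^ 2 +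
      (2 * Al * tau ^ 2 - 2 * Al * tau + 2 * B + c1 + M * kap) * y +
      (Al * (1 - tau) ^ 2 + B + c0) := fun y => by ring
  rw [e] at h0 h1 ⊢
  exact quad_le (by positivity) h0 h1 hy0 hy1


/-! ### the `τ`-cell -/

/-- `D(τ) = (1 - τ T)² + 2 τ X` -/
noncomputable def DD (T X τ : ℝ) : ℝ := (1 - τ * T) ^ 2 + 2 * τ * X

theorem AA_eq (y X τ : ℝ) : AA y X τ = √(DD (1 + y) X τ) := rfl

theorem DD_nonneg {T X τ : ℝ} (hX : 0 ≤ X) (hτ : 0 ≤ τ) : 0 ≤ DD T X τ := by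
  unfold DD; positivity

/-- `D` is convex in `τ` -/
theorem DD_convex (T X : ℝ) {t0 t1 τ : ℝ} (h0 : t0 ≤ τ) (h1 : τ ≤ t1) :
    DD T X τ * (t1 - t0) ≤ DD T X t0 * (t1 - τ) + DD T X t1 * (τ - t0) := by
  have h01 : t0 ≤ t1 := h0.trans h1
  have e : DD T X t0 * (t1 - τ) + DD T X t1 * (τ - t0) - DD T X τ * (t1 - t0) =
      T ^ 2 * ((t1 - τ) * (τ - t0) * (t1 - t0)) := by
    unfold DD; ring
  have h2 : 0 ≤ T ^ 2 * ((t1 - τ) * (τ - t0) * (t1 - t0)) :=
    mul_nonneg (sq_nonneg _) (mul_nonneg (mul_nonneg (sub_nonneg.2 h1) (sub_nonneg.2 h0))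
      (sub_nonneg.2 h01))
  linarith

/-- the sum of the linear bounds on the cell -/
theorem sum_lin_le {N : ℕ} {T X g al : Fin N → ℝ} {t0 t1 τ La Lb : ℝ} (hal : ∀ l, 0 ≤ al l)
    (h01 : t0 < t1) (h0 : t0 ≤ τ) (h1 : τ ≤ t1)
    (ha : ∑ l, (g l + al l * DD (T l) (X l) t0) ≤ La)
    (hb : ∑ l, (g l + al l * DD (T l) (X l) t1) ≤ Lb) :
    ∑ l, (g l + al l * DD (T l) (X l) τ) ≤
      (t1 - τ) / (t1 - t0) * La + (τ - t0) / (t1 - t0) * Lb := by
  have hh : 0 < t1 - t0 := sub_pos.2 h01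
  have e1 : (t1 - τ) / (t1 - t0) * La + (τ - t0) / (t1 - t0) * Lb =
      ((t1 - τ) * La + (τ - t0) * Lb) / (t1 - t0) := by ring
  rw [e1, le_div_iff₀ hh]
  have h2 := mul_le_mul_of_nonneg_left ha (sub_nonneg.2 h1)
  have h3 := mul_le_mul_of_nonneg_left hb (sub_nonneg.2 h0)
  refine le_trans ?_ (add_le_add h2 h3)
  rw [Finset.mul_sum, Finset.mul_sum, Finset.sum_mul, ← Finset.sum_add_distrib]
  refine Finset.sum_le_sum fun l _ => ?_
  have h4 := mul_le_mul_of_nonneg_left (DD_convex (T l) (X l) h0 h1) (hal l)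
  nlinarith

/-- exponential of a convex combination -/
theorem exp_comb_le {p q x y : ℝ} (hp : 0 ≤ p) (hq : 0 ≤ q) (hpq : p + q = 1) :
    Real.exp (p * x + q * y) ≤ p * Real.exp x + q * Real.exp y := by
  have := convexOn_exp.2 (Set.mem_univ x) (Set.mem_univ y) hp hq hpq
  simpa [smul_eq_mul] using this

/-- (L5) the `τ`-cell -/
theorem L5 {N : ℕ} {y X g al : Fin N → ℝ} {t0 t1 x0 Ga Gb : ℝ} (hy : ∀ l, 0 ≤ y l)
    (ht0 : 0 ≤ t0) (h01 : t0 < t1) (hx0 : 0 < x0) (hal : ∀ l, 0 ≤ al l)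
    (hGa : 0 < Ga) (hGb : 0 < Gb)
    (hlin : ∀ τ, t0 ≤ τ → τ ≤ t1 → ∀ l, Psi (AA (y l) (X l) τ) ((1 + y l) ^ 2 / x0) ≤
      g l + al l * DD (1 + y l) (X l) τ)
    (ha : ∑ l, (g l + al l * DD (1 + y l) (X l) t0) ≤ Real.log Ga)
    (hb : ∑ l, (g l + al l * DD (1 + y l) (X l) t1) ≤ Real.log Gb) :
    ∫ τ in t0..t1, τ * ∑ k, (1 + y k) ^ 2 * ∏ l ∈ univ.erase k, AA (y l) (X l) τ ≤
      x0 * Real.exp (-1) * ((t1 - t0) * (t0 / 2 + (t1 - t0) / 6) * Ga +
        (t1 - t0) * (t0 / 2 + (t1 - t0) / 3) * Gb) := by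
  have hh : 0 < t1 - t0 := sub_pos.2 h01
  have hcont : Continuous fun τ : ℝ => τ * ∑ k, (1 + y k) ^ 2 *
      ∏ l ∈ univ.erase k, AA (y l) (X l) τ := by
    unfold AA
    fun_prop
  have hpt : ∀ τ ∈ Set.Icc t0 t1, τ * ∑ k, (1 + y k) ^ 2 *
      ∏ l ∈ univ.erase k, AA (y l) (X l) τ ≤
      x0 * Real.exp (-1) / (t1 - t0) * ((t1 * Ga - t0 * Gb) * τ + (Gb - Ga) * τ ^ 2) := by
    intro τ hτ
    have hτ0 : 0 ≤ τ := ht0.trans hτ.1
    have h1 := sum_prod_erase_le_Psi (fun l => AA (y l) (X l) τ) (fun l => (1 + y l) ^ 2)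
      (fun l => Real.sqrt_nonneg _) (fun l => by have := hy l; positivity) hx0
    have h2 : ∑ l, Psi (AA (y l) (X l) τ) ((1 + y l) ^ 2 / x0) ≤
        (t1 - τ) / (t1 - t0) * Real.log Ga + (τ - t0) / (t1 - t0) * Real.log Gb :=
      (Finset.sum_le_sum fun l _ => hlin τ hτ.1 hτ.2 l).trans
        (sum_lin_le hal h01 hτ.1 hτ.2 ha hb)
    have h3 : Real.exp (∑ l, Psi (AA (y l) (X l) τ) ((1 + y l) ^ 2 / x0)) ≤
        (t1 - τ) / (t1 - t0) * Ga + (τ - t0) / (t1 - t0) * Gb := by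
      refine (Real.exp_le_exp.2 h2).trans ((exp_comb_le ?_ ?_ ?_).trans (le_of_eq ?_))
      · exact div_nonneg (sub_nonneg.2 hτ.2) hh.le
      · exact div_nonneg (sub_nonneg.2 hτ.1) hh.le
      · field_simp
        ring
      · rw [Real.exp_log hGa, Real.exp_log hGb]
    calc τ * ∑ k, (1 + y k) ^ 2 * ∏ l ∈ univ.erase k, AA (y l) (X l) τ ≤
        τ * (x0 * Real.exp (-1) * ((t1 - τ) / (t1 - t0) * Ga + (τ - t0) / (t1 - t0) * Gb)) :=
          mul_le_mul_of_nonneg_left (h1.trans (mul_le_mul_of_nonneg_left h3 (by positivity))) hτ0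
      _ = _ := by
          field_simp
          ring
  have hc2 : Continuous fun τ : ℝ => x0 * Real.exp (-1) / (t1 - t0) *
      ((t1 * Ga - t0 * Gb) * τ + (Gb - Ga) * τ ^ 2) := by fun_prop
  have hint := intervalIntegral.integral_mono_on (μ := MeasureTheory.volume) h01.le
    (hcont.intervalIntegrable t0 t1) (hc2.intervalIntegrable t0 t1) hpt
  refine hint.trans (le_of_eq ?_)
  rw [intervalIntegral.integral_const_mul, intervalIntegral.integral_add
    ((by fun_prop : Continuous fun τ : ℝ => (t1 * Ga - t0 * Gb) * τ).intervalIntegrable _ _)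
    ((by fun_prop : Continuous fun τ : ℝ => (Gb - Ga) * τ ^ 2).intervalIntegrable _ _),
    intervalIntegral.integral_const_mul, intervalIntegral.integral_const_mul, integral_id,
    integral_pow]
  push_cast
  field_simp
  ring

/-- (L5') the product on the `τ`-cell -/
theorem L5' {N : ℕ} {y X g al : Fin N → ℝ} {t0 t1 τ Ga Gb : ℝ}
    (h01 : t0 < t1) (h0 : t0 ≤ τ) (h1 : τ ≤ t1) (hal : ∀ l, 0 ≤ al l)
    (hGa : 0 < Ga) (hGb : 0 < Gb)
    (hlin : ∀ l, 0 < DD (1 + y l) (X l) τ → 1 / 2 * Real.log (DD (1 + y l) (X l) τ) ≤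
      g l + al l * DD (1 + y l) (X l) τ)
    (ha : ∑ l, (g l + al l * DD (1 + y l) (X l) t0) ≤ Real.log Ga)
    (hb : ∑ l, (g l + al l * DD (1 + y l) (X l) t1) ≤ Real.log Gb) :
    ∏ l, AA (y l) (X l) τ ≤ max Ga Gb := by
  have hh : 0 < t1 - t0 := sub_pos.2 h01
  have hGM : 0 < max Ga Gb := lt_max_of_lt_left hGa
  by_cases hpos : ∀ l, 0 < DD (1 + y l) (X l) τ
  · have hA : ∀ l, 0 < AA (y l) (X l) τ := fun l => by
      rw [AA_eq]; exact Real.sqrt_pos.2 (hpos l)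
    have e : ∏ l, AA (y l) (X l) τ = Real.exp (∑ l, 1 / 2 * Real.log (DD (1 + y l) (X l) τ)) := by
      rw [Real.exp_sum]
      refine Finset.prod_congr rfl fun l _ => ?_
      rw [AA_eq, one_div, mul_comm, ← div_eq_mul_inv, ← Real.log_sqrt (hpos l).le,
        Real.exp_log (Real.sqrt_pos.2 (hpos l))]
    rw [e, ← Real.le_log_iff_exp_le hGM]
    have h2 : ∑ l, 1 / 2 * Real.log (DD (1 + y l) (X l) τ) ≤
        (t1 - τ) / (t1 - t0) * Real.log Ga + (τ - t0) / (t1 - t0) * Real.log Gb :=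
      (Finset.sum_le_sum fun l _ => hlin l (hpos l)).trans (sum_lin_le hal h01 h0 h1 ha hb)
    have h3 := mul_le_mul_of_nonneg_left (Real.log_le_log hGa (le_max_left Ga Gb))
      (div_nonneg (sub_nonneg.2 h1) hh.le)
    have h4 := mul_le_mul_of_nonneg_left (Real.log_le_log hGb (le_max_right Ga Gb))
      (div_nonneg (sub_nonneg.2 h0) hh.le)
    have h5 : (t1 - τ) / (t1 - t0) * Real.log (max Ga Gb) +
        (τ - t0) / (t1 - t0) * Real.log (max Ga Gb) = Real.log (max Ga Gb) := by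
      field_simp
      ring
    linarith
  · push Not at hpos
    obtain ⟨l, hl⟩ := hpos
    have h2 : AA (y l) (X l) τ = 0 := by
      rw [AA_eq, Real.sqrt_eq_zero']; exact hl
    rw [Finset.prod_eq_zero (Finset.mem_univ l) h2]
    exact hGM.le

/-! ### the constraint sums -/

namespace FV

variable {N : ℕ} {a Δ : ℝ} {y X : Fin N → ℝ}

theorem b_pos (h : FV N a Δ y X) : 0 < 1 - a := by have := h.a1; linarith

/-- the sum of the `log E` -/
theorem sum_logE (h : FV N a Δ y X) :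
    Real.log (1 + (1 - a) * N * (1 + a * (1 - a) / 2)) ≤
      ∑ k, 1 / 2 * Real.log ((1 + (1 - a) * y k) ^ 2 - 2 * (1 - (1 - a)) * (1 - a) * X k) := by
  have h1 := h.rw'
  have e : ∀ k, (1 + (1 - a) * y k) ^ 2 - 2 * (1 - (1 - a)) * (1 - a) * X k =
      (1 + (1 - a) * y k) ^ 2 - 2 * a * (1 - a) * X k := fun k => by ring
  simpa only [e] using h1

theorem E_pos (h : FV N a Δ y X) (k : Fin N) :
    0 < (1 + (1 - a) * y k) ^ 2 - 2 * (1 - (1 - a)) * (1 - a) * X k := by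
  have h1 := h.rwpos k
  have e : (1 + (1 - a) * y k) ^ 2 - 2 * (1 - (1 - a)) * (1 - a) * X k =
      (1 + (1 - a) * y k) ^ 2 - 2 * a * (1 - a) * X k := by ring
  rw [e]; linarith

/-- (L6), form 3 -/
theorem form3 (h : FV N a Δ y X) {K : ℝ}
    (hK : (1 - a) * N * a - Real.log (1 + (1 - a) * N * (1 + a * (1 - a) / 2)) ≤
      K * (1 - a) ^ 2) :
    -K ≤ ∑ k, -(((1 - a) * y k - 1 / 2 * Real.log ((1 + (1 - a) * y k) ^ 2 -
      2 * (1 - (1 - a)) * (1 - a) * X k)) / (1 - a) ^ 2) := by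
  have hb := h.b_pos
  have h1 := h.sum_logE
  have e : ∑ k, -(((1 - a) * y k - 1 / 2 * Real.log ((1 + (1 - a) * y k) ^ 2 -
      2 * (1 - (1 - a)) * (1 - a) * X k)) / (1 - a) ^ 2) =
      -(((1 - a) * (a * N) - ∑ k, 1 / 2 * Real.log ((1 + (1 - a) * y k) ^ 2 -
      2 * (1 - (1 - a)) * (1 - a) * X k)) / (1 - a) ^ 2) := by
    rw [Finset.sum_neg_distrib, ← Finset.sum_div, Finset.sum_sub_distrib, ← Finset.mul_sum, h.sum]
  rw [e, neg_le_neg_iff, div_le_iff₀ (by positivity)]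
  linarith

/-- (L6), form 4 -/
theorem form4 (h : FV N a Δ y X) {R : ℝ}
    (hR : R * (1 - a) ≤ Real.log (1 + (1 - a) * N * (1 + a * (1 - a) / 2))) :
    R ≤ ∑ k, 1 / (2 * (1 - a)) * Real.log ((1 + (1 - a) * y k) ^ 2 -
      2 * (1 - (1 - a)) * (1 - a) * X k) := by
  have hb := h.b_pos
  have h1 := h.sum_logE
  have e : ∑ k, 1 / (2 * (1 - a)) * Real.log ((1 + (1 - a) * y k) ^ 2 -
      2 * (1 - (1 - a)) * (1 - a) * X k) =
      (∑ k, 1 / 2 * Real.log ((1 + (1 - a) * y k) ^ 2 -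
      2 * (1 - (1 - a)) * (1 - a) * X k)) / (1 - a) := by
    rw [Finset.sum_div]
    refine Finset.sum_congr rfl fun k _ => ?_
    field_simp
  rw [e, le_div_iff₀ hb]
  linarith

/-- (L6), form 3 on a cell with `b₀ > 0` -/
theorem form3_cell (h : FV N a Δ y X) {b0 b1 mu1 ell K : ℝ} (hb00 : 0 < b0) (hb0 : b0 ≤ 1 - a)
    (hb1 : 1 - a ≤ b1) (hN : 0 < (N : ℝ)) (hmu : 1 + a * (1 - a) / 2 ≤ mu1)
    (hell : ell ≤ Real.log (1 + b0 * N * mu1))
    (hK : mu1 ^ 2 * N ^ 2 * (b0 * N * mu1 - ell) / (b0 * N * mu1) ^ 2 -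
      N * (1 + (1 - b1) / 2) ≤ K) :
    -K ≤ ∑ k, -(((1 - a) * y k - 1 / 2 * Real.log ((1 + (1 - a) * y k) ^ 2 -
      2 * (1 - (1 - a)) * (1 - a) * X k)) / (1 - a) ^ 2) := by
  have hb := h.b_pos
  have ha0 := h.a0
  refine h.form3 ?_
  have hmu0 : 0 < 1 + a * (1 - a) / 2 := by positivity
  have hmu1 : 0 < mu1 := hmu0.trans_le hmu
  have hZ0 : 0 < b0 * N * mu1 := by positivity
  have h1 : gg ((1 - a) * N * (1 + a * (1 - a) / 2)) ≤ gg ((1 - a) * N * mu1) :=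
    gg_mono (by positivity) (mul_le_mul_of_nonneg_left hmu (by positivity))
  have h2 : (b0 * N * mu1) ^ 2 * gg ((1 - a) * N * mu1) ≤
      ((1 - a) * N * mu1) ^ 2 * gg (b0 * N * mu1) := by
    refine gg_ratio_pos hZ0 ?_
    gcongr
  have h3 : gg (b0 * N * mu1) ≤ b0 * N * mu1 - ell := by unfold gg; linarith
  have h4 : gg ((1 - a) * N * mu1) ≤ (1 - a) ^ 2 *
      (mu1 ^ 2 * N ^ 2 * (b0 * N * mu1 - ell) / (b0 * N * mu1) ^ 2) := by
    have e : (1 - a) ^ 2 * (mu1 ^ 2 * N ^ 2 * (b0 * N * mu1 - ell) / (b0 * N * mu1) ^ 2) =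
        ((1 - a) * N * mu1) ^ 2 * (b0 * N * mu1 - ell) / (b0 * N * mu1) ^ 2 := by ring
    rw [e, le_div_iff₀ (by positivity), mul_comm]
    exact h2.trans (mul_le_mul_of_nonneg_left h3 (by positivity))
  have h5 : (1 - a) ^ 2 * (mu1 ^ 2 * N ^ 2 * (b0 * N * mu1 - ell) / (b0 * N * mu1) ^ 2 -
      N * (1 + (1 - b1) / 2)) ≤ (1 - a) ^ 2 * K := mul_le_mul_of_nonneg_left hK (by positivity)
  have h6 : (1 - a) ^ 2 * (N * (1 + (1 - b1) / 2)) ≤ (1 - a) ^ 2 * (N * (1 + a / 2)) := by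
    refine mul_le_mul_of_nonneg_left (mul_le_mul_of_nonneg_left (by linarith) hN.le)
      (by positivity)
  have e7 : (1 - a) * N * a - Real.log (1 + (1 - a) * N * (1 + a * (1 - a) / 2)) =
      gg ((1 - a) * N * (1 + a * (1 - a) / 2)) - (1 - a) ^ 2 * (N * (1 + a / 2)) := by
    unfold gg; ring
  rw [e7]
  nlinarith

/-- (L6), form 3 on a cell with `b₀ = 0` -/
theorem form3_cell0 (h : FV N a Δ y X) {b1 mu1 K : ℝ}
    (hb1 : 1 - a ≤ b1) (hmu : 1 + a * (1 - a) / 2 ≤ mu1)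
    (hK : mu1 ^ 2 * N ^ 2 / 2 - N * (1 + (1 - b1) / 2) ≤ K) :
    -K ≤ ∑ k, -(((1 - a) * y k - 1 / 2 * Real.log ((1 + (1 - a) * y k) ^ 2 -
      2 * (1 - (1 - a)) * (1 - a) * X k)) / (1 - a) ^ 2) := by
  have hb := h.b_pos
  have ha0 := h.a0
  refine h.form3 ?_
  have hN : (0 : ℝ) ≤ N := Nat.cast_nonneg N
  have hmu0 : 0 < 1 + a * (1 - a) / 2 := by positivity
  have hmu1 : 0 < mu1 := hmu0.trans_le hmu
  have h1 : gg ((1 - a) * N * (1 + a * (1 - a) / 2)) ≤ gg ((1 - a) * N * mu1) :=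
    gg_mono (by positivity) (mul_le_mul_of_nonneg_left hmu (by positivity))
  have h2 : gg ((1 - a) * N * mu1) ≤ ((1 - a) * N * mu1) ^ 2 / 2 := gg_le_of_pos (by positivity)
  have h5 : (1 - a) ^ 2 * (mu1 ^ 2 * N ^ 2 / 2 - N * (1 + (1 - b1) / 2)) ≤ (1 - a) ^ 2 * K :=
    mul_le_mul_of_nonneg_left hK (by positivity)
  have h6 : (1 - a) ^ 2 * (N * (1 + (1 - b1) / 2)) ≤ (1 - a) ^ 2 * (N * (1 + a / 2)) := by
    refine mul_le_mul_of_nonneg_left (mul_le_mul_of_nonneg_left (by linarith) hN)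
      (by positivity)
  have e7 : (1 - a) * N * a - Real.log (1 + (1 - a) * N * (1 + a * (1 - a) / 2)) =
      gg ((1 - a) * N * (1 + a * (1 - a) / 2)) - (1 - a) ^ 2 * (N * (1 + a / 2)) := by
    unfold gg; ring
  rw [e7]
  nlinarith

/-- (L6), form 4 on a cell -/
theorem form4_cell (h : FV N a Δ y X) {b1 mu0 R : ℝ} (hb1 : 1 - a ≤ b1) (hmu00 : 0 ≤ mu0)
    (hmu : mu0 ≤ 1 + a * (1 - a) / 2) (hR : R * b1 ≤ Real.log (1 + b1 * N * mu0)) :
    R ≤ ∑ k, 1 / (2 * (1 - a)) * Real.log ((1 + (1 - a) * y k) ^ 2 -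
      2 * (1 - (1 - a)) * (1 - a) * X k) := by
  have hb := h.b_pos
  have ha0 := h.a0
  refine h.form4 ?_
  have hN : (0 : ℝ) ≤ N := Nat.cast_nonneg N
  have hb1' : 0 < b1 := hb.trans_le hb1
  set lam := (1 - a) / b1 with hlam
  have hl0 : 0 ≤ lam := by positivity
  have hl1 : lam ≤ 1 := by rw [hlam, div_le_one hb1']; exact hb1
  have hx : 0 ≤ b1 * N * mu0 := by positivity
  have h1 := rpow_one_add_le_one_add_mul_self (s := b1 * N * mu0) (by linarith) hl0 hl1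
  have h2 : lam * Real.log (1 + b1 * N * mu0) ≤ Real.log (1 + lam * (b1 * N * mu0)) := by
    rw [← Real.log_rpow (by linarith)]
    exact Real.log_le_log (by positivity) h1
  have e1 : lam * (b1 * N * mu0) = (1 - a) * N * mu0 := by
    rw [hlam]; field_simp
  rw [e1] at h2
  have h3 : Real.log (1 + (1 - a) * N * mu0) ≤
      Real.log (1 + (1 - a) * N * (1 + a * (1 - a) / 2)) := by
    refine Real.log_le_log (by positivity) ?_
    have := mul_le_mul_of_nonneg_left hmu (by positivity : 0 ≤ (1 - a) * (N : ℝ))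
    linarith
  have h4 : R * (1 - a) = lam * (R * b1) := by rw [hlam]; field_simp
  rw [h4]
  exact (mul_le_mul_of_nonneg_left hR hl0).trans (h2.trans h3)

end FV

end Pool.Agent.Lib.MP_172a45_an.F
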