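import Pool.Agent.Lib.MP_172a45_an.F.Star1

set_option autoImplicit false

/-!
# helper85's inequality (P')
-/

namespace Pool.Agent.Lib.MP_172a45_an.F

open Finset Real MeasureTheory

/-- `(c + x) T ≤ 2 c d` -/
theorem cx_le (v : ℂ) {s : ℝ} (hs0 : 0 ≤ s) (hs1 : s ≤ 1) :
    (‖v‖ + v.re) * TT ‖v‖ s ≤ 2 * ‖v‖ * ‖(1 : ℂ) - s + s * v‖ := by
  have hc := norm_nonneg v
  have hx := abs_le.1 (Complex.abs_re_le_norm v)
  have hT : 0 ≤ TT ‖v‖ s := by unfold TT; nlinarith [mul_nonneg hs0 hc]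
  have h1 := norm_seg_sq v s
  have h2 : 0 ≤ 2 * ‖v‖ * ‖(1 : ℂ) - s + s * v‖ := by positivity
  refine le_of_sq_le_sq ?_ h2
  rw [mul_pow, mul_pow, h1]
  set c := ‖v‖ with hcdef
  set x := v.re with hxdef
  have h3 : TT c s ^ 2 = (1 - s + s * c) ^ 2 := rfl
  rw [h3]
  have he : 0 ≤ c - x := by linarith
  have he2 : c - x ≤ 2 * c := by linarith
  have h4 : 4 * (c * (s * (1 - s))) ≤ (1 - s + s * c) ^ 2 := by
    nlinarith [sq_nonneg (1 - s - s * c)]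
  have h5 : 0 ≤ (c - x) * (2 * c) * ((1 - s + s * c) ^ 2 - 4 * (c * (s * (1 - s)))) := by
    refine mul_nonneg (mul_nonneg he (by linarith)) (by linarith)
  have h6 : 0 ≤ (c - x) * (2 * c - (c - x)) * (1 - s + s * c) ^ 2 := by
    refine mul_nonneg (mul_nonneg he (by linarith)) (sq_nonneg _)
  nlinarith [h5, h6]

/-- tangent line of the concave function `c ↦ c/(1 - s + s c)` -/
theorem ratio_tangent {c κ s : ℝ} (hs0 : 0 ≤ s) (hs1 : s < 1) (hc : 0 ≤ c) (hκ : 0 ≤ κ) :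
    c / TT c s ≤ κ / TT κ s + (1 - s) / TT κ s ^ 2 * (c - κ) := by
  have hT : 0 < TT c s := by unfold TT; nlinarith [mul_nonneg hs0 hc]
  have hTk : 0 < TT κ s := by unfold TT; nlinarith [mul_nonneg hs0 hκ]
  have e : κ / TT κ s + (1 - s) / TT κ s ^ 2 * (c - κ) - c / TT c s =
      (1 - s) * s * (c - κ) ^ 2 / (TT κ s ^ 2 * TT c s) := by
    have key : κ * TT κ s * TT c s + (1 - s) * (c - κ) * TT c s - c * TT κ s ^ 2 =
        (1 - s) * s * (c - κ) ^ 2 := by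
      unfold TT; ring
    rw [← key]
    have h1 := hT.ne'
    have h2 := hTk.ne'
    field_simp
  have h2 : 0 ≤ (1 - s) * s * (c - κ) ^ 2 / (TT κ s ^ 2 * TT c s) := by
    have : 0 ≤ 1 - s := by linarith
    positivity
  linarith

theorem sum_ratio_le {M : ℕ} (c : Fin M → ℝ) (hc : ∀ k, 0 ≤ c k) {κ s : ℝ}
    (hκ0 : 0 ≤ κ) (hκ : (M : ℝ) * κ = ∑ k, c k) (hs0 : 0 ≤ s) (hs1 : s < 1) :
    ∑ k, c k / TT (c k) s ≤ M * (κ / TT κ s) := by
  refine (Finset.sum_le_sum fun k _ => ratio_tangent hs0 hs1 (hc k) hκ0).trans (le_of_eq ?_)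
  rw [Finset.sum_add_distrib, ← Finset.mul_sum, Finset.sum_sub_distrib, ← hκ]
  simp

/-- the pair sum: phases of `S` -/
theorem pair_le {M : ℕ} (v : Fin M → ℂ) {κ s : ℝ} (hκ : (M : ℝ) * κ = ∑ k, ‖v k‖) (hκ0 : 0 ≤ κ)
    (hs0 : 0 ≤ s) (hs1 : s < 1) (hd : ∀ k, ‖(1 : ℂ) - s + s * v k‖ ≠ 0) :
    ∑ k, ∑ j, ‖v k - v j‖ ^ 2 * ∏ l ∈ (univ.erase k).erase j, ‖(1 : ℂ) - s + s * v l‖ ≤
      (∑ k, ∑ j, (‖v k‖ - ‖v j‖) ^ 2 * ∏ l ∈ (univ.erase k).erase j, TT ‖v l‖ s) +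
      4 * M * (κ / TT κ s) * ∑ k, (‖v k‖ - (v k).re) *
        ∏ l ∈ univ.erase k, ‖(1 : ℂ) - s + s * v l‖ := by
  set d : Fin M → ℝ := fun k => ‖(1 : ℂ) - s + s * v k‖ with hdd
  have hd0 : ∀ k, 0 < d k := fun k => lt_of_le_of_ne (norm_nonneg _) (Ne.symm (hd k))
  set h : ℝ := ∏ k, d k with hh
  have hpos : 0 < h := Finset.prod_pos fun k _ => hd0 k
  have hT : ∀ k, 0 < TT ‖v k‖ s := fun k => by
    unfold TT; nlinarith [mul_nonneg hs0 (norm_nonneg (v k))]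
  have hdT : ∀ k, d k ≤ TT ‖v k‖ s := by
    intro k
    rw [hdd]
    refine (norm_add_le _ _).trans ?_
    have e2 : (1 : ℂ) - s = ((1 - s : ℝ) : ℂ) := by push_cast; ring
    rw [e2, norm_mul, Complex.norm_real, Complex.norm_real, Real.norm_of_nonneg (by linarith),
      Real.norm_of_nonneg hs0]
    rfl
  -- products in terms of h
  have hP1 : ∀ k, ∏ l ∈ univ.erase k, d l = h * (d k)⁻¹ := fun k => by
    rw [hh, ← Finset.mul_prod_erase univ d (Finset.mem_univ k)]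
    have := (hd0 k).ne'
    field_simp
  have hP2 : ∀ k j, k ≠ j → ∏ l ∈ (univ.erase k).erase j, d l = h * (d k)⁻¹ * (d j)⁻¹ :=
    fun k j hkj => by
    rw [← hP1 k, ← Finset.mul_prod_erase (univ.erase k) d
      (Finset.mem_erase.2 ⟨hkj.symm, Finset.mem_univ j⟩)]
    have := (hd0 j).ne'
    field_simp
  -- LHS
  have hL : ∑ k, ∑ j, ‖v k - v j‖ ^ 2 * ∏ l ∈ (univ.erase k).erase j, d l =
      (∑ k, ∑ j, (‖v k‖ - ‖v j‖) ^ 2 * ∏ l ∈ (univ.erase k).erase j, d l) +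
      2 * h * ((∑ k, (d k)⁻¹ * ‖v k‖) ^ 2 - (∑ k, (d k)⁻¹ * (v k).re) ^ 2 -
        (∑ k, (d k)⁻¹ * (v k).im) ^ 2) := by
    have e1 : ∀ k j, ‖v k - v j‖ ^ 2 * ∏ l ∈ (univ.erase k).erase j, d l =
        (‖v k‖ - ‖v j‖) ^ 2 * ∏ l ∈ (univ.erase k).erase j, d l +
        2 * h * (((d k)⁻¹ * ‖v k‖) * ((d j)⁻¹ * ‖v j‖) -
          ((d k)⁻¹ * (v k).re) * ((d j)⁻¹ * (v j).re) -
          ((d k)⁻¹ * (v k).im) * ((d j)⁻¹ * (v j).im)) := by
      intro k j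
      have e3 : ∀ w : ℂ, ‖w‖ ^ 2 = w.re ^ 2 + w.im ^ 2 := fun w => by
        rw [← Complex.normSq_eq_norm_sq, Complex.normSq_apply]; ring
      by_cases hkj : k = j
      · subst hkj
        have := e3 (v k)
        simp only [sub_self, norm_zero]
        have e4 : (d k)⁻¹ * ‖v k‖ * ((d k)⁻¹ * ‖v k‖) - (d k)⁻¹ * (v k).re * ((d k)⁻¹ * (v k).re) -
            (d k)⁻¹ * (v k).im * ((d k)⁻¹ * (v k).im) =
            ((d k)⁻¹) ^ 2 * (‖v k‖ ^ 2 - ((v k).re ^ 2 + (v k).im ^ 2)) := by ring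
        rw [e4, this]
        ring
      · rw [hP2 k j hkj]
        have h1 := e3 (v k)
        have h2 := e3 (v j)
        have h3 := e3 (v k - v j)
        rw [Complex.sub_re, Complex.sub_im] at h3
        rw [h3]
        have e5 : (‖v k‖ - ‖v j‖) ^ 2 = ‖v k‖ ^ 2 + ‖v j‖ ^ 2 - 2 * ‖v k‖ * ‖v j‖ := by ring
        rw [e5, h1, h2]
        ring
    simp only [e1, Finset.sum_add_distrib]
    congr 1
    have e2 : ∀ f : Fin M → ℝ, (∑ k, f k) ^ 2 = ∑ k, ∑ j, f k * f j := fun f => by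
      rw [sq, Finset.sum_mul_sum]
    rw [e2, e2, e2, ← Finset.sum_sub_distrib, ← Finset.sum_sub_distrib, Finset.mul_sum]
    refine Finset.sum_congr rfl fun k _ => ?_
    rw [← Finset.sum_sub_distrib, ← Finset.sum_sub_distrib, Finset.mul_sum]
  -- the c-part
  have hC : (∑ k, ∑ j, (‖v k‖ - ‖v j‖) ^ 2 * ∏ l ∈ (univ.erase k).erase j, d l) ≤
      ∑ k, ∑ j, (‖v k‖ - ‖v j‖) ^ 2 * ∏ l ∈ (univ.erase k).erase j, TT ‖v l‖ s :=
    Finset.sum_le_sum fun k _ => Finset.sum_le_sum fun j _ =>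
      mul_le_mul_of_nonneg_left (Finset.prod_le_prod (fun l _ => (hd0 l).le) fun l _ => hdT l)
        (sq_nonneg _)
  -- the phase part
  have hw : (∑ k, (d k)⁻¹ * ‖v k‖) ^ 2 - (∑ k, (d k)⁻¹ * (v k).re) ^ 2 =
      (∑ k, (d k)⁻¹ * (‖v k‖ - (v k).re)) * (∑ k, (d k)⁻¹ * (‖v k‖ + (v k).re)) := by
    have e1 : ∑ k, (d k)⁻¹ * (‖v k‖ - (v k).re) =
        ∑ k, (d k)⁻¹ * ‖v k‖ - ∑ k, (d k)⁻¹ * (v k).re := by
      rw [← Finset.sum_sub_distrib]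
      exact Finset.sum_congr rfl fun k _ => by ring
    have e2 : ∑ k, (d k)⁻¹ * (‖v k‖ + (v k).re) =
        ∑ k, (d k)⁻¹ * ‖v k‖ + ∑ k, (d k)⁻¹ * (v k).re := by
      rw [← Finset.sum_add_distrib]
      exact Finset.sum_congr rfl fun k _ => by ring
    rw [e1, e2]
    ring
  have hb : ∑ k, (d k)⁻¹ * (‖v k‖ + (v k).re) ≤ 2 * (M * (κ / TT κ s)) := by
    have h1 := sum_ratio_le (fun k => ‖v k‖) (fun k => norm_nonneg _) hκ0 hκ hs0 hs1
    refine le_trans ?_ (mul_le_mul_of_nonneg_left h1 zero_le_two)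
    rw [Finset.mul_sum]
    refine Finset.sum_le_sum fun k _ => ?_
    have h2 := cx_le (v k) hs0 hs1.le
    have h3 := hd0 k
    have h4 := hT k
    rw [inv_mul_eq_div, div_le_iff₀ h3]
    have e : 2 * (‖v k‖ / TT ‖v k‖ s) * d k = 2 * ‖v k‖ * d k / TT ‖v k‖ s := by ring
    rw [e, le_div_iff₀ h4]
    exact h2
  have he0 : 0 ≤ ∑ k, (d k)⁻¹ * (‖v k‖ - (v k).re) :=
    Finset.sum_nonneg fun k _ => mul_nonneg (inv_nonneg.2 (hd0 k).le)
      (by linarith [(abs_le.1 (Complex.abs_re_le_norm (v k))).2])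
  have hfin : 2 * h * ((∑ k, (d k)⁻¹ * ‖v k‖) ^ 2 - (∑ k, (d k)⁻¹ * (v k).re) ^ 2 -
        (∑ k, (d k)⁻¹ * (v k).im) ^ 2) ≤
      4 * M * (κ / TT κ s) * ∑ k, (‖v k‖ - (v k).re) * ∏ l ∈ univ.erase k, d l := by
    have e1 : ∑ k, (‖v k‖ - (v k).re) * ∏ l ∈ univ.erase k, d l =
        h * ∑ k, (d k)⁻¹ * (‖v k‖ - (v k).re) := by
      rw [Finset.mul_sum]
      exact Finset.sum_congr rfl fun k _ => by rw [hP1]; ring
    rw [e1]
    have h2 : (∑ k, (d k)⁻¹ * ‖v k‖) ^ 2 - (∑ k, (d k)⁻¹ * (v k).re) ^ 2 -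
        (∑ k, (d k)⁻¹ * (v k).im) ^ 2 ≤
        (∑ k, (d k)⁻¹ * (‖v k‖ - (v k).re)) * (2 * (M * (κ / TT κ s))) := by
      have := mul_le_mul_of_nonneg_left hb he0
      rw [← hw] at this
      nlinarith [sq_nonneg (∑ k, (d k)⁻¹ * (v k).im)]
    have h3 := mul_le_mul_of_nonneg_left h2 (by positivity : 0 ≤ 2 * h)
    refine h3.trans (le_of_eq ?_)
    ring
  rw [hL]
  linarith

namespace Fr

/-- `v k = 1 - a u k` for the tail -/
noncomputable def vt {M : ℕ} (a : ℝ) (ζ : Fin (M + 1) → ℂ) (k : Fin M) : ℂ :=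
  1 - (a : ℂ) * ut a ζ k

/-- `κ = mean_S ‖v‖` -/
noncomputable def kap {M : ℕ} (a : ℝ) (ζ : Fin (M + 1) → ℂ) : ℝ := (∑ k : Fin M, ‖vt a ζ k‖) / M

/-- `pr = |y₀| |y₀ - ȳ_S|` -/
noncomputable def pr {M : ℕ} (a : ℝ) (ζ : Fin (M + 1) → ℂ) : ℝ :=
  a ^ 2 * (‖u a ζ 0‖ * ‖u a ζ 0 - (∑ k : Fin M, ut a ζ k) / M‖)

theorem seg_eq {M : ℕ} (a : ℝ) (ζ : Fin (M + 1) → ℂ) (s : ℝ) (k : Fin M) :
    (1 : ℂ) - (s : ℂ) * a * ut a ζ k = 1 - s + s * vt a ζ k := by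
  unfold vt; ring

theorem norm_v0_le {M : ℕ} {a : ℝ} {ζ z : Fin (M + 1) → ℂ} (h : Fr (M + 1) a ζ z) (hM : 0 < M)
    {c0 : ℝ} (hc1 : 1 ≤ c0) (hcκ : kap a ζ ≤ c0) (hroot : (c0 - 1) * (c0 - kap a ζ) = pr a ζ) :
    ‖1 - (a : ℂ) * u a ζ 0‖ ≤ c0 := by
  have ha := h.a0
  have hM0 : (0 : ℝ) < M := by exact_mod_cast hM
  have hMc : (M : ℂ) ≠ 0 := by exact_mod_cast hM.ne'
  by_contra hcon
  push Not at hcon
  set w := ‖1 - (a : ℂ) * u a ζ 0‖ with hw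
  have h1 : w - 1 ≤ a * ‖u a ζ 0‖ := by
    have : w ≤ 1 + a * ‖u a ζ 0‖ := by
      rw [hw]
      refine (norm_sub_le _ _).trans ?_
      rw [norm_one, norm_mul, Complex.norm_real, Real.norm_of_nonneg ha.le]
    linarith
  have h2 : w - kap a ζ ≤ a * ‖u a ζ 0 - (∑ k : Fin M, ut a ζ k) / M‖ := by
    have e1 : 1 - (a : ℂ) * u a ζ 0 = (∑ k : Fin M, vt a ζ k) / M -
        (a : ℂ) * (u a ζ 0 - (∑ k : Fin M, ut a ζ k) / M) := by
      unfold vt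
      rw [Finset.sum_sub_distrib, ← Finset.mul_sum]
      simp only [Finset.sum_const, Finset.card_univ, Fintype.card_fin, nsmul_eq_mul, mul_one]
      field_simp
      ring
    have e2 : ‖(∑ k : Fin M, vt a ζ k) / M‖ ≤ kap a ζ := by
      unfold kap
      rw [norm_div, Complex.norm_natCast]
      exact div_le_div_of_nonneg_right (norm_sum_le _ _) hM0.le
    have e3 : w ≤ kap a ζ + a * ‖u a ζ 0 - (∑ k : Fin M, ut a ζ k) / M‖ := by
      rw [hw, e1]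
      refine (norm_sub_le _ _).trans (add_le_add e2 (le_of_eq ?_))
      rw [norm_mul, Complex.norm_real, Real.norm_of_nonneg ha.le]
    linarith
  have h3 : (w - 1) * (w - kap a ζ) ≤ pr a ζ := by
    have h4 : 0 ≤ w - 1 := by linarith
    have h5 : 0 ≤ w - kap a ζ := by linarith
    calc (w - 1) * (w - kap a ζ) ≤ (a * ‖u a ζ 0‖) *
          (a * ‖u a ζ 0 - (∑ k : Fin M, ut a ζ k) / M‖) :=
          mul_le_mul h1 h2 h5 (by positivity)
      _ = pr a ζ := by unfold pr; ring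
  rw [← hroot] at h3
  nlinarith

/-- helper85's inequality (P') -/
theorem Pprime {M : ℕ} {a : ℝ} {ζ z : Fin (M + 1) → ℂ} (h : Fr (M + 1) a ζ z) (hM : 0 < M)
    (hmax : ∀ k, ‖u a ζ k‖ ≤ ‖u a ζ 0‖)
    {c0 : ℝ} (hc1 : 1 ≤ c0) (hcκ : kap a ζ ≤ c0) (hroot : (c0 - 1) * (c0 - kap a ζ) = pr a ζ) :
    ((M + 1) * (1 - kap a ζ) - (c0 - 1)) *
        (∫ s in (0:ℝ)..1, TT c0 s * ∏ k : Fin M, TT ‖vt a ζ k‖ s) +
      (∫ s in (0:ℝ)..1, s * (pr a ζ * ((∏ k : Fin M, TT ‖vt a ζ k‖ s) -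
        ∏ k : Fin M, ‖(1 : ℂ) - s + s * vt a ζ k‖))) -
      (∫ s in (0:ℝ)..1, 2 * s * (kap a ζ / TT (kap a ζ) s) *
        (‖(1 : ℂ) - (s : ℂ) * a * u a ζ 0‖ * ∑ k : Fin M, (‖vt a ζ k‖ - (vt a ζ k).re) *
          ∏ l ∈ univ.erase k, ‖(1 : ℂ) - s + s * vt a ζ l‖)) ≤
      a * ∏ k, ‖u a ζ k‖ := by
  have ha := h.a0
  have hM0 : (0 : ℝ) < M := by exact_mod_cast hM
  have hMc : (M : ℂ) ≠ 0 := by exact_mod_cast hM.ne'
  set κ := kap a ζ with hκ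
  set v := vt a ζ with hv
  have hκ0 : 0 ≤ κ := by
    rw [hκ]; unfold kap; positivity
  have hκs : (M : ℝ) * κ = ∑ k, ‖v k‖ := by
    rw [hκ]; unfold kap
    field_simp
    rfl
  have h1 := h.critS hM hmax
  have h2 := XXS_real hM c0 (fun k => ‖v k‖) κ hκs
  -- the first term
  have hA : ‖1 - (a : ℂ) * ((∑ k, ut a ζ k) / M)‖ *
        (‖1 - (a : ℂ) * u a ζ 0‖ * ∏ k, ‖1 - (a : ℂ) * ut a ζ k‖) ≤
        κ * (c0 * ∏ k, ‖v k‖) := by
    have e1 : 1 - (a : ℂ) * ((∑ k, ut a ζ k) / M) = (∑ k, v k) / M := by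
      rw [hv]
      unfold vt
      rw [Finset.sum_sub_distrib, ← Finset.mul_sum]
      simp only [Finset.sum_const, Finset.card_univ, Fintype.card_fin, nsmul_eq_mul, mul_one]
      field_simp
    have e2 : ‖(∑ k, v k) / (M : ℂ)‖ ≤ κ := by
      rw [hκ]; unfold kap
      rw [norm_div, Complex.norm_natCast]
      exact div_le_div_of_nonneg_right (norm_sum_le _ _) hM0.le
    rw [e1]
    have e3 := h.norm_v0_le hM hc1 hcκ hroot
    have e4 : 0 ≤ ∏ k, ‖v k‖ := Finset.prod_nonneg fun _ _ => norm_nonneg _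
    refine mul_le_mul e2 (mul_le_mul_of_nonneg_right e3 e4) (by positivity) hκ0
  -- continuity facts
  have hTc : ∀ c : ℝ, Continuous (TT c) := fun c => by unfold TT; fun_prop
  have hκc : ContinuousOn (fun s => κ / TT κ s) (Set.Icc (0:ℝ) 1) := by
    rcases eq_or_lt_of_le hκ0 with h0 | h0
    · rw [← h0]
      simp only [zero_div]
      exact continuousOn_const
    · exact ContinuousOn.div continuousOn_const (hTc κ).continuousOn
        fun s hs => (TT_pos h0 hs.1 hs.2).ne'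
  have hI2 : IntervalIntegrable (fun s : ℝ => 2 * s * (κ / TT κ s) *
        (‖(1 : ℂ) - (s : ℂ) * a * u a ζ 0‖ * ∑ k, (‖v k‖ - (v k).re) *
          ∏ l ∈ univ.erase k, ‖(1 : ℂ) - s + s * v l‖)) volume 0 1 := by
    refine ContinuousOn.intervalIntegrable ?_
    rw [Set.uIcc_of_le zero_le_one]
    refine ContinuousOn.mul (ContinuousOn.mul (by fun_prop) hκc) ?_
    exact Continuous.continuousOn (by fun_prop)
  have hI1 : IntervalIntegrable (fun s : ℝ => s * (pr a ζ * ((∏ k, TT ‖v k‖ s) -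
        ∏ k, ‖(1 : ℂ) - s + s * v k‖))) volume 0 1 := by
    refine Continuous.intervalIntegrable ?_ _ _
    have := fun k => hTc ‖v k‖
    fun_prop
  have hI3 : IntervalIntegrable (fun s : ℝ => s * ((c0 - 1) * (c0 - κ) * ∏ k, (1 - s + s * ‖v k‖) +
        (1 - s + s * c0) / (2 * M) * ∑ k, ∑ j, (‖v k‖ - ‖v j‖) ^ 2 *
          ∏ l ∈ (univ.erase k).erase j, (1 - s + s * ‖v l‖))) volume 0 1 :=
    Continuous.intervalIntegrable (by fun_prop) _ _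
  have hG : ∫ s in (0:ℝ)..1, s * (a ^ 2 * (‖u a ζ 0‖ * ‖u a ζ 0 - (∑ k, ut a ζ k) / M‖) *
          ∏ k, ‖1 - (s : ℂ) * a * ut a ζ k‖ +
        ‖1 - (s : ℂ) * a * u a ζ 0‖ / (2 * M) * (a ^ 2 * ∑ k, ∑ j, ‖ut a ζ k - ut a ζ j‖ ^ 2 *
          ∏ l ∈ (univ.erase k).erase j, ‖1 - (s : ℂ) * a * ut a ζ l‖)) ≤
      ∫ s in (0:ℝ)..1, ((s * ((c0 - 1) * (c0 - κ) * ∏ k, (1 - s + s * ‖v k‖) +
        (1 - s + s * c0) / (2 * M) * ∑ k, ∑ j, (‖v k‖ - ‖v j‖) ^ 2 *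
          ∏ l ∈ (univ.erase k).erase j, (1 - s + s * ‖v l‖)) -
        s * (pr a ζ * ((∏ k, TT ‖v k‖ s) - ∏ k, ‖(1 : ℂ) - s + s * v k‖))) +
        2 * s * (κ / TT κ s) *
        (‖(1 : ℂ) - (s : ℂ) * a * u a ζ 0‖ * ∑ k, (‖v k‖ - (v k).re) *
          ∏ l ∈ univ.erase k, ‖(1 : ℂ) - s + s * v l‖)) := by
    refine intervalIntegral.integral_mono_ae_restrict zero_le_one
      (Continuous.intervalIntegrable (by fun_prop) _ _) ((hI3.sub hI1).add hI2) ?_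
    have hnull : ∀ᵐ s : ℝ ∂(volume.restrict (Set.Icc (0:ℝ) 1)), ∀ k : Fin M,
        ‖(1 : ℂ) - s + s * v k‖ ≠ 0 := by
      rw [ae_all_iff]
      intro k
      refine ae_restrict_of_ae ?_
      have hsub : {s : ℝ | ‖(1 : ℂ) - s + s * v k‖ = 0}.Subsingleton := by
        intro s hs s' hs'
        simp only [Set.mem_ofPred_eq, norm_eq_zero] at hs hs'
        rw [← seg_eq] at hs hs'
        have hne : (a : ℂ) * ut a ζ k ≠ 0 :=
          mul_ne_zero (by exact_mod_cast ha.ne') (h.u_ne k.succ)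
        have e1 : (s : ℂ) * (a * ut a ζ k) = (s' : ℂ) * (a * ut a ζ k) := by
          have e2 : (s : ℂ) * (a * ut a ζ k) = 1 := by
            linear_combination -hs
          have e3 : (s' : ℂ) * (a * ut a ζ k) = 1 := by
            linear_combination -hs'
          rw [e2, e3]
        exact_mod_cast mul_right_cancel₀ hne e1
      have := hsub.countable.ae_notMem volume
      filter_upwards [this] with s hs h0
      exact hs h0
    have h1ae : ∀ᵐ s : ℝ ∂(volume.restrict (Set.Icc (0:ℝ) 1)), s ≠ 1 :=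
      ae_restrict_of_ae (Measure.ae_ne volume 1)
    filter_upwards [hnull, h1ae, ae_restrict_mem measurableSet_Icc] with s hs hs1 hsI
    have hs0 := hsI.1
    have hs1' : s < 1 := lt_of_le_of_ne hsI.2 hs1
    have hp := pair_le v hκs hκ0 hs0 hs1' hs
    have e1 : a ^ 2 * ∑ k, ∑ j, ‖ut a ζ k - ut a ζ j‖ ^ 2 *
          ∏ l ∈ (univ.erase k).erase j, ‖1 - (s : ℂ) * a * ut a ζ l‖ =
        ∑ k, ∑ j, ‖v k - v j‖ ^ 2 *
          ∏ l ∈ (univ.erase k).erase j, ‖(1 : ℂ) - s + s * v l‖ := by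
      rw [Finset.mul_sum]
      refine Finset.sum_congr rfl fun k _ => ?_
      rw [Finset.mul_sum]
      refine Finset.sum_congr rfl fun j _ => ?_
      have e2 : ‖v k - v j‖ ^ 2 = a ^ 2 * ‖ut a ζ k - ut a ζ j‖ ^ 2 := by
        have e3 : v k - v j = -((a : ℂ) * (ut a ζ k - ut a ζ j)) := by
          rw [hv]; unfold vt; ring
        rw [e3, norm_neg, norm_mul, Complex.norm_real, Real.norm_of_nonneg ha.le, mul_pow]
      rw [e2]
      have e4 : ∏ l ∈ (univ.erase k).erase j, ‖1 - (s : ℂ) * a * ut a ζ l‖ =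
          ∏ l ∈ (univ.erase k).erase j, ‖(1 : ℂ) - s + s * v l‖ :=
        Finset.prod_congr rfl fun l _ => by rw [seg_eq]
      rw [e4]
      ring
    have e5 : ∏ k, ‖1 - (s : ℂ) * a * ut a ζ k‖ = ∏ k, ‖(1 : ℂ) - s + s * v k‖ :=
      Finset.prod_congr rfl fun l _ => by rw [seg_eq]
    rw [e1, e5]
    set d0 := ‖1 - (s : ℂ) * a * u a ζ 0‖ with hd0
    have hd0T : d0 ≤ 1 - s + s * c0 := by
      have e6 : 1 - (s : ℂ) * a * u a ζ 0 = ((1 - s : ℝ) : ℂ) + s * (1 - (a : ℂ) * u a ζ 0) := by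
        push_cast; ring
      rw [hd0, e6]
      refine (norm_add_le _ _).trans ?_
      rw [norm_mul, Complex.norm_real, Complex.norm_real, Real.norm_of_nonneg (by linarith),
        Real.norm_of_nonneg hs0]
      have := mul_le_mul_of_nonneg_left (h.norm_v0_le hM hc1 hcκ hroot) hs0
      linarith
    have hd00 : 0 ≤ d0 := norm_nonneg _
    have hCn : 0 ≤ ∑ k, ∑ j, (‖v k‖ - ‖v j‖) ^ 2 *
          ∏ l ∈ (univ.erase k).erase j, (1 - s + s * ‖v l‖) :=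
      Finset.sum_nonneg fun k _ => Finset.sum_nonneg fun j _ => mul_nonneg (sq_nonneg _)
        (Finset.prod_nonneg fun l _ => by nlinarith [mul_nonneg hs0 (norm_nonneg (v l))])
    have e7 : a ^ 2 * (‖u a ζ 0‖ * ‖u a ζ 0 - (∑ k, ut a ζ k) / M‖) = pr a ζ := rfl
    rw [e7, hroot]
    have hp2 : d0 / (2 * M) * ∑ k, ∑ j, ‖v k - v j‖ ^ 2 *
          ∏ l ∈ (univ.erase k).erase j, ‖(1 : ℂ) - s + s * v l‖ ≤
        (1 - s + s * c0) / (2 * M) * (∑ k, ∑ j, (‖v k‖ - ‖v j‖) ^ 2 *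
          ∏ l ∈ (univ.erase k).erase j, (1 - s + s * ‖v l‖)) +
        2 * (κ / TT κ s) * (d0 * ∑ k, (‖v k‖ - (v k).re) *
          ∏ l ∈ univ.erase k, ‖(1 : ℂ) - s + s * v l‖) := by
      have g1 := mul_le_mul_of_nonneg_left hp (by positivity : 0 ≤ d0 / (2 * M))
      have g2 : d0 / (2 * M) * (∑ k, ∑ j, (‖v k‖ - ‖v j‖) ^ 2 *
          ∏ l ∈ (univ.erase k).erase j, (1 - s + s * ‖v l‖)) ≤
          (1 - s + s * c0) / (2 * M) * (∑ k, ∑ j, (‖v k‖ - ‖v j‖) ^ 2 *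
          ∏ l ∈ (univ.erase k).erase j, (1 - s + s * ‖v l‖)) :=
        mul_le_mul_of_nonneg_right (div_le_div_of_nonneg_right hd0T (by positivity)) hCn
      have g3 : d0 / (2 * M) * (4 * M * (κ / TT κ s) * ∑ k, (‖v k‖ - (v k).re) *
          ∏ l ∈ univ.erase k, ‖(1 : ℂ) - s + s * v l‖) =
          2 * (κ / TT κ s) * (d0 * ∑ k, (‖v k‖ - (v k).re) *
          ∏ l ∈ univ.erase k, ‖(1 : ℂ) - s + s * v l‖) := by
        have := hM0.ne'
        field_simp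
        ring
      rw [mul_add, g3] at g1
      have g4 : (∑ k, ∑ j, (‖v k‖ - ‖v j‖) ^ 2 * ∏ l ∈ (univ.erase k).erase j, TT ‖v l‖ s) =
          (∑ k, ∑ j, (‖v k‖ - ‖v j‖) ^ 2 *
          ∏ l ∈ (univ.erase k).erase j, (1 - s + s * ‖v l‖)) := rfl
      rw [g4] at g1
      linarith
    have g5 := mul_le_mul_of_nonneg_left hp2 hs0
    have g6 : (∏ k, TT ‖v k‖ s) = ∏ k, (1 - s + s * ‖v k‖) := rfl
    rw [g6]
    nlinarith [g5]
  rw [intervalIntegral.integral_add (hI3.sub hI1) hI2, intervalIntegral.integral_sub hI3 hI1] at hG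
  have e8 : ∫ s in (0:ℝ)..1, TT c0 s * ∏ k, TT ‖v k‖ s =
      ∫ s in (0:ℝ)..1, (1 - s + s * c0) * ∏ k, (1 - s + s * ‖v k‖) := rfl
  rw [e8]
  linarith

end Fr

end Pool.Agent.Lib.MP_172a45_an.F
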