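import Pool.Agent.Lib.MP_172a45_an.F.Alg

set_option autoImplicit false

/-!
# Structural reduction for small `Δ`: from a frame to real inequalities in `(N, a, S, p, P, Δ)`
-/

namespace Pool.Agent.Lib.MP_172a45_an.F

open Finset Real

/-- AM-GM on a finset, for squares -/
theorem prod_le_sqrt_pow {ι : Type} (T : Finset ι) (hT : T.Nonempty) (f : ι → ℝ)
    (hf : ∀ k ∈ T, 0 ≤ f k) : ∏ k ∈ T, f k ≤ √((∑ k ∈ T, f k ^ 2) / #T) ^ #T := by
  have hc : (0 : ℝ) < #T := by exact_mod_cast hT.card_pos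
  have h := Real.geom_mean_le_arith_mean_weighted T
    (fun _ => ((#T : ℕ) : ℝ)⁻¹) (fun k => f k ^ 2) (fun _ _ => by positivity)
    (by rw [Finset.sum_const, nsmul_eq_mul]; field_simp) (fun k _ => sq_nonneg _)
  have h2 : ∏ k ∈ T, (f k ^ 2) ^ ((#T : ℕ) : ℝ)⁻¹ = (∏ k ∈ T, f k ^ 2) ^ ((#T : ℕ) : ℝ)⁻¹ :=
    Real.finsetProd_rpow _ _ (fun k _ => sq_nonneg _) _
  rw [h2, ← Finset.mul_sum] at h
  have h3 : 0 ≤ ∏ k ∈ T, f k ^ 2 := Finset.prod_nonneg fun k _ => sq_nonneg _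
  have h4 := pow_le_pow_left₀ (Real.rpow_nonneg h3 _) h #T
  rw [Real.rpow_inv_natCast_pow h3 hT.card_pos.ne'] at h4
  have h5 : ∏ k ∈ T, f k ^ 2 = (∏ k ∈ T, f k) ^ 2 := by rw [Finset.prod_pow]
  rw [h5] at h4
  have h6 : 0 ≤ ∏ k ∈ T, f k := Finset.prod_nonneg hf
  have h7 := Real.sqrt_le_sqrt h4
  rw [Real.sqrt_sq h6] at h7
  refine h7.trans (le_of_eq ?_)
  have h8 : 0 ≤ ((#T : ℕ) : ℝ)⁻¹ * ∑ k ∈ T, f k ^ 2 :=
    mul_nonneg (by positivity) (Finset.sum_nonneg fun k _ => sq_nonneg _)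
  have h9 : √(((#T : ℕ) : ℝ)⁻¹ * ∑ k ∈ T, f k ^ 2) ^ 2 = ((#T : ℕ) : ℝ)⁻¹ * ∑ k ∈ T, f k ^ 2 :=
    Real.sq_sqrt h8
  conv_lhs => rw [← h9, ← pow_mul, mul_comm 2, pow_mul, Real.sqrt_sq (by positivity)]
  rw [inv_mul_eq_div]

/-- `∑∑ ‖u k - u j‖² = 2 N ∑ ‖u‖² - 2 ‖∑ u‖²` -/
theorem sum_sum_norm_sub_sq {N : ℕ} (u : Fin N → ℂ) :
    ∑ k, ∑ j, ‖u k - u j‖ ^ 2 = 2 * N * ∑ k, ‖u k‖ ^ 2 - 2 * ‖∑ k, u k‖ ^ 2 := by
  have e : ∀ k j, ‖u k - u j‖ ^ 2 = ‖u k‖ ^ 2 + ‖u j‖ ^ 2 -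
      2 * ((u k).re * (u j).re + (u k).im * (u j).im) := fun k j => by
    simp only [← Complex.normSq_eq_norm_sq, Complex.normSq_apply, Complex.sub_re, Complex.sub_im]
    ring
  simp only [e, Finset.sum_sub_distrib, Finset.sum_add_distrib, ← Finset.mul_sum]
  have e2 : ‖∑ k, u k‖ ^ 2 = (∑ k, (u k).re) * (∑ k, (u k).re) +
      (∑ k, (u k).im) * (∑ k, (u k).im) := by
    rw [← Complex.normSq_eq_norm_sq, Complex.normSq_apply, Complex.re_sum, Complex.im_sum]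
  rw [e2]
  simp only [Finset.sum_const, Finset.card_univ, Fintype.card_fin, nsmul_eq_mul,
    ← Finset.sum_mul, ← Finset.mul_sum]
  ring

/-- `∑ ‖1 - w u‖² = N (1 - 2 w Re ū + w² S)` -/
theorem sum_norm_one_sub_sq {N : ℕ} (u : Fin N → ℂ) (w : ℝ) :
    ∑ k, ‖(1 : ℂ) - w * u k‖ ^ 2 = N - 2 * w * (∑ k, u k).re + w ^ 2 * ∑ k, ‖u k‖ ^ 2 := by
  have e : ∀ k, ‖(1 : ℂ) - w * u k‖ ^ 2 = 1 - 2 * w * (u k).re + w ^ 2 * ‖u k‖ ^ 2 := fun k => by
    simp only [← Complex.normSq_eq_norm_sq, Complex.normSq_apply, Complex.sub_re, Complex.sub_im,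
      Complex.one_re, Complex.one_im, Complex.mul_re, Complex.mul_im, Complex.ofReal_re,
      Complex.ofReal_im]
    ring
  simp only [e, Finset.sum_add_distrib, Finset.sum_sub_distrib, ← Finset.mul_sum, Complex.re_sum]
  simp

/-! ### `x - log (1 + x)` -/

/-- `g x = x - log (1 + x)` -/
noncomputable def gg (x : ℝ) : ℝ := x - Real.log (1 + x)

theorem gg_zero : gg 0 = 0 := by simp [gg]

theorem gg_nonneg {x : ℝ} (hx : -1 < x) : 0 ≤ gg x := by
  unfold gg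
  have := Real.log_le_sub_one_of_pos (by linarith : 0 < 1 + x)
  linarith

theorem gg_deriv {x : ℝ} (hx : -1 < x) : HasDerivAt gg (x / (1 + x)) x := by
  have h1 : HasDerivAt (fun x : ℝ => 1 + x) 1 x := (hasDerivAt_id x).const_add 1
  have h2 := (hasDerivAt_id x).sub (h1.log (by linarith))
  refine h2.congr_deriv ?_
  have : 1 + x ≠ 0 := by linarith
  field_simp
  ring

theorem gg_mono {x y : ℝ} (hx : 0 ≤ x) (hxy : x ≤ y) : gg x ≤ gg y := by
  have hm : MonotoneOn gg (Set.Ici 0) := by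
    refine monotoneOn_of_deriv_nonneg (convex_Ici 0) ?_ ?_ ?_
    · intro z hz
      exact (gg_deriv (by have : (0:ℝ) ≤ z := hz; linarith)).continuousAt.continuousWithinAt
    · intro z hz
      rw [interior_Ici] at hz
      have : (0:ℝ) < z := hz
      exact (gg_deriv (by linarith)).differentiableAt.differentiableWithinAt
    · intro z hz
      rw [interior_Ici] at hz
      have : (0:ℝ) < z := hz
      rw [(gg_deriv (by linarith)).deriv]
      positivity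
  exact hm hx (hx.trans hxy) hxy

theorem gg_lt {x y : ℝ} (hx : 0 ≤ x) (hxy : x < y) : gg x < gg y := by
  have hm : StrictMonoOn gg (Set.Ici 0) := by
    refine strictMonoOn_of_deriv_pos (convex_Ici 0) ?_ ?_
    · intro z hz
      exact (gg_deriv (by have : (0:ℝ) ≤ z := hz; linarith)).continuousAt.continuousWithinAt
    · intro z hz
      rw [interior_Ici] at hz
      have : (0:ℝ) < z := hz
      rw [(gg_deriv (by linarith)).deriv]
      positivity
  exact hm hx (hx.trans hxy.le) hxy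

/-- `2 log (1+x) ≤ (1+x) - 1/(1+x)` for `x ≥ 0`, and the opposite for `-1 < x ≤ 0` -/
theorem two_log_le {x : ℝ} (hx : 0 ≤ x) : 2 * Real.log (1 + x) ≤ (1 + x) - (1 + x)⁻¹ := by
  have hm : MonotoneOn (fun x : ℝ => (1 + x) - (1 + x)⁻¹ - 2 * Real.log (1 + x)) (Set.Ici 0) := by
    have hd : ∀ z : ℝ, 0 ≤ z → HasDerivAt
        (fun x : ℝ => (1 + x) - (1 + x)⁻¹ - 2 * Real.log (1 + x))
        (1 - (-1 / (1 + z) ^ 2) - 2 * (1 / (1 + z))) z := by
      intro z hz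
      have h1 : HasDerivAt (fun x : ℝ => 1 + x) 1 z := (hasDerivAt_id z).const_add 1
      exact (h1.sub (h1.inv (by linarith))).sub ((h1.log (by linarith)).const_mul 2)
    refine monotoneOn_of_deriv_nonneg (convex_Ici 0) ?_ ?_ ?_
    · intro z hz
      exact (hd z hz).continuousAt.continuousWithinAt
    · intro z hz
      rw [interior_Ici] at hz
      have : (0:ℝ) < z := hz
      exact (hd z this.le).differentiableAt.differentiableWithinAt
    · intro z hz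
      rw [interior_Ici] at hz
      have hz' : (0:ℝ) < z := hz
      rw [(hd z hz'.le).deriv]
      have e : (1 - (-1 / (1 + z) ^ 2) - 2 * (1 / (1 + z)) : ℝ) = (z / (1 + z)) ^ 2 := by
        have : 1 + z ≠ 0 := by linarith
        field_simp
        ring
      rw [e]
      positivity
  have := hm (Set.mem_Ici.2 le_rfl) hx hx
  simp only [add_zero, inv_one, Real.log_one, mul_zero, sub_self] at this
  linarith

theorem gg_ge_of_neg {y : ℝ} (hy : -1 < y) (hy0 : y ≤ 0) : y ^ 2 / 2 ≤ gg y := by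
  have hm : AntitoneOn (fun x : ℝ => gg x - x ^ 2 / 2) (Set.Ioc (-1) 0) := by
    have hd : ∀ z : ℝ, -1 < z → HasDerivAt (fun x : ℝ => gg x - x ^ 2 / 2)
        (z / (1 + z) - z) z := by
      intro z hz
      have h1 := (gg_deriv hz).sub (((hasDerivAt_id z).pow 2).div_const 2)
      refine h1.congr_deriv ?_
      simp
    refine antitoneOn_of_deriv_nonpos (convex_Ioc _ _) ?_ ?_ ?_
    · intro z hz
      exact (hd z hz.1).continuousAt.continuousWithinAt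
    · intro z hz
      rw [interior_Ioc] at hz
      exact (hd z hz.1).differentiableAt.differentiableWithinAt
    · intro z hz
      rw [interior_Ioc] at hz
      rw [(hd z hz.1).deriv]
      have : 0 < 1 + z := by linarith [hz.1]
      have e : z / (1 + z) - z = -(z ^ 2 / (1 + z)) := by
        field_simp
        ring
      rw [e]
      have : 0 ≤ z ^ 2 / (1 + z) := by positivity
      linarith
  have := hm ⟨hy, hy0⟩ ⟨by norm_num, le_rfl⟩ hy0
  simp only [gg_zero] at this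
  linarith

theorem gg_le_of_pos {x : ℝ} (hx : 0 ≤ x) : gg x ≤ x ^ 2 / 2 := by
  have hm : AntitoneOn (fun x : ℝ => gg x - x ^ 2 / 2) (Set.Ici 0) := by
    have hd : ∀ z : ℝ, 0 ≤ z → HasDerivAt (fun x : ℝ => gg x - x ^ 2 / 2)
        (z / (1 + z) - z) z := by
      intro z hz
      have h1 := (gg_deriv (by linarith)).sub (((hasDerivAt_id z).pow 2).div_const 2)
      refine h1.congr_deriv ?_
      simp
    refine antitoneOn_of_deriv_nonpos (convex_Ici _) ?_ ?_ ?_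
    · intro z hz
      exact (hd z hz).continuousAt.continuousWithinAt
    · intro z hz
      rw [interior_Ici] at hz
      have : (0:ℝ) < z := hz
      exact (hd z this.le).differentiableAt.differentiableWithinAt
    · intro z hz
      rw [interior_Ici] at hz
      have hz' : (0:ℝ) < z := hz
      rw [(hd z hz'.le).deriv]
      have e : z / (1 + z) - z = -(z ^ 2 / (1 + z)) := by
        field_simp
        ring
      rw [e]
      have : 0 ≤ z ^ 2 / (1 + z) := by positivity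
      linarith
  have := hm (Set.mem_Ici.2 le_rfl) hx hx
  simp only [gg_zero] at this
  linarith

/-- `g y / y²` decreases -/
theorem gg_ratio_pos {y x : ℝ} (hy : 0 < y) (hyx : y ≤ x) : y ^ 2 * gg x ≤ x ^ 2 * gg y := by
  have hm : AntitoneOn (fun x : ℝ => gg x / x ^ 2) (Set.Ioi 0) := by
    have hd : ∀ z : ℝ, 0 < z → HasDerivAt (fun x : ℝ => gg x / x ^ 2)
        ((z / (1 + z) * z ^ 2 - gg z * (2 * z)) / (z ^ 2) ^ 2) z := by
      intro z hz
      have h1 := (gg_deriv (by linarith)).div ((hasDerivAt_id z).pow 2) (by simpa using hz.ne')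
      refine h1.congr_deriv ?_
      simp
    refine antitoneOn_of_deriv_nonpos (convex_Ioi _) ?_ ?_ ?_
    · intro z hz
      exact (hd z hz).continuousAt.continuousWithinAt
    · intro z hz
      rw [interior_Ioi] at hz
      exact (hd z hz).differentiableAt.differentiableWithinAt
    · intro z hz
      rw [interior_Ioi] at hz
      have hz' : (0:ℝ) < z := hz
      rw [(hd z hz').deriv]
      refine div_nonpos_of_nonpos_of_nonneg ?_ (by positivity)
      have h2 := two_log_le hz'.le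
      have h3 : z / (1 + z) * z ^ 2 - gg z * (2 * z) =
          z * (2 * Real.log (1 + z) - ((1 + z) - (1 + z)⁻¹)) := by
        unfold gg
        have : 1 + z ≠ 0 := by linarith
        field_simp
        ring
      rw [h3]
      exact mul_nonpos_of_nonneg_of_nonpos hz'.le (by linarith)
  have h1 := hm (Set.mem_Ioi.2 hy) (Set.mem_Ioi.2 (hy.trans_le hyx)) hyx
  simp only at h1
  have hx : 0 < x := hy.trans_le hyx
  rw [div_le_div_iff₀ (by positivity) (by positivity)] at h1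
  linarith

theorem gg_ratio {y x : ℝ} (hy : -1 < y) (hx : 0 < x) (hyx : y ≤ x) :
    y ^ 2 * gg x ≤ x ^ 2 * gg y := by
  rcases lt_or_ge 0 y with h | h
  · exact gg_ratio_pos h hyx
  · have h1 := gg_ge_of_neg hy h
    have h2 := gg_le_of_pos hx.le
    have h3 := mul_le_mul_of_nonneg_left h2 (sq_nonneg y)
    have h4 := mul_le_mul_of_nonneg_left h1 (sq_nonneg x)
    linarith

/-- sharp bound of `∑ (t - 1)²` by the one-outlier value -/
theorem sum_sq_le {N : ℕ} (t : Fin N → ℝ) (ht : ∀ k, 0 < t k) (hsum : ∑ k, t k = N) {x : ℝ}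
    (hx : 0 < x) (hD : -∑ k, Real.log (t k) ≤ gg x) : ∑ k, (t k - 1) ^ 2 ≤ x ^ 2 := by
  have e1 : ∑ k, gg (t k - 1) = -∑ k, Real.log (t k) := by
    unfold gg
    rw [Finset.sum_sub_distrib, Finset.sum_sub_distrib, hsum]
    simp
  have hg : 0 < gg x := by
    have := gg_lt le_rfl hx
    rwa [gg_zero] at this
  have hle : ∀ k, t k - 1 ≤ x := by
    intro k
    by_contra hcon
    push Not at hcon
    have h1 := gg_lt hx.le hcon
    have h2 : gg (t k - 1) ≤ ∑ k, gg (t k - 1) :=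
      Finset.single_le_sum (f := fun k => gg (t k - 1)) (fun j _ => gg_nonneg (by linarith [ht j])) (Finset.mem_univ k)
    rw [e1] at h2
    linarith
  have h2 : (∑ k, (t k - 1) ^ 2) * gg x ≤ x ^ 2 * ∑ k, gg (t k - 1) := by
    rw [Finset.sum_mul, Finset.mul_sum]
    exact Finset.sum_le_sum fun k _ => gg_ratio (by linarith [ht k]) hx (hle k)
  rw [e1] at h2
  have h3 : (∑ k, (t k - 1) ^ 2) * gg x ≤ x ^ 2 * gg x :=
    h2.trans (mul_le_mul_of_nonneg_left hD (sq_nonneg x))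
  exact le_of_mul_le_mul_right h3 hg

namespace Fr

variable {N : ℕ} {a : ℝ} {ζ z : Fin N → ℂ}

/-- `S = mean t²` -/
noncomputable def S (a : ℝ) (ζ : Fin N → ℂ) : ℝ := (∑ k, ‖u a ζ k‖ ^ 2) / N

/-- `p = a Re ū` -/
noncomputable def p (a : ℝ) (ζ : Fin N → ℂ) : ℝ := a * ((∑ k, u a ζ k).re / N)

/-- `P = a ‖ū‖` -/
noncomputable def P (a : ℝ) (ζ : Fin N → ℂ) : ℝ := a * (‖∑ k, u a ζ k‖ / N)

/-- `Δ = -∑ log t` -/
noncomputable def Del (a : ℝ) (ζ : Fin N → ℂ) : ℝ := -∑ k, Real.log ‖u a ζ k‖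

/-- `X s = mean ‖1 - s a u‖²` -/
noncomputable def X (a : ℝ) (ζ : Fin N → ℂ) (s : ℝ) : ℝ := 1 - 2 * p a ζ * s + a ^ 2 * S a ζ * s ^ 2

theorem t_pos (h : Fr N a ζ z) (k : Fin N) : 0 < ‖u a ζ k‖ := norm_pos_iff.2 (h.u_ne k)

theorem prod_t (h : Fr N a ζ z) : ∏ k, ‖u a ζ k‖ = Real.exp (-Del a ζ) := by
  unfold Del
  rw [neg_neg, ← Real.log_prod fun k _ => (h.t_pos k).ne',
    Real.exp_log (Finset.prod_pos fun k _ => h.t_pos k)]

theorem Del_nonneg (h : Fr N a ζ z) : 0 ≤ Del a ζ := by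
  have e1 : ∑ k, gg (‖u a ζ k‖ - 1) = Del a ζ := by
    unfold gg Del
    rw [Finset.sum_sub_distrib, Finset.sum_sub_distrib, h.mean]
    simp
  rw [← e1]
  exact Finset.sum_nonneg fun k _ => gg_nonneg (by linarith [h.t_pos k])

theorem sum_dev (h : Fr N a ζ z) (hN : 0 < N) :
    ∑ k, (‖u a ζ k‖ - 1) ^ 2 = N * (S a ζ - 1) := by
  have hN0 : (N : ℝ) ≠ 0 := by exact_mod_cast hN.ne'
  have e : ∀ k, (‖u a ζ k‖ - 1) ^ 2 = ‖u a ζ k‖ ^ 2 - 2 * ‖u a ζ k‖ + 1 := fun k => by ring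
  simp only [e, Finset.sum_add_distrib, Finset.sum_sub_distrib, ← Finset.mul_sum, h.mean]
  unfold S
  simp only [Finset.sum_const, Finset.card_univ, Fintype.card_fin, nsmul_eq_mul, mul_one]
  field_simp
  ring

theorem one_le_S (h : Fr N a ζ z) (hN : 0 < N) : 1 ≤ S a ζ := by
  have h1 := h.sum_dev hN
  have h2 : 0 ≤ ∑ k, (‖u a ζ k‖ - 1) ^ 2 := Finset.sum_nonneg fun k _ => sq_nonneg _
  rw [h1] at h2
  have hN0 : (0 : ℝ) < N := by exact_mod_cast hN
  nlinarith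

/-- (r2) -/
theorem dev_le (h : Fr N a ζ z) (hN : 0 < N) {x : ℝ} (hx : 0 < x)
    (hD : Del a ζ ≤ x - Real.log (1 + x)) : N * (S a ζ - 1) ≤ x ^ 2 := by
  rw [← h.sum_dev hN]
  exact sum_sq_le _ h.t_pos h.mean hx hD

theorem abs_p_le (h : Fr N a ζ z) : |p a ζ| ≤ P a ζ := by
  unfold p P
  rw [abs_mul, abs_of_pos h.a0, abs_div, Nat.abs_cast]
  exact mul_le_mul_of_nonneg_left
    (div_le_div_of_nonneg_right (Complex.abs_re_le_norm _) (Nat.cast_nonneg N)) h.a0.le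

theorem P_le (h : Fr N a ζ z) (hN : 0 < N) : P a ζ ≤ a := by
  unfold P
  have hN0 : (0 : ℝ) < N := by exact_mod_cast hN
  have h1 : ‖∑ k, u a ζ k‖ ≤ N := (norm_sum_le _ _).trans (le_of_eq h.mean)
  have h2 : ‖∑ k, u a ζ k‖ / N ≤ 1 := by rwa [div_le_one hN0]
  nlinarith [h.a0]

theorem P_nonneg (h : Fr N a ζ z) : 0 ≤ P a ζ := by
  unfold P
  have := h.a0
  positivity

theorem N_sub_P (h : Fr N a ζ z) (hN : 0 < N) :
    ∑ k, ∑ j, ‖u a ζ k - u a ζ j‖ ^ 2 = 2 * N ^ 2 / a ^ 2 * (a ^ 2 * S a ζ - P a ζ ^ 2) := by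
  have hN0 : (N : ℝ) ≠ 0 := by exact_mod_cast hN.ne'
  have ha := h.a0.ne'
  rw [sum_sum_norm_sub_sq]
  unfold S P
  field_simp

theorem P_sq_le (h : Fr N a ζ z) (hN : 0 < N) : P a ζ ^ 2 ≤ a ^ 2 * S a ζ := by
  have h1 := h.N_sub_P hN
  have h2 : 0 ≤ ∑ k, ∑ j, ‖u a ζ k - u a ζ j‖ ^ 2 :=
    Finset.sum_nonneg fun k _ => Finset.sum_nonneg fun j _ => sq_nonneg _
  rw [h1] at h2
  have hN0 : (0 : ℝ) < N := by exact_mod_cast hN
  have ha := h.a0
  have h3 : 0 < 2 * (N : ℝ) ^ 2 / a ^ 2 := by positivity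
  have := nonneg_of_mul_nonneg_right h2 h3
  linarith

theorem sum_X (hN : 0 < N) (s : ℝ) :
    ∑ k, ‖(1 : ℂ) - (s : ℂ) * a * u a ζ k‖ ^ 2 = N * X a ζ s := by
  have hN0 : (N : ℝ) ≠ 0 := by exact_mod_cast hN.ne'
  have h1 := sum_norm_one_sub_sq (u a ζ) (s * a)
  have e : ∀ k, ‖(1 : ℂ) - (s : ℂ) * a * u a ζ k‖ = ‖(1 : ℂ) - ((s * a : ℝ) : ℂ) * u a ζ k‖ :=
    fun k => by push_cast; rfl
  simp only [e]
  rw [h1]
  unfold X p S
  field_simp

theorem X_nonneg (hN : 0 < N) (s : ℝ) : 0 ≤ X a ζ s := by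
  have h1 := sum_X (a := a) (ζ := ζ) hN s
  have h2 : 0 ≤ ∑ k, ‖(1 : ℂ) - (s : ℂ) * a * u a ζ k‖ ^ 2 :=
    Finset.sum_nonneg fun k _ => sq_nonneg _
  rw [h1] at h2
  have hN0 : (0 : ℝ) < N := by exact_mod_cast hN
  exact nonneg_of_mul_nonneg_right h2 hN0

/-- product over all indices -/
theorem prod_all_le (hN : 0 < N) (s : ℝ) :
    ∏ k, ‖(1 : ℂ) - (s : ℂ) * a * u a ζ k‖ ≤ √(X a ζ s) ^ N := by
  have hN0 : (N : ℝ) ≠ 0 := by exact_mod_cast hN.ne'
  have : NeZero N := ⟨hN.ne'⟩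
  have h1 := prod_le_sqrt_pow (univ : Finset (Fin N)) univ_nonempty
    (fun k => ‖(1 : ℂ) - (s : ℂ) * a * u a ζ k‖) (fun _ _ => norm_nonneg _)
  rw [sum_X hN, Finset.card_univ, Fintype.card_fin, mul_div_cancel_left₀ _ hN0] at h1
  exact h1

/-- product over all indices but two -/
theorem prod_pair_le (hN : 3 ≤ N) (s : ℝ) {k j : Fin N} (hkj : k ≠ j) :
    ∏ l ∈ (univ.erase k).erase j, ‖(1 : ℂ) - (s : ℂ) * a * u a ζ l‖ ≤
      √((N : ℝ) / (N - 2)) ^ (N - 2) * √(X a ζ s) ^ (N - 2) := by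
  have hN3 : (3 : ℝ) ≤ N := by exact_mod_cast hN
  have hcard : #((univ.erase k).erase j : Finset (Fin N)) = N - 2 := by
    rw [Finset.card_erase_of_mem (Finset.mem_erase.2 ⟨hkj.symm, Finset.mem_univ j⟩),
      Finset.card_erase_of_mem (Finset.mem_univ k), Finset.card_univ, Fintype.card_fin]
    omega
  have hne : ((univ.erase k).erase j : Finset (Fin N)).Nonempty := by
    rw [← Finset.card_pos, hcard]
    omega
  have h1 := prod_le_sqrt_pow ((univ.erase k).erase j : Finset (Fin N)) hne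
    (fun k => ‖(1 : ℂ) - (s : ℂ) * a * u a ζ k‖) (fun _ _ => norm_nonneg _)
  rw [hcard] at h1
  refine h1.trans ?_
  rw [← mul_pow, ← Real.sqrt_mul (by
    apply div_nonneg <;> linarith)]
  refine pow_le_pow_left₀ (Real.sqrt_nonneg _) (Real.sqrt_le_sqrt ?_) _
  have h2 : ∑ l ∈ (univ.erase k).erase j, ‖(1 : ℂ) - (s : ℂ) * a * u a ζ l‖ ^ 2 ≤ N * X a ζ s := by
    rw [← sum_X (by omega) s]
    exact Finset.sum_le_sum_of_subset_of_nonneg (Finset.subset_univ _) fun _ _ _ => sq_nonneg _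
  have hc : (((N - 2 : ℕ) : ℕ) : ℝ) = (N : ℝ) - 2 := by
    rw [Nat.cast_sub (by omega)]; norm_num
  rw [hc]
  calc (∑ l ∈ (univ.erase k).erase j, ‖(1 : ℂ) - (s : ℂ) * a * u a ζ l‖ ^ 2) / ((N : ℝ) - 2) ≤
      (N * X a ζ s) / ((N : ℝ) - 2) := div_le_div_of_nonneg_right h2 (by linarith)
    _ = (N : ℝ) / (N - 2) * X a ζ s := by ring

/-- (r3) -/
theorem Rw_am (h : Fr N a ζ z) (hN : 0 < N) :
    1 + (1 - a ^ 2) * N * (1 - p a ζ / 2) ≤
      √(1 + (1 - a ^ 2) * (2 * p a ζ - 1 + (1 - a ^ 2) * S a ζ)) ^ N := by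
  have hN0 : (N : ℝ) ≠ 0 := by exact_mod_cast hN.ne'
  have : NeZero N := ⟨hN.ne'⟩
  have h1 := h.Rw'
  have h2 := prod_le_sqrt_pow (univ : Finset (Fin N)) univ_nonempty
    (fun k => ‖(a : ℂ) + (1 - (a : ℂ) ^ 2) * u a ζ k‖) (fun _ _ => norm_nonneg _)
  have h3 := h1.trans h2
  have e1 : 1 + (1 - a ^ 2) * N * (1 - p a ζ / 2) =
      1 + (1 - a ^ 2) * (N - a / 2 * (∑ k, u a ζ k).re) := by
    unfold p
    field_simp
  rw [e1]
  refine h3.trans (le_of_eq ?_)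
  rw [Finset.card_univ, Fintype.card_fin]
  congr 2
  have e2 : ∀ k, ‖(a : ℂ) + (1 - (a : ℂ) ^ 2) * u a ζ k‖ ^ 2 =
      a ^ 2 + 2 * a * (1 - a ^ 2) * (u a ζ k).re + (1 - a ^ 2) ^ 2 * ‖u a ζ k‖ ^ 2 := fun k => by
    have e : (1 : ℂ) - (a : ℂ) ^ 2 = ((1 - a ^ 2 : ℝ) : ℂ) := by push_cast; ring
    rw [e]
    simp only [← Complex.normSq_eq_norm_sq, Complex.normSq_apply]
    simp only [Complex.add_re, Complex.ofReal_re, Complex.mul_re,
      Complex.ofReal_im, Complex.add_im, Complex.mul_im]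
    ring
  simp only [e2, Finset.sum_add_distrib, ← Finset.mul_sum]
  unfold p S
  simp only [Finset.sum_const, Finset.card_univ, Fintype.card_fin, nsmul_eq_mul,
    Complex.re_sum]
  field_simp
  ring

/-- the factor `E_N` -/
theorem E_le (hN : 3 ≤ N) : √((N : ℝ) / (N - 2)) ^ (N - 2) ≤ Real.exp 1 := by
  have hN3 : (3 : ℝ) ≤ N := by exact_mod_cast hN
  have hc : (((N - 2 : ℕ) : ℕ) : ℝ) = (N : ℝ) - 2 := by
    rw [Nat.cast_sub (by omega)]; norm_num
  have h1 : (N : ℝ) / (N - 2) ≤ Real.exp (2 / (N - 2)) := by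
    have := Real.add_one_le_exp (2 / ((N : ℝ) - 2))
    refine le_trans (le_of_eq ?_) this
    have : (N : ℝ) - 2 ≠ 0 := by linarith
    field_simp
    ring
  have h2 : √((N : ℝ) / (N - 2)) ≤ Real.exp (1 / (N - 2)) := by
    refine (Real.sqrt_le_sqrt h1).trans (le_of_eq ?_)
    have e : (2 : ℝ) / (N - 2) = 1 / (N - 2) + 1 / (N - 2) := by ring
    rw [e, Real.exp_add, Real.sqrt_mul_self (Real.exp_nonneg _)]
  refine (pow_le_pow_left₀ (Real.sqrt_nonneg _) h2 _).trans (le_of_eq ?_)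
  rw [← Real.exp_nat_mul, hc]
  congr 1
  have : (N : ℝ) - 2 ≠ 0 := by linarith
  field_simp

/-- (r4) -/
theorem test (h : Fr N a ζ z) (hN : 3 ≤ N) :
    1 ≤ √(X a ζ 1) * min (√(X a ζ 1) ^ N) (Real.exp (-Del a ζ)) +
      √((N : ℝ) / (N - 2)) ^ (N - 2) * (N * (a ^ 2 * S a ζ - P a ζ ^ 2)) *
        (∫ s in (0:ℝ)..1, s * √(X a ζ s) ^ (N - 2)) +
      P a ζ * Real.exp (-Del a ζ) := by
  have hNp : 0 < N := by omega
  have hN0 : (0 : ℝ) < N := by exact_mod_cast hNp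
  have ha := h.a0
  have h1 := h.critX hNp
  have t1 : ‖1 - (a : ℂ) * ((∑ k, u a ζ k) / N)‖ ≤ √(X a ζ 1) := by
    refine Real.le_sqrt_of_sq_le ?_
    have e : ‖1 - (a : ℂ) * ((∑ k, u a ζ k) / N)‖ ^ 2 = 1 - 2 * p a ζ + P a ζ ^ 2 := by
      have e' : (a : ℂ) * ((∑ k, u a ζ k) / N) = ((a / N : ℝ) : ℂ) * ∑ k, u a ζ k := by
        push_cast; ring
      rw [e']
      unfold p P
      have h2 : ‖∑ k, u a ζ k‖ ^ 2 = (∑ k, u a ζ k).re * (∑ k, u a ζ k).re +
          (∑ k, u a ζ k).im * (∑ k, u a ζ k).im := by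
        rw [← Complex.normSq_eq_norm_sq, Complex.normSq_apply]
      have h3 : (a * (‖∑ k, u a ζ k‖ / N)) ^ 2 = (a / N) ^ 2 * ‖∑ k, u a ζ k‖ ^ 2 := by ring
      rw [h3, h2]
      simp only [← Complex.normSq_eq_norm_sq, Complex.normSq_apply]
      simp only [Complex.sub_re, Complex.sub_im, Complex.one_re, Complex.one_im, Complex.mul_re,
        Complex.mul_im, Complex.ofReal_re, Complex.ofReal_im]
      ring
    rw [e]
    have := h.P_sq_le hNp
    unfold X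
    linarith
  have t2 : ∏ k, ‖1 - (a : ℂ) * u a ζ k‖ ≤ min (√(X a ζ 1) ^ N) (Real.exp (-Del a ζ)) := by
    refine le_min ?_ ?_
    · have := prod_all_le (a := a) (ζ := ζ) hNp 1
      simpa using this
    · rw [← h.prod_t]
      exact Finset.prod_le_prod (fun _ _ => norm_nonneg _) fun k _ => h.gl k
  have t3 : XI a (u a ζ) ≤ √((N : ℝ) / (N - 2)) ^ (N - 2) *
      (2 * N ^ 2 / a ^ 2 * (a ^ 2 * S a ζ - P a ζ ^ 2)) *
        (∫ s in (0:ℝ)..1, s * √(X a ζ s) ^ (N - 2)) := by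
    unfold XI
    have hXc : Continuous fun s : ℝ => X a ζ s := by unfold X; fun_prop
    rw [← intervalIntegral.integral_const_mul]
    refine intervalIntegral.integral_mono_on zero_le_one
      (Continuous.intervalIntegrable (by fun_prop) _ _)
      (Continuous.intervalIntegrable (by fun_prop) _ _) ?_
    intro s hs
    rw [← h.N_sub_P hNp]
    have e : √((N : ℝ) / (N - 2)) ^ (N - 2) * (∑ k, ∑ j, ‖u a ζ k - u a ζ j‖ ^ 2) *
        (s * √(X a ζ s) ^ (N - 2)) = s * ∑ k, ∑ j, ‖u a ζ k - u a ζ j‖ ^ 2 *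
        (√((N : ℝ) / (N - 2)) ^ (N - 2) * √(X a ζ s) ^ (N - 2)) := by
      simp only [← Finset.sum_mul]
      ring
    rw [e]
    refine mul_le_mul_of_nonneg_left ?_ hs.1
    refine Finset.sum_le_sum fun k _ => Finset.sum_le_sum fun j _ => ?_
    by_cases hkj : k = j
    · subst hkj
      simp
    · exact mul_le_mul_of_nonneg_left (prod_pair_le hN s hkj) (sq_nonneg _)
  have t4 : a ^ 2 / (2 * N) * XI a (u a ζ) ≤ √((N : ℝ) / (N - 2)) ^ (N - 2) *
      (N * (a ^ 2 * S a ζ - P a ζ ^ 2)) * (∫ s in (0:ℝ)..1, s * √(X a ζ s) ^ (N - 2)) := by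
    have := mul_le_mul_of_nonneg_left t3 (by positivity : 0 ≤ a ^ 2 / (2 * N))
    refine this.trans (le_of_eq ?_)
    have : (N : ℝ) ≠ 0 := hN0.ne'
    field_simp
  have t5 : ‖1 - (a : ℂ) * ((∑ k, u a ζ k) / N)‖ * ∏ k, ‖1 - (a : ℂ) * u a ζ k‖ ≤
      √(X a ζ 1) * min (√(X a ζ 1) ^ N) (Real.exp (-Del a ζ)) :=
    mul_le_mul t1 t2 (Finset.prod_nonneg fun _ _ => norm_nonneg _) (Real.sqrt_nonneg _)
  have t6 : a * (‖∑ k, u a ζ k‖ / N) * ∏ k, ‖u a ζ k‖ = P a ζ * Real.exp (-Del a ζ) := by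
    rw [h.prod_t]
    rfl
  rw [t6] at h1
  linarith

end Fr

end Pool.Agent.Lib.MP_172a45_an.F
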