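import Pool.Agent.Lib.MP_172a45_an.F.Hybrid

set_option autoImplicit false

/-!
# helper5's inequality (STAR1)

Index `0` is replaced by `T₀ = 1 + s a t₀`; the others by `T (1 - χ)`, `T = 1 - s + s c`,
`c = ‖v‖`, `e = c - Re v`, `ω = 1/T`, `χ = s (1 - s) e ω²`.
-/

namespace Pool.Agent.Lib.MP_172a45_an.F

open Finset Real

/-- `T = 1 - s + s c` -/
noncomputable def TT (c s : ℝ) : ℝ := 1 - s + s * c

/-- `χ = s (1 - s) e / T²` -/
noncomputable def chi (c e s : ℝ) : ℝ := s * (1 - s) * (e * (TT c s)⁻¹ ^ 2)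

/-- `χ' = e (1 - s - s c) / T³` -/
noncomputable def chi' (c e s : ℝ) : ℝ := e * (TT c s)⁻¹ ^ 3 * (1 - s - s * c)

/-- `T (1 - χ)` -/
noncomputable def dd (c e s : ℝ) : ℝ := TT c s * (1 - chi c e s)

/-- the S-term of (STAR1) -/
noncomputable def st (c e A2 s : ℝ) : ℝ :=
  chi' c e s / (1 - chi c e s) - 2 * s * (e * (TT c s)⁻¹) -
    s * (chi c e s / (1 - chi c e s)) * (A2 * (TT c s)⁻¹)

theorem TT_pos {c s : ℝ} (hc : 0 < c) (hs0 : 0 ≤ s) (hs1 : s ≤ 1) : 0 < TT c s := by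
  unfold TT
  rcases eq_or_lt_of_le hs1 with h | h
  · subst h; linarith
  · have := mul_nonneg hs0 hc.le; linarith

theorem norm_le_dd {v : ℂ} {s : ℝ} (hv : 0 < ‖v‖) (hs0 : 0 ≤ s) (hs1 : s ≤ 1) :
    ‖(1 : ℂ) - s + s * v‖ ≤ dd ‖v‖ (‖v‖ - v.re) s := by
  have hT := TT_pos hv hs0 hs1
  have h1 := norm_seg_sq v s
  have h2 : ‖(1 : ℂ) - s + s * v‖ ^ 2 = (TT ‖v‖ s) ^ 2 * (1 - 2 * chi ‖v‖ (‖v‖ - v.re) s) := by
    rw [h1]
    unfold chi TT at *
    field_simp
  have h3 : 0 ≤ 1 - 2 * chi ‖v‖ (‖v‖ - v.re) s := by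
    have h4 : 0 ≤ (TT ‖v‖ s) ^ 2 * (1 - 2 * chi ‖v‖ (‖v‖ - v.re) s) := h2 ▸ sq_nonneg _
    exact nonneg_of_mul_nonneg_right h4 (by positivity)
  have h5 : 0 ≤ dd ‖v‖ (‖v‖ - v.re) s := by
    unfold dd
    exact mul_nonneg hT.le (by linarith)
  refine le_of_sq_le_sq ?_ h5
  rw [h2]
  unfold dd
  rw [mul_pow]
  refine mul_le_mul_of_nonneg_left ?_ (sq_nonneg _)
  nlinarith [sq_nonneg (chi ‖v‖ (‖v‖ - v.re) s)]

theorem chi_le {v : ℂ} {s : ℝ} (hv : 0 < ‖v‖) (hs0 : 0 ≤ s) (hs1 : s ≤ 1) :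
    chi ‖v‖ (‖v‖ - v.re) s ≤ 1 / 2 := by
  have hT := TT_pos hv hs0 hs1
  have h1 := norm_seg_sq v s
  have h2 : ‖(1 : ℂ) - s + s * v‖ ^ 2 = (TT ‖v‖ s) ^ 2 * (1 - 2 * chi ‖v‖ (‖v‖ - v.re) s) := by
    rw [h1]
    unfold chi TT at *
    field_simp
  have h4 : 0 ≤ (TT ‖v‖ s) ^ 2 * (1 - 2 * chi ‖v‖ (‖v‖ - v.re) s) := h2 ▸ sq_nonneg _
  have := nonneg_of_mul_nonneg_right h4 (by positivity)
  linarith

theorem dd_deriv {c e s : ℝ} (hT : TT c s ≠ 0) :
    HasDerivAt (dd c e) ((c - 1) * (1 - chi c e s) - TT c s * chi' c e s) s := by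
  have hTd : HasDerivAt (TT c) (c - 1) s := by
    unfold TT
    have := ((hasDerivAt_id s).const_sub 1).add ((hasDerivAt_id s).mul_const c)
    refine this.congr_deriv ?_
    ring
  have h1 : HasDerivAt (fun s => s * (1 - s)) (1 - 2 * s) s := by
    have := (hasDerivAt_id s).mul ((hasDerivAt_id s).const_sub 1)
    refine this.congr_deriv ?_
    simp only [id]
    ring
  have h2 : HasDerivAt (fun s => e * ((TT c s)⁻¹ ^ 2))
      (e * ((2 : ℕ) * (TT c s)⁻¹ ^ (2 - 1) * (-(c - 1) / TT c s ^ 2))) s :=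
    ((hTd.inv hT).pow 2).const_mul e
  have h3 : HasDerivAt (chi c e) ((1 - 2 * s) * (e * (TT c s)⁻¹ ^ 2) +
      s * (1 - s) * (e * ((2 : ℕ) * (TT c s)⁻¹ ^ (2 - 1) * (-(c - 1) / TT c s ^ 2)))) s :=
    h1.mul h2
  have h4 : HasDerivAt (dd c e) ((c - 1) * (1 - chi c e s) + TT c s *
      (-((1 - 2 * s) * (e * (TT c s)⁻¹ ^ 2) +
      s * (1 - s) * (e * ((2 : ℕ) * (TT c s)⁻¹ ^ (2 - 1) * (-(c - 1) / TT c s ^ 2)))))) s :=
    hTd.mul (h3.const_sub 1)
  refine h4.congr_deriv ?_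
  have h5 : (1 - 2 * s) * (e * (TT c s)⁻¹ ^ 2) +
      s * (1 - s) * (e * ((2 : ℕ) * (TT c s)⁻¹ ^ (2 - 1) * (-(c - 1) / TT c s ^ 2))) =
      chi' c e s := by
    unfold chi'
    have e1 : 1 - s - s * c = (1 - 2 * s) * TT c s - 2 * (s * (1 - s)) * (c - 1) := by
      unfold TT; ring
    rw [e1]
    push_cast
    field_simp
    ring_nf
  rw [h5]
  ring

/-- the admissible pairs `(c, e)` -/
def Adm (c e : ℝ) : Prop := (0 < c ∧ ∀ s ∈ Set.Icc (0:ℝ) 1, chi c e s ≤ 1 / 2) ∨ (c = 0 ∧ e = 0)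

theorem adm_of (v : ℂ) : Adm ‖v‖ (‖v‖ - v.re) := by
  by_cases h : v = 0
  · right
    subst h
    simp
  · left
    have hv := norm_pos_iff.2 h
    exact ⟨hv, fun s hs => chi_le hv hs.1 hs.2⟩

/-- the derivative of `dd` -/
noncomputable def dd' (c e s : ℝ) : ℝ := (c - 1) * (1 - chi c e s) - TT c s * chi' c e s

theorem dd_deriv' {c e s : ℝ} (h : Adm c e) (hs : s ∈ Set.Icc (0:ℝ) 1) :
    HasDerivAt (dd c e) (dd' c e s) s := by
  rcases h with ⟨hc, -⟩ | ⟨hc, he⟩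
  · exact dd_deriv (TT_pos hc hs.1 hs.2).ne'
  · subst hc he
    have e1 : dd 0 0 = fun s => 1 - s := by
      funext s
      unfold dd TT chi
      ring
    rw [e1]
    refine ((hasDerivAt_id s).const_sub 1).congr_deriv ?_
    unfold dd' chi chi'
    ring

theorem dd_key {c e A2 s : ℝ} (h : Adm c e) (hA : A2 = (1 - c) ^ 2 + 2 * e)
    (hs : s ∈ Set.Icc (0:ℝ) 1) :
    dd c e s * (1 - c + st c e A2 s) = -dd' c e s - s * A2 := by
  subst hA
  rcases h with ⟨hc, hchi⟩ | ⟨hc, he⟩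
  · have hT := (TT_pos hc hs.1 hs.2).ne'
    have h1 : 1 - chi c e s ≠ 0 := by have := hchi s hs; linarith
    have e1 : TT c s * (TT c s)⁻¹ = 1 := mul_inv_cancel₀ hT
    have e2 : (1 - chi c e s) * (1 - chi c e s)⁻¹ = 1 := mul_inv_cancel₀ h1
    have e3 : TT c s = 1 - s * (1 - c) := by unfold TT; ring
    unfold dd st dd'
    rw [div_eq_mul_inv, div_eq_mul_inv]
    set T := TT c s
    set x := chi c e s
    set y := chi' c e s
    set i := T⁻¹
    set j := (1 - x)⁻¹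
    have e4 : T * (1 - x) * (1 - c + (y * j - 2 * s * (e * i) -
        s * (x * j) * (((1 - c) ^ 2 + 2 * e) * i))) =
        T * (1 - x) * (1 - c) + T * y * ((1 - x) * j) - 2 * s * e * (1 - x) * (T * i) -
        s * x * ((1 - c) ^ 2 + 2 * e) * ((1 - x) * j) * (T * i) := by ring
    rw [e4, e1, e2]
    have e5 : T * (1 - x) * (1 - c) = (1 - s * (1 - c)) * (1 - x) * (1 - c) := by rw [e3]
    rw [e5]
    ring
  · subst hc he
    unfold dd st dd' chi chi' TT
    simp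

/-- (STAR1), exact form for real data -/
theorem star1_real {M : ℕ} (A : ℝ) (c e A2 : Fin M → ℝ) (h : ∀ k, Adm (c k) (e k))
    (hA : ∀ k, A2 k = (1 - c k) ^ 2 + 2 * e k) :
    ∫ s in (0:ℝ)..1, (1 + s * A) * (∏ k, dd (c k) (e k) s) *
        (-A + ∑ k, (1 - c k) + ∑ k, st (c k) (e k) (A2 k) s) =
      1 - (1 + A) * ∏ k, c k -
      ∫ s in (0:ℝ)..1, s * (A ^ 2 * ∏ k, dd (c k) (e k) s +
        (1 + s * A) * ∑ k, A2 k * ∏ l ∈ univ.erase k, dd (c l) (e l) s) := by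
  -- continuity on [0,1]
  have hcd : ∀ k, ContinuousOn (dd (c k) (e k)) (Set.Icc (0:ℝ) 1) := fun k s hs =>
    (dd_deriv' (h k) hs).continuousAt.continuousWithinAt
  have hcd' : ∀ k, ContinuousOn (dd' (c k) (e k)) (Set.Icc (0:ℝ) 1) := by
    intro k
    rcases h k with ⟨hc, -⟩ | ⟨hc, he⟩
    · have hT : ∀ s ∈ Set.Icc (0:ℝ) 1, TT (c k) s ≠ 0 := fun s hs => (TT_pos hc hs.1 hs.2).ne'
      have hTc : ContinuousOn (TT (c k)) (Set.Icc (0:ℝ) 1) := by
        unfold TT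
        fun_prop
      have hi : ContinuousOn (fun s => (TT (c k) s)⁻¹) (Set.Icc (0:ℝ) 1) := hTc.inv₀ hT
      unfold dd' chi chi'
      fun_prop
    · have : dd' (c k) (e k) = fun _ => -1 := by
        funext s
        rw [hc, he]
        unfold dd' chi chi'
        ring
      rw [this]
      exact continuousOn_const
  have hder : ∀ s ∈ Set.uIcc (0:ℝ) 1, HasDerivAt (fun s => (1 + s * A) * ∏ k, dd (c k) (e k) s)
      (A * (∏ k, dd (c k) (e k) s) + (1 + s * A) *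
        ∑ k, dd' (c k) (e k) s * ∏ l ∈ univ.erase k, dd (c l) (e l) s) s := by
    intro s hs
    rw [Set.uIcc_of_le zero_le_one] at hs
    have h1 := HasDerivAt.fun_finsetProd (u := univ) (f := fun k => dd (c k) (e k))
      (f' := fun k => dd' (c k) (e k) s) (x := s) fun k _ => dd_deriv' (h k) hs
    have h2 : HasDerivAt (fun s : ℝ => 1 + s * A) (1 * A) s :=
      ((hasDerivAt_id s).mul_const A).const_add 1
    refine (h2.mul h1).congr_deriv ?_
    rw [one_mul]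
    congr 2
    refine Finset.sum_congr rfl fun k _ => ?_
    simp only [smul_eq_mul]
    ring
  have hint : IntervalIntegrable (fun s => A * (∏ k, dd (c k) (e k) s) + (1 + s * A) *
        ∑ k, dd' (c k) (e k) s * ∏ l ∈ univ.erase k, dd (c l) (e l) s)
      MeasureTheory.volume 0 1 := by
    refine ContinuousOn.intervalIntegrable ?_
    rw [Set.uIcc_of_le zero_le_one]
    refine (continuousOn_const.mul (continuousOn_finsetProd _ fun k _ => hcd k)).add
      (ContinuousOn.mul (by fun_prop) (continuousOn_finsetSum _ fun k _ => (hcd' k).mul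
        (continuousOn_finsetProd _ fun l _ => hcd l)))
  have hint2 : IntervalIntegrable (fun s => s * (A ^ 2 * ∏ k, dd (c k) (e k) s +
        (1 + s * A) * ∑ k, A2 k * ∏ l ∈ univ.erase k, dd (c l) (e l) s))
      MeasureTheory.volume 0 1 := by
    refine ContinuousOn.intervalIntegrable ?_
    rw [Set.uIcc_of_le zero_le_one]
    refine continuousOn_id.mul ((continuousOn_const.mul (continuousOn_finsetProd _ fun k _ =>
      hcd k)).add (ContinuousOn.mul (by fun_prop) (continuousOn_finsetSum _ fun k _ =>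
        continuousOn_const.mul (continuousOn_finsetProd _ fun l _ => hcd l))))
  have hFTC := intervalIntegral.integral_eq_sub_of_hasDerivAt hder hint
  have hpt : ∀ s ∈ Set.uIcc (0:ℝ) 1, (1 + s * A) * (∏ k, dd (c k) (e k) s) *
        (-A + ∑ k, (1 - c k) + ∑ k, st (c k) (e k) (A2 k) s) =
      -(A * (∏ k, dd (c k) (e k) s) + (1 + s * A) *
        ∑ k, dd' (c k) (e k) s * ∏ l ∈ univ.erase k, dd (c l) (e l) s) -
      s * (A ^ 2 * ∏ k, dd (c k) (e k) s +
        (1 + s * A) * ∑ k, A2 k * ∏ l ∈ univ.erase k, dd (c l) (e l) s) := by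
    intro s hs
    rw [Set.uIcc_of_le zero_le_one] at hs
    have h1 : ∑ k, (∏ l, dd (c l) (e l) s) * (1 - c k + st (c k) (e k) (A2 k) s) =
        ∑ k, (-dd' (c k) (e k) s - s * A2 k) * ∏ l ∈ univ.erase k, dd (c l) (e l) s := by
      refine Finset.sum_congr rfl fun k _ => ?_
      rw [← dd_key (h k) (hA k) hs, ← Finset.mul_prod_erase univ (fun l => dd (c l) (e l) s)
        (Finset.mem_univ k)]
      ring
    rw [← Finset.mul_sum, Finset.sum_add_distrib] at h1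
    have h2 : ∑ k, (-dd' (c k) (e k) s - s * A2 k) * ∏ l ∈ univ.erase k, dd (c l) (e l) s =
        -(∑ k, dd' (c k) (e k) s * ∏ l ∈ univ.erase k, dd (c l) (e l) s) -
        s * ∑ k, A2 k * ∏ l ∈ univ.erase k, dd (c l) (e l) s := by
      rw [Finset.mul_sum, ← Finset.sum_neg_distrib, ← Finset.sum_sub_distrib]
      exact Finset.sum_congr rfl fun k _ => by ring
    rw [h2] at h1
    linear_combination (1 + s * A) * h1
  have hneg : IntervalIntegrable (fun s => -(A * (∏ k, dd (c k) (e k) s) + (1 + s * A) *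
        ∑ k, dd' (c k) (e k) s * ∏ l ∈ univ.erase k, dd (c l) (e l) s))
      MeasureTheory.volume 0 1 := hint.neg
  rw [intervalIntegral.integral_congr hpt, intervalIntegral.integral_sub hneg hint2,
    intervalIntegral.integral_neg, hFTC]
  have e1 : ∏ k, dd (c k) (e k) 1 = ∏ k, c k := by
    refine Finset.prod_congr rfl fun k _ => ?_
    unfold dd chi TT
    ring
  have e0 : ∏ k, dd (c k) (e k) 0 = 1 := by
    refine Finset.prod_eq_one fun k _ => ?_
    unfold dd chi TT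
    ring
  rw [e1, e0]
  ring

namespace Fr

/-- (STAR1): index `0` arbitrary -/
theorem star1 {M : ℕ} {a : ℝ} {ζ z : Fin (M + 1) → ℂ} (h : Fr (M + 1) a ζ z) :
    ∫ s in (0:ℝ)..1, (1 + s * (a * ‖u a ζ 0‖)) *
        (∏ k : Fin M, dd ‖1 - (a : ℂ) * ut a ζ k‖
          (‖1 - (a : ℂ) * ut a ζ k‖ - (1 - (a : ℂ) * ut a ζ k).re) s) *
        (-(a * ‖u a ζ 0‖) + ∑ k : Fin M, (1 - ‖1 - (a : ℂ) * ut a ζ k‖) +
          ∑ k : Fin M, st ‖1 - (a : ℂ) * ut a ζ k‖
            (‖1 - (a : ℂ) * ut a ζ k‖ - (1 - (a : ℂ) * ut a ζ k).re) (a ^ 2 * ‖ut a ζ k‖ ^ 2) s) ≤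
      a * (‖∑ k, u a ζ k‖ / ((M + 1 : ℕ) + 1)) * ∏ k, ‖u a ζ k‖ := by
  have ha := h.a0
  have h1 := star1_real (a * ‖u a ζ 0‖) (fun k : Fin M => ‖1 - (a : ℂ) * ut a ζ k‖)
    (fun k => ‖1 - (a : ℂ) * ut a ζ k‖ - (1 - (a : ℂ) * ut a ζ k).re)
    (fun k => a ^ 2 * ‖ut a ζ k‖ ^ 2) (fun k => adm_of _) (fun k => by
      have := alg_e a (ut a ζ k)
      linarith)
  rw [h1]
  have h2 := h.critY
  -- bound of the product
  have h3 : ∏ k, ‖1 - (a : ℂ) * u a ζ k‖ ≤ (1 + a * ‖u a ζ 0‖) *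
      ∏ k : Fin M, ‖1 - (a : ℂ) * ut a ζ k‖ := by
    rw [Fin.prod_univ_succ]
    refine mul_le_mul_of_nonneg_right ?_ (Finset.prod_nonneg fun _ _ => norm_nonneg _)
    refine (norm_sub_le _ _).trans ?_
    rw [norm_one, norm_mul, Complex.norm_real, Real.norm_of_nonneg ha.le]
  have hd : ∀ s ∈ Set.Icc (0:ℝ) 1, ∀ k : Fin M, ‖(1 : ℂ) - (s : ℂ) * a * ut a ζ k‖ ≤
      dd ‖1 - (a : ℂ) * ut a ζ k‖
          (‖1 - (a : ℂ) * ut a ζ k‖ - (1 - (a : ℂ) * ut a ζ k).re) s := by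
    intro s hs k
    have e : (1 : ℂ) - (s : ℂ) * a * ut a ζ k = 1 - s + s * (1 - (a : ℂ) * ut a ζ k) := by ring
    rw [e]
    by_cases hv : 1 - (a : ℂ) * ut a ζ k = 0
    · rw [hv]
      simp only [mul_zero, add_zero, norm_zero, Complex.zero_re, sub_zero]
      unfold dd TT chi
      have : ‖(1 : ℂ) - s‖ = 1 - s := by
        have e2 : (1 : ℂ) - s = ((1 - s : ℝ) : ℂ) := by push_cast; ring
        rw [e2, Complex.norm_real, Real.norm_of_nonneg (by linarith [hs.2])]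
      rw [this]
      simp
    · exact norm_le_dd (norm_pos_iff.2 hv) hs.1 hs.2
  have h4 : YY a (u a ζ) ≤ ∫ s in (0:ℝ)..1, s * ((a * ‖u a ζ 0‖) ^ 2 *
      ∏ k : Fin M, dd ‖1 - (a : ℂ) * ut a ζ k‖
          (‖1 - (a : ℂ) * ut a ζ k‖ - (1 - (a : ℂ) * ut a ζ k).re) s +
        (1 + s * (a * ‖u a ζ 0‖)) * ∑ k : Fin M, a ^ 2 * ‖ut a ζ k‖ ^ 2 *
          ∏ l ∈ univ.erase k, dd ‖1 - (a : ℂ) * ut a ζ l‖
          (‖1 - (a : ℂ) * ut a ζ l‖ - (1 - (a : ℂ) * ut a ζ l).re) s) := by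
    unfold YY
    have hcd : ∀ k : Fin M, ContinuousOn (dd ‖1 - (a : ℂ) * ut a ζ k‖
          (‖1 - (a : ℂ) * ut a ζ k‖ - (1 - (a : ℂ) * ut a ζ k).re)) (Set.Icc (0:ℝ) 1) :=
      fun k s hs => (dd_deriv' (adm_of _) hs).continuousAt.continuousWithinAt
    refine intervalIntegral.integral_mono_on zero_le_one
      (Continuous.intervalIntegrable (by fun_prop) _ _) ?_ ?_
    · refine ContinuousOn.intervalIntegrable ?_
      rw [Set.uIcc_of_le zero_le_one]
      refine continuousOn_id.mul ((continuousOn_const.mul (continuousOn_finsetProd _ fun k _ =>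
        hcd k)).add (ContinuousOn.mul (by fun_prop) (continuousOn_finsetSum _ fun k _ =>
          continuousOn_const.mul (continuousOn_finsetProd _ fun l _ => hcd l))))
    · intro s hs
      refine mul_le_mul_of_nonneg_left ?_ hs.1
      have hd0 : ‖(1 : ℂ) - (s : ℂ) * a * u a ζ 0‖ ≤ 1 + s * (a * ‖u a ζ 0‖) := by
        refine (norm_sub_le _ _).trans ?_
        rw [norm_one, norm_mul, norm_mul, Complex.norm_real, Complex.norm_real,
          Real.norm_of_nonneg ha.le, Real.norm_of_nonneg hs.1, mul_assoc]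
      rw [Fin.sum_univ_succ]
      have e1 : (univ.erase (0 : Fin (M + 1))) = univ.map (Fin.succEmb M) := by
        ext i
        simp only [Finset.mem_erase, Finset.mem_univ, and_true, Finset.mem_map, true_and,
          Fin.coe_succEmb]
        exact ⟨fun hi => Fin.exists_succ_eq.2 hi, fun ⟨j, hj⟩ => hj ▸ Fin.succ_ne_zero j⟩
      have e2 : ∀ k : Fin M, (univ.erase k.succ : Finset (Fin (M + 1))) =
          insert 0 ((univ.erase k).map (Fin.succEmb M)) := by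
        intro k
        ext i
        simp only [Finset.mem_erase, Finset.mem_univ, and_true, Finset.mem_insert,
          Finset.mem_map, Fin.coe_succEmb]
        constructor
        · intro hi
          rcases Fin.eq_zero_or_eq_succ i with h0 | ⟨j, hj⟩
          · exact Or.inl h0
          · right
            exact ⟨j, fun hjk => hi (by rw [hj, hjk]), hj.symm⟩
        · rintro (h0 | ⟨j, hj, rfl⟩)
          · rw [h0]
            exact (Fin.succ_ne_zero k).symm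
          · exact fun h0 => hj (Fin.succ_injective _ h0)
      refine add_le_add ?_ ?_
      · rw [e1, Finset.prod_map]
        refine mul_le_mul_of_nonneg_left ?_ (sq_nonneg _)
        exact Finset.prod_le_prod (fun _ _ => norm_nonneg _) fun k _ => hd s hs k
      · rw [Finset.mul_sum]
        refine Finset.sum_le_sum fun k _ => ?_
        rw [e2, Finset.prod_insert (by simp [Fin.succ_ne_zero]), Finset.prod_map]
        have h5 : ∏ l ∈ univ.erase k, ‖(1 : ℂ) - (s : ℂ) * a * u a ζ ((Fin.succEmb M) l)‖ ≤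
            ∏ l ∈ univ.erase k, dd ‖1 - (a : ℂ) * ut a ζ l‖
            (‖1 - (a : ℂ) * ut a ζ l‖ - (1 - (a : ℂ) * ut a ζ l).re) s :=
          Finset.prod_le_prod (fun _ _ => norm_nonneg _) fun l _ => hd s hs l
        have h6 : (a * ‖u a ζ k.succ‖) ^ 2 = a ^ 2 * ‖ut a ζ k‖ ^ 2 := by
          unfold ut; ring
        rw [h6]
        have h7 : 0 ≤ ∏ l ∈ univ.erase k, ‖(1 : ℂ) - (s : ℂ) * a * u a ζ ((Fin.succEmb M) l)‖ :=
          Finset.prod_nonneg fun _ _ => norm_nonneg _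
        calc a ^ 2 * ‖ut a ζ k‖ ^ 2 * (‖(1 : ℂ) - (s : ℂ) * a * u a ζ 0‖ *
              ∏ l ∈ univ.erase k, ‖(1 : ℂ) - (s : ℂ) * a * u a ζ ((Fin.succEmb M) l)‖) ≤
            a ^ 2 * ‖ut a ζ k‖ ^ 2 * ((1 + s * (a * ‖u a ζ 0‖)) *
              ∏ l ∈ univ.erase k, dd ‖1 - (a : ℂ) * ut a ζ l‖
            (‖1 - (a : ℂ) * ut a ζ l‖ - (1 - (a : ℂ) * ut a ζ l).re) s) := by
              refine mul_le_mul_of_nonneg_left ?_ (by positivity)
              exact mul_le_mul hd0 h5 h7 (by have := hs.1; positivity)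
          _ = _ := by ring
  linarith

end Fr

end Pool.Agent.Lib.MP_172a45_an.F
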