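import Pool.Agent.Lib.MP_172a45_an.F.Red

set_option autoImplicit false

/-!
# The frame as a statement on real vectors (helper13's coordinates)

`b = 1 - a`, `y k = (1+a)‖u k‖ - 1`, `X k = (1+a)(‖u k‖ - Re (u k))`.
-/

namespace Pool.Agent.Lib.MP_172a45_an.F

open Finset Real

/-- `A(τ) = √((1 - τ (1+y))² + 2 τ X)` -/
noncomputable def AA (y X τ : ℝ) : ℝ := √((1 - τ * (1 + y)) ^ 2 + 2 * τ * X)

/-- the real data of a normalised counterexample -/
structure FV (N : ℕ) (a Δ : ℝ) (y X : Fin N → ℝ) : Prop where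
  a0 : 0 < a
  a1 : a < 1
  D0 : 0 ≤ Δ
  y0 : ∀ k, 0 ≤ y k
  X0 : ∀ k, 0 ≤ X k
  gl : ∀ k, 2 * a * X k ≤ 2 * y k + (1 - a) * y k ^ 2
  X2 : ∀ k, X k ≤ 2 * (1 + y k)
  sum : ∑ k, y k = a * N
  sumlog : ∑ k, Real.log (1 + y k) = N * Real.log (1 + a) - Δ
  rwpos : ∀ k, 1 ≤ (1 + (1 - a) * y k) ^ 2 - 2 * a * (1 - a) * X k
  rw' : Real.log (1 + (1 - a) * N * (1 + a * (1 - a) / 2)) ≤
    ∑ k, 1 / 2 * Real.log ((1 + (1 - a) * y k) ^ 2 - 2 * a * (1 - a) * X k)
  critY : 1 ≤ (∫ τ in (0:ℝ)..(a / (1 + a)), τ * ∑ k, (1 + y k) ^ 2 *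
      ∏ l ∈ univ.erase k, AA (y l) (X l) τ) +
    ∏ l, AA (y l) (X l) (a / (1 + a)) + a * (N / (N + 1)) * Real.exp (-Δ)

namespace Fr

variable {N : ℕ} {a : ℝ} {ζ z : Fin N → ℂ}

/-- `y k = (1+a)‖u k‖ - 1` -/
noncomputable def yy (a : ℝ) (ζ : Fin N → ℂ) (k : Fin N) : ℝ := (1 + a) * ‖u a ζ k‖ - 1

/-- `X k = (1+a)(‖u k‖ - Re (u k))` -/
noncomputable def xx (a : ℝ) (ζ : Fin N → ℂ) (k : Fin N) : ℝ :=
  (1 + a) * (‖u a ζ k‖ - (u a ζ k).re)

theorem norm_one_sub (a : ℝ) (ha : 0 < a) (ζ : Fin N → ℂ) (k : Fin N) (τ : ℝ) :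
    ‖(1 : ℂ) - ((τ * (1 + a) / a : ℝ) : ℂ) * a * u a ζ k‖ = AA (yy a ζ k) (xx a ζ k) τ := by
  unfold AA
  have e0 : ((τ * (1 + a) / a : ℝ) : ℂ) * a = ((τ * (1 + a) : ℝ) : ℂ) := by
    push_cast
    have : (a : ℂ) ≠ 0 := by exact_mod_cast ha.ne'
    field_simp
  rw [e0]
  have e1 : ‖(1 : ℂ) - ((τ * (1 + a) : ℝ) : ℂ) * u a ζ k‖ ^ 2 =
      (1 - τ * (1 + yy a ζ k)) ^ 2 + 2 * τ * xx a ζ k := by
    unfold yy xx
    have h2 : ‖u a ζ k‖ ^ 2 = (u a ζ k).re * (u a ζ k).re + (u a ζ k).im * (u a ζ k).im := by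
      rw [← Complex.normSq_eq_norm_sq, Complex.normSq_apply]
    have h3 : ‖(1 : ℂ) - ((τ * (1 + a) : ℝ) : ℂ) * u a ζ k‖ ^ 2 =
        1 - 2 * (τ * (1 + a)) * (u a ζ k).re + (τ * (1 + a)) ^ 2 *
        ((u a ζ k).re * (u a ζ k).re + (u a ζ k).im * (u a ζ k).im) := by
      rw [← Complex.normSq_eq_norm_sq, Complex.normSq_apply]
      simp only [Complex.sub_re, Complex.sub_im, Complex.one_re, Complex.one_im, Complex.mul_re,
        Complex.mul_im, Complex.ofReal_re, Complex.ofReal_im]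
      ring
    rw [h3, ← h2]
    ring
  rw [← e1, Real.sqrt_sq (norm_nonneg _)]

theorem toFV (h : Fr N a ζ z) : FV N a (Del a ζ) (yy a ζ) (xx a ζ) where
  a0 := h.a0
  a1 := h.a1
  D0 := h.Del_nonneg
  y0 := fun k => by
    have h1 := h.gl k
    have h2 : (1 : ℝ) ≤ ‖1 - (a : ℂ) * u a ζ k‖ + ‖(a : ℂ) * u a ζ k‖ := by
      calc (1 : ℝ) = ‖(1 - (a : ℂ) * u a ζ k) + (a : ℂ) * u a ζ k‖ := by
            rw [sub_add_cancel, norm_one]
        _ ≤ _ := norm_add_le _ _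
    rw [norm_mul, Complex.norm_real, Real.norm_of_nonneg h.a0.le] at h2
    unfold yy
    nlinarith
  X0 := fun k => by
    unfold xx
    have := Complex.re_le_norm (u a ζ k)
    have := h.a0
    exact mul_nonneg (by linarith) (by linarith)
  gl := fun k => by
    have h1 := h.eta_nonneg k
    have h2 := alg_re a (u a ζ k)
    have ha := h.a0
    unfold yy xx
    have h3 : 0 ≤ (1 + a) * (‖u a ζ k‖ ^ 2 - ‖1 - (a : ℂ) * u a ζ k‖ ^ 2) :=
      mul_nonneg (by linarith) h1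
    have h4 : (1 + a) * (2 * a * (u a ζ k).re) = (1 + a) * (1 - (1 - a ^ 2) * ‖u a ζ k‖ ^ 2 +
      (‖u a ζ k‖ ^ 2 - ‖1 - (a : ℂ) * u a ζ k‖ ^ 2)) := by rw [h2]
    nlinarith
  X2 := fun k => by
    unfold yy xx
    have h1 := Complex.abs_re_le_norm (u a ζ k)
    have h2 := (abs_le.1 h1).1
    have := h.a0
    nlinarith
  sum := by
    unfold yy
    rw [Finset.sum_sub_distrib, ← Finset.mul_sum, h.mean]
    simp
    ring
  sumlog := by
    unfold yy Del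
    have e : ∀ k, Real.log (1 + ((1 + a) * ‖u a ζ k‖ - 1)) =
        Real.log (1 + a) + Real.log ‖u a ζ k‖ := fun k => by
      rw [← Real.log_mul (by linarith [h.a0]) (h.t_pos k).ne']
      congr 1
      ring
    simp only [e, Finset.sum_add_distrib]
    simp
  rwpos := fun k => by
    have h1 := alg_eta a (u a ζ k)
    have h2 := h.eta_nonneg k
    have h3 := mul_nonneg h.m_pos.le h2
    have h4 := alg_re a (u a ζ k)
    unfold yy xx
    have e : (1 + (1 - a) * ((1 + a) * ‖u a ζ k‖ - 1)) ^ 2 -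
        2 * a * (1 - a) * ((1 + a) * (‖u a ζ k‖ - (u a ζ k).re)) =
        1 + (1 - a ^ 2) * (‖u a ζ k‖ ^ 2 - ‖1 - (a : ℂ) * u a ζ k‖ ^ 2) := by
      have h5 : (1 - a ^ 2) * (2 * a * (u a ζ k).re) = (1 - a ^ 2) *
        (1 - (1 - a ^ 2) * ‖u a ζ k‖ ^ 2 +
          (‖u a ζ k‖ ^ 2 - ‖1 - (a : ℂ) * u a ζ k‖ ^ 2)) := by rw [h4]
      nlinarith
    rw [e]
    linarith
  rw' := by
    have h1 := h.Rw'
    have hm := h.m_pos
    have ha0 := h.a0
    have ha1 := h.a1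
    have e : ∀ k, (1 + (1 - a) * yy a ζ k) ^ 2 - 2 * a * (1 - a) * xx a ζ k =
        ‖(a : ℂ) + (1 - (a : ℂ) ^ 2) * u a ζ k‖ ^ 2 := fun k => by
      have h4 := alg_re a (u a ζ k)
      rw [alg_eta]
      unfold yy xx
      have h5 : (1 - a ^ 2) * (2 * a * (u a ζ k).re) = (1 - a ^ 2) *
        (1 - (1 - a ^ 2) * ‖u a ζ k‖ ^ 2 +
          (‖u a ζ k‖ ^ 2 - ‖1 - (a : ℂ) * u a ζ k‖ ^ 2)) := by rw [h4]
      nlinarith
    have hp : ∀ k, ‖(a : ℂ) + (1 - (a : ℂ) ^ 2) * u a ζ k‖ ≠ 0 := fun k h0 => by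
      have h2 := alg_eta a (u a ζ k)
      rw [h0] at h2
      have h3 := mul_nonneg h.m_pos.le (h.eta_nonneg k)
      norm_num at h2
      linarith
    have h2 : ∑ k, 1 / 2 * Real.log ((1 + (1 - a) * yy a ζ k) ^ 2 -
        2 * a * (1 - a) * xx a ζ k) = Real.log (∏ k, ‖(a : ℂ) + (1 - (a : ℂ) ^ 2) * u a ζ k‖) := by
      rw [Real.log_prod fun k _ => hp k]
      refine Finset.sum_congr rfl fun k _ => ?_
      rw [e, Real.log_pow]
      push_cast
      ring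
    rw [h2]
    have h3 : (∑ k, u a ζ k).re ≤ N := by
      refine (Complex.re_le_norm _).trans ?_
      refine (norm_sum_le _ _).trans (le_of_eq ?_)
      exact h.mean
    have hb : 0 < 1 - a := by linarith
    refine Real.log_le_log (by positivity) (le_trans ?_ h1)
    have h4 : (N : ℝ) * (1 - a / 2) ≤ N - a / 2 * (∑ k, u a ζ k).re := by nlinarith
    have h5 := mul_le_mul_of_nonneg_left h4 hm.le
    have h6 : (1 - a ^ 2) * (N * (1 - a / 2)) = (1 - a) * N * (1 + a * (1 - a) / 2) := by ring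
    linarith
  critY := by
    have ha0 := h.a0
    have ha1 := h.a1
    have h1 := h.critY
    have hap : (0 : ℝ) < 1 + a := by linarith
    -- the integral
    have e1 : YY a (u a ζ) = ∫ τ in (0:ℝ)..(a / (1 + a)), τ * ∑ k, (1 + yy a ζ k) ^ 2 *
        ∏ l ∈ univ.erase k, AA (yy a ζ l) (xx a ζ l) τ := by
      have hs := intervalIntegral.smul_integral_comp_mul_left
        (f := fun s : ℝ => s * ∑ k, (a * ‖u a ζ k‖) ^ 2 *
          ∏ l ∈ univ.erase k, ‖1 - (s : ℂ) * a * u a ζ l‖) (a := 0) (b := a / (1 + a))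
          ((1 + a) / a)
      have e2 : (1 + a) / a * 0 = 0 := mul_zero _
      have e3 : (1 + a) / a * (a / (1 + a)) = 1 := by field_simp
      rw [e2, e3] at hs
      unfold YY
      rw [← hs, smul_eq_mul, ← intervalIntegral.integral_const_mul]
      refine intervalIntegral.integral_congr fun τ _ => ?_
      have e4 : ∀ l, ‖(1 : ℂ) - (((1 + a) / a * τ : ℝ) : ℂ) * a * u a ζ l‖ =
          AA (yy a ζ l) (xx a ζ l) τ := fun l => by
        rw [← norm_one_sub a ha0 ζ l τ]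
        congr 4
        ring_nf
      simp only [e4]
      have e5 : ∀ k, (a * ‖u a ζ k‖) ^ 2 = (a / (1 + a)) ^ 2 * (1 + yy a ζ k) ^ 2 := fun k => by
        unfold yy
        field_simp
        ring
      simp only [e5, mul_assoc, ← Finset.mul_sum]
      field_simp
    have e2 : ∏ k, ‖1 - (a : ℂ) * u a ζ k‖ = ∏ l, AA (yy a ζ l) (xx a ζ l) (a / (1 + a)) := by
      refine Finset.prod_congr rfl fun k _ => ?_
      rw [← norm_one_sub a ha0 ζ k]
      have : a / (1 + a) * (1 + a) / a = 1 := by field_simp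
      rw [this]
      simp
    rw [e1, e2, h.prod_t] at h1
    refine h1.trans ?_
    have h2 : ‖∑ k, u a ζ k‖ ≤ N := (norm_sum_le _ _).trans (le_of_eq h.mean)
    have h3 : a * (‖∑ k, u a ζ k‖ / (N + 1)) * Real.exp (-Del a ζ) ≤
        a * (N / (N + 1)) * Real.exp (-Del a ζ) := by
      refine mul_le_mul_of_nonneg_right ?_ (Real.exp_nonneg _)
      refine mul_le_mul_of_nonneg_left ?_ ha0.le
      exact div_le_div_of_nonneg_right h2 (by positivity)
    linarith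

end Fr

/-- `∑ w_k ∏_{l≠k} A_l ≤ x e^{-1} ∏ M_l e^{w_l/(x M_l)}` for `M_l ≥ A_l` -/
theorem sum_prod_erase_le {N : ℕ} (A w M : Fin N → ℝ) (hA : ∀ k, 0 ≤ A k) (hw : ∀ k, 0 ≤ w k)
    (hM : ∀ k, A k ≤ M k) (hM0 : ∀ k, 0 < M k) {x : ℝ} (hx : 0 < x) :
    ∑ k, w k * ∏ l ∈ univ.erase k, A l ≤
      x * Real.exp (-1) * ∏ l, (M l * Real.exp (w l / (x * M l))) := by
  have h1 : ∀ k, w k * ∏ l ∈ univ.erase k, A l ≤ w k / M k * ∏ l, M l := by
    intro k
    have h2 : ∏ l ∈ univ.erase k, A l ≤ ∏ l ∈ univ.erase k, M l :=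
      Finset.prod_le_prod (fun l _ => hA l) fun l _ => hM l
    have h3 : ∏ l, M l = M k * ∏ l ∈ univ.erase k, M l :=
      (Finset.mul_prod_erase univ M (Finset.mem_univ k)).symm
    rw [h3]
    have : M k ≠ 0 := (hM0 k).ne'
    calc w k * ∏ l ∈ univ.erase k, A l ≤ w k * ∏ l ∈ univ.erase k, M l :=
          mul_le_mul_of_nonneg_left h2 (hw k)
      _ = _ := by field_simp
  refine (Finset.sum_le_sum fun k _ => h1 k).trans ?_
  rw [← Finset.sum_mul, Finset.prod_mul_distrib, ← Real.exp_sum]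
  have hP : 0 ≤ ∏ l, M l := Finset.prod_nonneg fun l _ => (hM0 l).le
  have h4 : ∑ l, w l / (x * M l) = (∑ l, w l / M l) / x := by
    rw [Finset.sum_div]
    refine Finset.sum_congr rfl fun l _ => ?_
    have := (hM0 l).ne'
    field_simp
  rw [h4]
  have h5 : ∑ l, w l / M l ≤ x * (Real.exp (-1) * Real.exp ((∑ l, w l / M l) / x)) := by
    rw [← Real.exp_add]
    have h6 := Real.add_one_le_exp (-1 + (∑ l, w l / M l) / x)
    have h7 : (∑ l, w l / M l) / x ≤ Real.exp (-1 + (∑ l, w l / M l) / x) := by linarith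
    rwa [div_le_iff₀ hx, mul_comm] at h7
  calc (∑ i, w i / M i) * ∏ l, M l ≤
      (x * (Real.exp (-1) * Real.exp ((∑ l, w l / M l) / x))) * ∏ l, M l :=
        mul_le_mul_of_nonneg_right h5 hP
    _ = _ := by ring

/-- `Ψ A x = log max(A,x) + x / max(A,x)` -/
noncomputable def Psi (A x : ℝ) : ℝ := Real.log (max A x) + x / max A x

/-- the version with `M = max (A, w/x)` -/
theorem sum_prod_erase_le_Psi {N : ℕ} (A w : Fin N → ℝ) (hA : ∀ k, 0 ≤ A k)
    (hw : ∀ k, 0 < w k) {x : ℝ} (hx : 0 < x) :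
    ∑ k, w k * ∏ l ∈ univ.erase k, A l ≤
      x * Real.exp (-1) * Real.exp (∑ l, Psi (A l) (w l / x)) := by
  have hM0 : ∀ k, 0 < max (A k) (w k / x) := fun k =>
    lt_of_lt_of_le (div_pos (hw k) hx) (le_max_right _ _)
  refine (sum_prod_erase_le A w (fun k => max (A k) (w k / x)) hA (fun k => (hw k).le)
    (fun k => le_max_left _ _) hM0 hx).trans (le_of_eq ?_)
  rw [Real.exp_sum]
  congr 1
  refine Finset.prod_congr rfl fun l _ => ?_
  unfold Psi
  rw [Real.exp_add, Real.exp_log (hM0 l), div_div]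

end Pool.Agent.Lib.MP_172a45_an.F
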